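import Pool.Agent.H.MP_b28609_co.Gap.Ex.Dead

/-!
# MP_b28609_co, exact theorem: membership in the lists
-/

set_option autoImplicit false
set_option maxRecDepth 100000

namespace PatGap

open Side

namespace Ex

theorem vec_cons (x : ℕ) (L : List ℕ) : vec (x :: L) = vec L ||| 2 ^ (8 * x) := rfl

theorem vec_testBit (L : List ℕ) (i : ℕ) : (vec L).testBit (8 * i) = true ↔ i ∈ L := by
  induction L with
  | nil => simp [vec]
  | cons x L ih =>
    rw [vec_cons, Nat.testBit_or, Bool.or_eq_true, ih, Nat.testBit_two_pow, List.mem_cons]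
    simp only [decide_eq_true_eq]
    constructor
    · rintro (h | h)
      · exact Or.inr h
      · exact Or.inl (by omega)
    · rintro (h | h)
      · exact Or.inr (by omega)
      · exact Or.inl h

theorem ln_testBit0 (X i : ℕ) : (ln X i).testBit 0 = X.testBit (8 * i) := by
  rw [ln_testBit]
  simp

theorem vec_ln (L : List ℕ) (i : ℕ) (h : i ∈ L) : 1 ≤ ln (vec L) i := by
  have h1 := (vec_testBit L i).2 h
  rw [← ln_testBit0] at h1
  by_contra hc
  have h2 : ln (vec L) i = 0 := by omega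
  rw [h2] at h1
  simp at h1

theorem and254 : ∀ x, x < 256 → x &&& 254 = 0 → x ≤ 1 := by decide +kernel

theorem mk_code0 (f : ℕ → ℕ → Bool) (p : ℕ → ℕ) (n : ℕ) (hp : ∀ k, k < n → p k ≤ 2)
    (h : ∃ k, k < n ∧ f k (p k) = false) : ln (mk f n) (code p n) = 0 := by
  induction n with
  | zero =>
    obtain ⟨k, hk, -⟩ := h
    omega
  | succ n ih =>
    rw [code_succ, mk_ln_succ f n _ _ (code_lt p n fun k hk => hp k (by omega)) (hp n (by omega))]
    cases hf : f n (p n)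
    · rfl
    · obtain ⟨k, hk, hk2⟩ := h
      have hkn : k ≠ n := by
        rintro rfl
        rw [hf] at hk2
        cases hk2
      exact ih (fun l hl => hp l (by omega)) ⟨k, by omega, hk2⟩

theorem ln_xor (X Y i : ℕ) : ln (X ^^^ Y) i = ln X i ^^^ ln Y i := by
  apply Nat.eq_of_testBit_eq
  intro k
  rw [Nat.testBit_xor, ln_testBit, ln_testBit, ln_testBit, Nat.testBit_xor]
  cases decide (k < 8) <;> simp

theorem nc_ln (k x y : ℕ) (hk : k ≤ 9) (p : ℕ → ℕ) (hp : ∀ l, l < 11 → p l ≤ 2)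
    (h : ¬ (p k = x ∧ p (k + 1) = y)) : ln (nc k x y) (code p 11) = 1 := by
  unfold nc
  rw [ln_xor, Ua_ln _ (code_lt p 11 hp), mk_code0 _ p 11 hp]
  · rfl
  · by_cases h1 : p k = x
    · refine ⟨k + 1, by omega, ?_⟩
      have h2 : ¬ p (k + 1) = y := fun h2 => h ⟨h1, h2⟩
      rw [beqd, beqd, beqd, beqd]
      simp [h2]
    · refine ⟨k, by omega, ?_⟩
      rw [beqd, beqd, beqd, beqd]
      simp [h1]

theorem okm_ln (s φ : ℕ) (p : ℕ → ℕ) (hp : Ok 0 p) (h9 : p 9 = 1 ↔ bet s φ 9 ≠ 0)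
    (h10 : p 10 = bet s φ 10) : ln (okm s φ) (code p 11) = 1 := by
  have hp2 : ∀ l, l < 11 → p l ≤ 2 := fun l hl => hp.1 l (by omega)
  have base : ln (mk (fun t v => cond (Nat.beq t 9) (Bool.xor (Nat.beq v 1) (Nat.beq (bet s φ 9) 0))
      (cond (Nat.beq t 10) (Nat.beq v (bet s φ 10)) true)) 11) (code p 11) = 1 := by
    apply mk_code
    intro k hk
    refine ⟨hp2 k hk, ?_⟩
    rw [beqd, beqd, beqd, beqd, beqd]
    by_cases h1 : k = 9
    · subst h1
      by_cases h2 : p 9 = 1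
      · have h3 := h9.1 h2
        simp [h2, h3]
      · have h3 : bet s φ 9 = 0 := by
          by_contra hc
          exact h2 (h9.2 hc)
        simp [h2, h3]
    · by_cases h2 : k = 10
      · subst h2
        simp [h10]
      · simp [h1, h2]
  unfold okm
  have gen : ∀ l : List ℕ, (∀ k ∈ l, k ≤ 9) → ln (l.foldr (fun k V => V &&& (nc k 1 2 &&& nc k 2 1))
      (mk (fun t v => cond (Nat.beq t 9) (Bool.xor (Nat.beq v 1) (Nat.beq (bet s φ 9) 0))
      (cond (Nat.beq t 10) (Nat.beq v (bet s φ 10)) true)) 11)) (code p 11) = 1 := by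
    intro l
    induction l with
    | nil =>
      intro _
      exact base
    | cons k l ih =>
      intro hl
      have hk := hl k List.mem_cons_self
      have h3 := hp.2.2 k hk (by omega)
      rw [List.foldr_cons, ln_and, ih (fun m hm => hl m (List.mem_cons_of_mem _ hm)), ln_and,
        nc_ln k 1 2 hk p hp2 h3.1, nc_ln k 2 1 hk p hp2 h3.2]
      rfl
  exact gen _ (fun k hk => by
    have := List.mem_range.1 hk
    omega)

theorem fin_sound (s φ : ℕ) (L : List ℕ) (Y : ℕ) (h : fin s φ L Y = true) (p : ℕ → ℕ) (hp : Ok 0 p)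
    (h9 : p 9 = 1 ↔ bet s φ 9 ≠ 0) (h10 : p 10 = bet s φ 10) (hY : 1 ≤ ln Y (code p 11)) :
    code p 11 ∈ L := by
  unfold fin at h
  rw [Bool.and_eq_true] at h
  obtain ⟨h1, h2⟩ := h
  have h1' : Y &&& (254 * Ua) = 0 := Nat.eq_of_beq_eq_true h1
  have h2' : (Y &&& okm s φ) &&& vec L = Y &&& okm s φ := Nat.eq_of_beq_eq_true h2
  have hlt : code p 11 < 3 ^ 11 := code_lt p 11 fun k hk => hp.1 k (by omega)
  have h3 := congrArg (fun z => ln z (code p 11)) h1'
  simp only [ln_and] at h3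
  rw [ln_mul 254 _ Ua (fun k hk => by rw [Ua_ln k (by omega)]; decide), Ua_ln _ hlt,
    show 254 * 1 = 254 from rfl, show ln 0 (code p 11) = 0 by simp [ln]] at h3
  have h4 := and254 _ (ln_lt Y _) h3
  have h5 : ln Y (code p 11) = 1 := by omega
  have h6 : Y.testBit (8 * code p 11) = true := by
    rw [← ln_testBit0, h5]
    rfl
  have h7 : (okm s φ).testBit (8 * code p 11) = true := by
    rw [← ln_testBit0, okm_ln s φ p hp h9 h10]
    rfl
  have h8 := congrArg (fun z => z.testBit (8 * code p 11)) h2'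
  simp only [Nat.testBit_and, h6, h7, Bool.true_and] at h8
  exact (vec_testBit L _).1 h8

/-- Phase facts of a row. -/
def Row (d : ℤ → ℤ → ℤ) (s φ : ℕ) (i : ℤ) : Prop :=
  (d i 10 = 1 ↔ φ = 0) ∧ (d i 11 = 1 ↔ (φ + s) % 5 = 0)

theorem Row_bet (d : ℤ → ℤ → ℤ) (hb : Bin d) (s φ : ℕ) (i : ℤ) (h : Row d s φ i) (j : ℕ) (hj : j ≤ 10) :
    bet s φ j = 2 ∨ (bet s φ j : ℤ) = d i (j + 1) := by
  unfold bet
  rw [bled, beqd, beqd, beqd]
  by_cases h1 : j ≤ 8
  · left
    simp [h1]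
  · right
    by_cases h2 : j = 9
    · subst h2
      by_cases h3 : φ = 0
      · have := h.1.2 h3
        simp [h3]
        exact this.symm
      · have h4 : d i 10 ≠ 1 := fun h4 => h3 (h.1.1 h4)
        have h5 := (hb i 10).resolve_right h4
        simp [h3]
        exact h5.symm
    · have h6 : j = 10 := by omega
      subst h6
      by_cases h3 : (φ + s) % 5 = 0
      · have := h.2.2 h3
        simp [h3]
        exact this.symm
      · have h4 : d i 11 ≠ 1 := fun h4 => h3 (h.2.1 h4)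
        have h5 := (hb i 11).resolve_right h4
        simp [h3]
        exact h5.symm

theorem st_ok (d : ℤ → ℤ → ℤ) (i : ℤ) : Ok 0 (st d i) := by
  have h := ok_pf d (i + 1) 0
  have e : ∀ k, pf d (i + 1) 0 k = st d i k := by
    intro k
    rw [pf_zero, show i + 1 - 1 = i by ring]
  obtain ⟨h1, h2, h3⟩ := h
  refine ⟨fun k hk => by rw [← e]; exact h1 k hk, by rw [← e]; exact h2, fun k hk hk2 => ?_⟩
  rw [← e, ← e]
  exact h3 k hk hk2

theorem Row_own (d : ℤ → ℤ → ℤ) (s φ : ℕ) (i : ℤ) (h : Row d s φ i) :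
    (st d i 9 = 1 ↔ bet s φ 9 ≠ 0) ∧ st d i 10 = bet s φ 10 := by
  have e9 : (((9 : ℕ) : ℤ) + 1) = 10 := by norm_num
  have e10 : (((10 : ℕ) : ℤ) + 1) = 11 := by norm_num
  constructor
  · rw [st_one, e9, h.1]
    unfold bet
    rw [bled, beqd, beqd, beqd]
    by_cases h3 : φ = 0 <;> simp [h3]
  · have hle := (st_ok d i).2.1
    have h1 : st d i 10 = 1 ↔ (φ + s) % 5 = 0 := by rw [st_one, e10, h.2]
    unfold bet
    rw [bled, beqd, beqd, beqd]
    by_cases h3 : (φ + s) % 5 = 0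
    · have := h1.2 h3
      simp [h3, this]
    · have : st d i 10 = 0 := by
        have : st d i 10 ≠ 1 := fun h4 => h3 (h1.1 h4)
        omega
      simp [h3, this]

theorem code_st (d : ℤ → ℤ → ℤ) (i : ℤ) : code (pf d i 11) 11 = code (st d i) 11 :=
  code_congr _ _ 11 fun k hk => pf_last d i k (by omega)

theorem code_st0 (d : ℤ → ℤ → ℤ) (i : ℤ) : code (pf d i 0) 11 = code (st d (i - 1)) 11 :=
  code_congr _ _ 11 fun k _ => pf_zero d i k

/-- One row backwards. -/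
theorem row_back (s ψ q : ℕ) (L L' : List ℕ) (hz1 : hz (vec L') = true)
    (hz2 : hz (tabG 11 + vec L') = true)
    (hc : rowk (bet s ψ) 11 (fin s q L) (vec L') = true)
    (d : ℤ → ℤ → ℤ) (hb : Bin d) (hz0 : ∀ i j, j ≤ 0 → d i j = 0) (i : ℤ)
    (hdom : ∀ j, 1 ≤ j → j ≤ 10 → 1 ≤ a d (i - 1) j) (ht : sg Gs d i = 0)
    (hr : Row d s ψ i) (hr' : Row d s q (i - 1)) (hm : code (st d i) 11 ∈ L') :
    code (st d (i - 1)) 11 ∈ L := by
  obtain ⟨Y, hY, hle⟩ := rowk_sound (bet s ψ) (fin s q L) d hb hz0 i hdom ht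
    (fun j hj => Row_bet d hb s ψ i hr j hj) 11 le_rfl (vec L') hz1 hz2 hc
  rw [code_st, code_st0] at hle
  have h1 := vec_ln L' _ hm
  have h2 := Row_own d s q (i - 1) hr'
  exact fin_sound s q L Y hY _ (st_ok d (i - 1)) h2.1 h2.2 (by omega)

theorem rowk_sound2 (β : ℕ → ℕ) (k : ℕ → Bool) (d : ℤ → ℤ → ℤ) (hb : Bin d)
    (hz0 : ∀ i j, j ≤ 0 → d i j = 0) (i : ℤ)
    (hdom : ∀ j, 1 ≤ j → j ≤ 10 → 1 ≤ a d (i - 1) j) (ht : sg Gs d i = 0)
    (hβ : ∀ j : ℕ, j ≤ 10 → β j = 2 ∨ (β j : ℤ) = d i (j + 1)) (n : ℕ) : n ≤ 11 →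
    ∀ X, hz X = true → hz (tabG n + X) = true → rowk β n k X = true →
    ∃ Y, hz Y = true ∧ k Y = true ∧ ln X (code (pf d i n) 11) ≤ ln Y (code (pf d i 0) 11) := by
  induction n with
  | zero =>
    intro _ X hX _ h
    exact ⟨X, hX, h, le_rfl⟩
  | succ n ih =>
    intro hn X hX hTX h
    have h' : force (bk n (β n) X) (fun Y => chkb n (β n) (tabG n + Y) (tabG (n + 1) + X) &&
      (hz Y && (hz (tabG n + Y) && rowk β n k Y))) = true := h
    rw [force_eq] at h'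
    simp only [Bool.and_eq_true] at h'
    obtain ⟨h1, h2, h3, h4⟩ := h'
    obtain ⟨Y, hY0, hY, hle⟩ := ih (by omega) _ h2 h3 h4
    exact ⟨Y, hY0, hY, le_trans (mark_step n (β n) _ X (by omega) h2 hX hTX h1 d hb hz0 i hdom ht
      (hβ n (by omega))) hle⟩

theorem hzUa : (hz Ua && hz (tabG 11 + Ua)) = true := by decide +kernel

/-- Three rows backwards, without knowledge. -/
theorem rows3_back (s ψ1 ψ2 ψ3 q : ℕ) (L : List ℕ)
    (hc : rowk (bet s ψ1) 11 (fun Y => hz (tabG 11 + Y) && rowk (bet s ψ2) 11 (fun Y =>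
      hz (tabG 11 + Y) && rowk (bet s ψ3) 11 (fin s q L) Y) Y) Ua = true)
    (d : ℤ → ℤ → ℤ) (hb : Bin d) (hz0 : ∀ i j, j ≤ 0 → d i j = 0) (i : ℤ)
    (hdom : ∀ l j, i - 3 ≤ l → l ≤ i → 1 ≤ j → j ≤ 10 → 1 ≤ a d l j)
    (ht : ∀ l, i - 3 ≤ l → l ≤ i → sg Gs d l = 0)
    (hr1 : Row d s ψ1 i) (hr2 : Row d s ψ2 (i - 1)) (hr3 : Row d s ψ3 (i - 2))
    (hr' : Row d s q (i - 3)) : code (st d (i - 3)) 11 ∈ L := by
  have hu := hzUa
  rw [Bool.and_eq_true] at hu
  obtain ⟨Y1, hz1, hk1, hle1⟩ := rowk_sound2 _ _ d hb hz0 i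
    (fun j h1 h2 => hdom _ j (by omega) (by omega) h1 h2) (ht _ (by omega) (by omega))
    (fun j hj => Row_bet d hb s ψ1 i hr1 j hj) 11 le_rfl Ua hu.1 hu.2 hc
  rw [Bool.and_eq_true] at hk1
  obtain ⟨Y2, hz2, hk2, hle2⟩ := rowk_sound2 _ _ d hb hz0 (i - 1)
    (fun j h1 h2 => hdom _ j (by omega) (by omega) h1 h2) (ht _ (by omega) (by omega))
    (fun j hj => Row_bet d hb s ψ2 (i - 1) hr2 j hj) 11 le_rfl Y1 hz1 hk1.1 hk1.2
  rw [Bool.and_eq_true] at hk2
  obtain ⟨Y3, hz3, hk3, hle3⟩ := rowk_sound2 _ _ d hb hz0 (i - 2)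
    (fun j h1 h2 => hdom _ j (by omega) (by omega) h1 h2) (ht _ (by omega) (by omega))
    (fun j hj => Row_bet d hb s ψ3 (i - 2) hr3 j hj) 11 le_rfl Y2 hz2 hk2.1 hk2.2
  rw [code_st, code_st0] at hle1 hle2 hle3
  rw [show i - 1 - 1 = i - 2 by ring] at hle2
  rw [show i - 2 - 1 = i - 3 by ring] at hle3
  have h0 : ln Ua (code (st d i) 11) = 1 := Ua_ln _ (code_lt _ 11 fun k hk => st_le _ _ _)
  have h2 := Row_own d s q (i - 3) hr'
  exact fin_sound s q L Y3 hk3 _ (st_ok d (i - 3)) h2.1 h2.2 (by omega)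

end Ex

end PatGap
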