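import Pool.Agent.H.MP_b28609_co.Gap.Ex.StmtL
import Pool.Agent.H.MP_b28609_co.GenG
import Pool.Agent.H.MP_b28609_co.Iso
import Pool.Agent.H.MP_b28609_co.Gap.Upper

/-!
# MP_b28609_co, exact theorem, lower bound: assembly
-/

set_option autoImplicit false

namespace PatGap

open PatDom

/-- The case in which all guards of the middle move to the next row. -/
theorem exGd (hS : ExSideStmt) (hL : ExStripStmt) (hD : ExDomStmt) (hN : ExCntStmt)
    (m n : ℤ) (d d' : ℤ → ℤ → ℤ) (f : ℤ × ℤ → ℤ × ℤ) (r s c : ℤ) (hd : DomG m n d)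
    (hd' : DomG m n d') (hf : Mv d d' f) (hn : 60 ≤ n) (hr : 10 ≤ r) (hrm : r + 250 ≤ m)
    (h1 : Clean2 n d r) (h2 : Clean2 n d' r) (hg : Gd n d d' f s c r) :
    ∃ e, DomG (m + 1) n e ∧ tot (m + 1) n e ≤ tot m n d + 2 := by
  obtain ⟨k1, c2, k2⟩ := hS m n d d' f r s c hd hd' hf hn hr hrm h1 h2 hg
  obtain ⟨bL, l1, l2, l3⟩ := hL _ _ _ _ _ _ k1
  obtain ⟨bR, r1, r2, r3⟩ := hL _ _ _ _ _ _ k2
  exact ⟨gl n bL bR d d',
    hD m n d d' f r s c bL bR hd hd' hf hn hr hrm hg (by omega) (by omega) (by omega) (by omega)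
      l3 r3,
    hN m n d d' f r s c bL bR hd hd' hf hn hr hrm hg (by omega) (by omega) (by omega) (by omega)
      l3 r3⟩

/-- Long grids: two more guards dominate one more row. -/
theorem exFin (hC : ExCleanStmt) (hB : ExBandStmt) (hI : MvInvStmt) (hS : ExSideStmt)
    (hL : ExStripStmt) (hD : ExDomStmt) (hN : ExCntStmt)
    (m n : ℤ) (d d' : ℤ → ℤ → ℤ) (f : ℤ × ℤ → ℤ × ℤ) (hn : 60 ≤ n)
    (hmn : 480 * n + 122180 ≤ m) (hd : DomG m n d) (hd' : DomG m n d') (hf : Mv d d' f)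
    (ht : tot m n d = tot m n d') (hu : 5 * tot m n d ≤ (m + 3) * (n + 2)) :
    ∃ e, DomG (m + 1) n e ∧ tot (m + 1) n e ≤ tot m n d + 2 := by
  obtain ⟨r, hr, hrm, h1, h2⟩ := hC m n d d' hn hmn hd hd' ht hu
  rcases hB m n d d' f r hd hd' hf hn hr hrm h1 h2 with ⟨s, c, hg⟩ | h
  · exact exGd hS hL hD hN m n d d' f r s c hd hd' hf hn hr hrm h1 h2 hg
  · obtain ⟨g, hgm, -, -⟩ := hI d d' f hf
    obtain ⟨s, c, hg⟩ := h g hgm
    rw [ht]
    exact exGd hS hL hD hN m n d' d g r s c hd' hd hgm hn hr hrm h2 h1 hg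

/-- The lower bound for long grids. -/
theorem exLow (hC : ExCleanStmt) (hB : ExBandStmt) (hI : MvInvStmt) (hS : ExSideStmt)
    (hL : ExStripStmt) (hD : ExDomStmt) (hN : ExCntStmt) (hK : ExBackStmt)
    (m n : ℕ) (hm : 60 ≤ m) (hn : 480 * m + 122180 ≤ n) :
    dnum (grid m (n + 1)) ≤ pnum (grid m n) + 2 := by
  classical
  obtain ⟨⟨D, hD1, hDc⟩, -, -⟩ := gen_main (SimpleGraph.pathGraph n) m (by omega)
  change Patrol (grid n m) D at hD1
  change D.card = pnum (grid n m) at hDc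
  obtain ⟨-, -, h2⟩ := gen_main (SimpleGraph.pathGraph m) n (by omega)
  change pnum (grid m n) ≤ dnum (grid m (n + 1)) at h2
  rw [pnum_comm m n] at h2 ⊢
  rw [dnum_comm m (n + 1)]
  have h3 := dnum_grid_le m (n + 1) (by omega) (by omega)
  obtain ⟨hdom, D', hdom', φ, hφ⟩ := hD1
  obtain ⟨f, hf⟩ := ind_mv D D' φ hφ
  have hcard : D.card = D'.card := by
    have := Fintype.card_congr φ
    rwa [Fintype.card_coe, Fintype.card_coe] at this
  have htot : tot n m (ind D) = tot n m (ind D') := by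
    rw [ind_tot, ind_tot, hcard]
  have h4 : 5 * tot (n : ℤ) m (ind D) ≤ ((n : ℤ) + 3) * (m + 2) := by
    rw [ind_tot, hDc]
    have h5 : 5 * pnum (grid n m) ≤ (m + 2) * (n + 1 + 2) := by omega
    have h6 : (5 : ℤ) * pnum (grid n m) ≤ (m + 2) * (n + 1 + 2) := by exact_mod_cast h5
    linarith
  obtain ⟨e, he, hte⟩ := exFin hC hB hI hS hL hD hN n m (ind D) (ind D') f (by exact_mod_cast hm)
    (by exact_mod_cast hn) (ind_dom D hdom) (ind_dom D' hdom') hf htot h4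
  have he' : DomG ((n + 1 : ℕ) : ℤ) (m : ℤ) e := by
    rw [Nat.cast_succ]
    exact he
  obtain ⟨E, hE, hEc⟩ := hK (n + 1) m e he'
  have h7 := dnum_le (grid (n + 1) m) E hE
  rw [Nat.cast_succ] at hEc
  rw [ind_tot, hDc, ← hEc] at hte
  have h8 : E.card ≤ pnum (grid n m) + 2 := by exact_mod_cast hte
  omega

end PatGap
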