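import Pool.Agent.H.MP_b28609_co.Gap.Ex.Gs

/-!
# MP_b28609_co, exact theorem: profiles with a long tight future
-/

set_option autoImplicit false
set_option maxRecDepth 100000

namespace PatGap

open Side

namespace Ex

/-- Tables with layer 11. -/
def tabG (j : ℕ) : ℕ := if j = 11 then tab11 else tabF j

theorem tabG_11 : tabG 11 = tab11 := by
  unfold tabG
  rw [if_pos rfl]

theorem tabG_lt (j : ℕ) (hj : j ≤ 10) : tabG j = tabF j := by
  unfold tabG
  rw [if_neg (by omega)]

theorem hz_tabF (j : ℕ) (hj : j ≤ 10) : hz (tabF j) = true := by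
  rcases Nat.eq_zero_or_pos j with rfl | h
  · rw [tabF_0]
    exact h0
  · have := (tabF_ok (j - 1) (by omega)).2
    rwa [show j - 1 + 1 = j by omega] at this

theorem hz_tabG (j : ℕ) (hj : j ≤ 11) : hz (tabG j) = true := by
  rcases Nat.lt_or_ge j 11 with h | h
  · rw [tabG_lt j (by omega)]
    exact hz_tabF j (by omega)
  · have : j = 11 := by omega
    subst this
    rw [tabG_11]
    exact h11

theorem tabG_T (j : ℕ) (hj : j ≤ 11) (p : ℕ → ℕ) (hp : ∀ k, k < 11 → p k ≤ 2) :
    (ln (tabG j) (code p 11) : ℤ) = Side.T j p := by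
  rcases Nat.lt_or_ge j 11 with h | h
  · rw [tabG_lt j (by omega), T_lt j (by omega)]
  · have : j = 11 := by omega
    subst this
    rw [tabG_11, T_11, ln11 _ (code_lt p 11 hp)]
    push_cast
    ring

/-- Check of one transition, for tables `A`, `B`. -/
def ckt (j A B : ℕ) (t : ℕ × ℕ × ℕ × ℕ × ℕ) : Bool :=
  ckU A B (mk (sp j t.1 t.2.1) 11) t.2.2.1 t.2.2.2.1 t.2.2.2.2

/-- Check of the transitions with bit `β` (`2`: both bits). -/
def chkb (j β A B : ℕ) : Bool :=
  (trs j).all fun t => (cond (Nat.beq t.2.2.2.2 0) (Nat.beq β 1) (Nat.beq β 0)) || ckt j A B t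

theorem tr_use' (j A B x Y su sd c : ℕ) (hc : c ≤ 100) (hck : ckt j A B (x, Y, su, sd, c) = true)
    (p q : ℕ → ℕ) (hp : Ok j p) (hx : p j = x)
    (hY : 1 ≤ j → (Y >>> p (j - 1)) % 2 = 1) (hB : ln B (code q 11) ≤ 127)
    (e : code q 11 + sd = code p 11 + su) : ln B (code q 11) ≤ ln A (code p 11) + c := by
  refine ckU_sound A B _ su sd c hc hck (mk_ln_le _ 11) (code p 11) (code q 11)
    (code_lt p 11 fun k hk => hp.1 k (by omega)) (mk_code _ p 11 ?_) hB e
  intro k hk
  refine ⟨hp.1 k (by omega), ?_⟩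
  show sp j x Y k (p k) = true
  unfold sp
  rw [beqd, beqd, beqd, beqd, beqd, bled]
  by_cases h2 : k = j
  · subst h2
    simp [hx]
  · by_cases h3 : k + 1 = j
    · have h4 := hY (by omega)
      rw [← h3, show k + 1 - 1 = k by omega] at h4
      simp [h2, h3, h4]
    · by_cases h5 : k = 10
      · subst h5
        have := hp.2.1
        simp [h2, h3, this]
      · simp [h2, h3, h5]

theorem st0' (j A B : ℕ) (hj : j ≤ 10)
    (hchk : ∀ x Y su sd, (x, Y, su, sd, 0) ∈ trs j → ckt j A B (x, Y, su, sd, 0) = true) (p : ℕ → ℕ)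
    (hB : ln B (code (up0 j p) 11) ≤ 127)
    (hp : Ok j p) (h2 : j ≤ 9 → p j ≠ 2) : ln B (code (up0 j p) 11) ≤ ln A (code p 11) + 0 := by
  have hc := up0_code j hj p
  have hx2 := hp.1 j hj
  have hy2 := hp.1 (j - 1) (by omega)
  have hx : p j = 0 ∨ p j = 1 := by
    rcases Nat.lt_or_ge j 10 with h | h
    · have := h2 (by omega)
      omega
    · have e : j = 10 := by omega
      have := hp.2.1
      rw [e]
      omega
  have hY7 : 1 ≤ j → (7 >>> p (j - 1)) % 2 = 1 := by
    intro _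
    have h3 : p (j - 1) = 0 ∨ p (j - 1) = 1 ∨ p (j - 1) = 2 := by omega
    rcases h3 with h3 | h3 | h3 <;> rw [h3] <;> rfl
  rcases hx with hx | hx
  · rw [hx, zero_mul, add_zero] at hc
    by_cases h10 : j = 10
    · rw [if_pos (Or.inl h10)] at hc
      have hm : (0, 7, 0, 0, 0) ∈ trs j := by
        rw [h10, trs_ten]
        simp only [List.mem_cons, true_or, or_true]
      exact tr_use' j A B 0 7 0 0 0 (by omega) (hchk _ _ _ _ hm) p _ hp hx hY7 hB (by omega)
    · by_cases hj0 : j = 0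
      · rw [if_neg (by omega)] at hc
        have hm : (0, 7, 2, 0, 0) ∈ trs j := by
          rw [hj0, trs_zero]
          simp only [List.mem_cons, true_or, or_true]
        refine tr_use' j A B 0 7 2 0 0 (by omega) (hchk _ _ _ _ hm) p _ hp hx hY7 hB ?_
        have e1 : 3 ^ j = 1 := by rw [hj0, pow_zero]
        rw [e1] at hc
        omega
      · have hmid := trs_mid j hj0 hj h10
        by_cases hy : p (j - 1) = 1
        · rw [if_pos (Or.inr (Or.inr ⟨by omega, hy⟩))] at hc
          have hm : (0, 2, 0, 0, 0) ∈ trs j := by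
            rw [hmid]
            simp only [List.mem_cons, true_or, or_true]
          exact tr_use' j A B 0 2 0 0 0 (by omega) (hchk _ _ _ _ hm) p _ hp hx
            (fun _ => by rw [hy]; rfl) hB (by omega)
        · rw [if_neg (by omega)] at hc
          have hm : (0, 5, 2 * 3 ^ j, 0, 0) ∈ trs j := by
            rw [hmid]
            simp only [List.mem_cons, true_or, or_true]
          refine tr_use' j A B 0 5 (2 * 3 ^ j) 0 0 (by omega) (hchk _ _ _ _ hm) p _ hp hx
            (fun _ => ?_) hB (by omega)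
          have h3 : p (j - 1) = 0 ∨ p (j - 1) = 2 := by omega
          rcases h3 with h3 | h3 <;> rw [h3] <;> rfl
  · rw [hx, if_pos (Or.inr (Or.inl rfl)), one_mul, zero_mul] at hc
    have hm : (1, 7, 0, 3 ^ j, 0) ∈ trs j := by
      by_cases h0 : j = 0
      · rw [h0, trs_zero]
        exact List.mem_cons_self
      · by_cases h10 : j = 10
        · rw [h10, trs_ten]
          exact List.mem_cons_self
        · rw [trs_mid j h0 hj h10]
          exact List.mem_cons_self
    exact tr_use' j A B 1 7 0 (3 ^ j) 0 (by omega) (hchk _ _ _ _ hm) p _ hp hx hY7 hB hc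

theorem st1' (j A B : ℕ) (hj : j ≤ 10)
    (hchk : ∀ x Y su sd, (x, Y, su, sd, cn j) ∈ trs j → ckt j A B (x, Y, su, sd, cn j) = true)
    (p : ℕ → ℕ) (hB : ln B (code (up1 j p) 11) ≤ 127)
    (hp : Ok j p) : ln B (code (up1 j p) 11) ≤ ln A (code p 11) + cn j := by
  have hx2 := hp.1 j hj
  have hy2 := hp.1 (j - 1) (by omega)
  have hcn : cn j ≤ 100 := by
    unfold cn
    split_ifs <;> omega
  have hx10 : p j = 2 → ¬ j = 10 := by
    rintro h rfl
    have := hp.2.1
    omega
  have hx3 : p j = 0 ∨ p j = 1 ∨ p j = 2 := by omega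
  by_cases hj0 : j = 0
  · have hc := up1_code j hj p (by omega)
    have hz : cn j = 5 := by rw [hj0]; rfl
    rw [hz] at hchk ⊢
    have hY : ∀ Y, 1 ≤ j → (Y >>> p (j - 1)) % 2 = 1 := fun _ h => by omega
    have e1 : 3 ^ j = 1 := by rw [hj0, pow_zero]
    rw [e1] at hc
    rcases hx3 with hx | hx | hx
    · rw [hx] at hc
      have hm : (0, 7, 1, 0, 5) ∈ trs j := by
        rw [hj0, trs_zero]
        simp only [List.mem_cons, true_or, or_true]
      exact tr_use' j A B 0 7 1 0 5 (by omega) (hchk _ _ _ _ hm) p _ hp hx (hY 7) hB (by omega)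
    · rw [hx] at hc
      have hm : (1, 7, 0, 0, 5) ∈ trs j := by
        rw [hj0, trs_zero]
        simp only [List.mem_cons, true_or, or_true]
      exact tr_use' j A B 1 7 0 0 5 (by omega) (hchk _ _ _ _ hm) p _ hp hx (hY 7) hB (by omega)
    · rw [hx] at hc
      have hm : (2, 7, 0, 1, 5) ∈ trs j := by
        rw [hj0, trs_zero]
        simp only [List.mem_cons, true_or, or_true]
      exact tr_use' j A B 2 7 0 1 5 (by omega) (hchk _ _ _ _ hm) p _ hp hx (hY 7) hB (by omega)
  · obtain ⟨⟨m1, m2, m3, m4⟩, m5⟩ := mem1 j hj hj0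
    by_cases hy : p (j - 1) = 2
    · have hc := up1_code2 j hj (by omega) p hy
      have hY : 1 ≤ j → (4 >>> p (j - 1)) % 2 = 1 := fun _ => by
        rw [hy]
        rfl
      rcases hx3 with hx | hx | hx
      · rw [hx] at hc
        exact tr_use' j A B 0 4 (3 ^ j) (2 * 3 ^ (j - 1)) (cn j) hcn (hchk _ _ _ _ m3) p _ hp hx hY hB
          (by omega)
      · rw [hx] at hc
        exact tr_use' j A B 1 4 0 (2 * 3 ^ (j - 1)) (cn j) hcn (hchk _ _ _ _ m4) p _ hp hx hY hB
          (by omega)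
      · rw [hx] at hc
        exact tr_use' j A B 2 4 0 (3 ^ j + 2 * 3 ^ (j - 1)) (cn j) hcn
          (hchk _ _ _ _ (m5 (hx10 hx)).2) p _ hp hx hY hB (by omega)
    · have hc := up1_code j hj p (fun _ => hy)
      have hY : 1 ≤ j → (3 >>> p (j - 1)) % 2 = 1 := fun _ => by
        have h3 : p (j - 1) = 0 ∨ p (j - 1) = 1 := by omega
        rcases h3 with h3 | h3 <;> rw [h3] <;> rfl
      rcases hx3 with hx | hx | hx
      · rw [hx] at hc
        exact tr_use' j A B 0 3 (3 ^ j) 0 (cn j) hcn (hchk _ _ _ _ m1) p _ hp hx hY hB (by omega)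
      · rw [hx] at hc
        exact tr_use' j A B 1 3 0 0 (cn j) hcn (hchk _ _ _ _ m2) p _ hp hx hY hB (by omega)
      · rw [hx] at hc
        exact tr_use' j A B 2 3 0 (3 ^ j) (cn j) hcn (hchk _ _ _ _ (m5 (hx10 hx)).1) p _ hp hx hY hB
          (by omega)

/-- One cell: the mark `X` does not increase. -/
theorem mark_step (j β XA XB : ℕ) (hj : j ≤ 10) (hA : hz XA = true) (hB : hz XB = true)
    (hTB : hz (tabG (j + 1) + XB) = true)
    (hchk : chkb j β (tabG j + XA) (tabG (j + 1) + XB) = true)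
    (d : ℤ → ℤ → ℤ) (hb : Bin d) (hz0 : ∀ i j, j ≤ 0 → d i j = 0) (i : ℤ)
    (hdom : ∀ j, 1 ≤ j → j ≤ 10 → 1 ≤ a d (i - 1) j) (ht : sg Gs d i = 0)
    (hβ : β = 2 ∨ (β : ℤ) = d i (j + 1)) :
    ln XB (code (pf d i (j + 1)) 11) ≤ ln XA (code (pf d i j) 11) := by
  have htight := tight_step d hb hz0 i hdom ht j hj
  have hOk := ok_pf d i j
  have hOk' := ok_pf d i (j + 1)
  have hlt : code (pf d i j) 11 < 3 ^ 11 := code_lt _ 11 fun k hk => hOk.1 k (by omega)
  have hlt' : code (pf d i (j + 1)) 11 < 3 ^ 11 := code_lt _ 11 fun k hk => hOk'.1 k (by omega)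
  have e1 : ln (tabG j + XA) (code (pf d i j) 11) =
      ln (tabG j) (code (pf d i j) 11) + ln XA (code (pf d i j) 11) :=
    ln_add _ _ _ fun k hk => by
      have := hz_sound _ (hz_tabG j (by omega)) k (by omega)
      have := hz_sound _ hA k (by omega)
      omega
  have e2 : ln (tabG (j + 1) + XB) (code (pf d i (j + 1)) 11) =
      ln (tabG (j + 1)) (code (pf d i (j + 1)) 11) + ln XB (code (pf d i (j + 1)) 11) :=
    ln_add _ _ _ fun k hk => by
      have := hz_sound _ (hz_tabG (j + 1) (by omega)) k (by omega)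
      have := hz_sound _ hB k (by omega)
      omega
  have t1 := tabG_T j (by omega) (pf d i j) fun k hk => hOk.1 k (by omega)
  have t2 := tabG_T (j + 1) (by omega) (pf d i (j + 1)) fun k hk => hOk'.1 k (by omega)
  have hle := hz_sound _ hTB _ hlt'
  have hall := List.all_eq_true.mp hchk
  rcases hb i (j + 1) with h0 | h1
  · have hne : d i (j + 1) ≠ 1 := by omega
    have ec : code (pf d i (j + 1)) 11 = code (up0 j (pf d i j)) 11 :=
      code_congr _ _ 11 fun k hk => pf_up0 d hz0 i j hne k (by omega)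
    have h2 : j ≤ 9 → pf d i j j ≠ 2 := by
      intro hj9 h2
      unfold pf at h2
      rw [if_neg (by omega), st_two] at h2
      obtain ⟨h3, -, h4, h5, h6⟩ := h2
      have ha := hdom (j + 1) (by omega) (by omega)
      unfold a at ha
      have e1 : d (i - 1) (j + 1) = 0 := (hb _ _).resolve_right h3
      have e2 : d (i - 1) j = 0 := (hb _ _).resolve_right h4
      have e3 : d (i - 1) (j + 2) = 0 := (hb _ _).resolve_right h5
      have e4 : d (i - 1 - 1) (j + 1) = 0 := (hb _ _).resolve_right h6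
      have e5 : (i - 1 + 1) = i := by ring
      have e6 : ((j : ℤ) + 1 - 1) = j := by ring
      have e7 : ((j : ℤ) + 1 + 1) = j + 2 := by ring
      rw [e5, e6, e7, e1, e2, e3, e4, h0] at ha
      omega
    rw [ec] at e2 t2 hle ⊢
    have h3 := st0' j _ _ hj (fun x Y su sd hm => by
      have h4 := hall _ hm
      rw [Bool.or_eq_true] at h4
      rcases h4 with h4 | h4
      · exfalso
        rw [beqd, beqd] at h4
        simp only [decide_true, cond_true, decide_eq_true_eq] at h4
        rw [h4, h0] at hβ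
        rcases hβ with hβ | hβ
        · omega
        · norm_num at hβ
      · exact h4) _ hle hOk h2
    rw [ec] at *
    rw [h0, mul_zero, add_zero] at htight
    have e3 : Side.T (j + 1) (pf d i (j + 1)) = Side.T (j + 1) (up0 j (pf d i j)) :=
      tabProp.ext _ _ _ (fun k hk => pf_up0 d hz0 i j hne k hk)
    rw [e3] at htight
    omega
  · have ec : code (pf d i (j + 1)) 11 = code (up1 j (pf d i j)) 11 :=
      code_congr _ _ 11 fun k hk => pf_up1 d i j h1 k
    have hcn : 1 ≤ cn j := by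
      unfold cn
      split_ifs <;> omega
    rw [ec] at e2 t2 hle ⊢
    have h3 := st1' j _ _ hj (fun x Y su sd hm => by
      have h4 := hall _ hm
      rw [Bool.or_eq_true] at h4
      rcases h4 with h4 | h4
      · exfalso
        rw [beqd, beqd, beqd] at h4
        have h5 : ¬ (cn j = 0) := by omega
        simp only [h5, decide_false, cond_false, decide_eq_true_eq] at h4
        rw [h4, h1] at hβ
        rcases hβ with hβ | hβ
        · omega
        · norm_num at hβ
      · exact h4) _ hle hOk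
    rw [h1, mul_one, cw_cn] at htight
    have e3 : Side.T (j + 1) (pf d i (j + 1)) = Side.T (j + 1) (up1 j (pf d i j)) :=
      tabProp.ext _ _ _ (fun k _ => pf_up1 d i j h1 k)
    rw [e3] at htight
    omega

/-- Evaluate `x` first. -/
def force (x : ℕ) (k : ℕ → Bool) : Bool :=
  Nat.rec (motive := fun _ => Bool) (k 0) (fun n _ => k (n + 1)) x

theorem force_eq (x : ℕ) (k : ℕ → Bool) : force x k = k x := by
  cases x <;> rfl

/-- Bytes of the sources of tight transitions to marked bytes, contribution of one transition. -/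
def bkt (j TA TB X : ℕ) (t : ℕ × ℕ × ℕ × ℕ × ℕ) : ℕ :=
  (fun U : ℕ => (U ^^^ ((((((TA &&& (127 * U)) + t.2.2.2.2 * U) -
    (((TB <<< (8 * t.2.2.2.1)) >>> (8 * t.2.2.1)) &&& (127 * U))) + 127 * U) >>> 7) &&& U)) &&&
      ((X <<< (8 * t.2.2.2.1)) >>> (8 * t.2.2.1))) (mk (sp j t.1 t.2.1) 11)

/-- Marks one layer before. -/
def bk (j β X : ℕ) : ℕ :=
  (trs j).foldr (fun t V => cond (cond (Nat.beq t.2.2.2.2 0) (Nat.beq β 1) (Nat.beq β 0)) V
    (bkt j (tabG j) (tabG (j + 1)) X t ||| V)) 0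

/-- Marks and checks for the layers `n, ..., 0` of one row, then `k`. -/
def rowk (β : ℕ → ℕ) (n : ℕ) (k : ℕ → Bool) (X : ℕ) : Bool :=
  Nat.rec (motive := fun _ => ℕ → Bool) k
    (fun n ih X => force (bk n (β n) X) fun Y =>
      chkb n (β n) (tabG n + Y) (tabG (n + 1) + X) && (hz Y && (hz (tabG n + Y) && ih Y))) n X

theorem rowk_sound (β : ℕ → ℕ) (k : ℕ → Bool) (d : ℤ → ℤ → ℤ) (hb : Bin d)
    (hz0 : ∀ i j, j ≤ 0 → d i j = 0) (i : ℤ)
    (hdom : ∀ j, 1 ≤ j → j ≤ 10 → 1 ≤ a d (i - 1) j) (ht : sg Gs d i = 0)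
    (hβ : ∀ j : ℕ, j ≤ 10 → β j = 2 ∨ (β j : ℤ) = d i (j + 1)) (n : ℕ) : n ≤ 11 →
    ∀ X, hz X = true → hz (tabG n + X) = true → rowk β n k X = true →
    ∃ Y, k Y = true ∧ ln X (code (pf d i n) 11) ≤ ln Y (code (pf d i 0) 11) := by
  induction n with
  | zero =>
    intro _ X _ _ h
    exact ⟨X, h, le_rfl⟩
  | succ n ih =>
    intro hn X hX hTX h
    have h' : force (bk n (β n) X) (fun Y => chkb n (β n) (tabG n + Y) (tabG (n + 1) + X) &&
      (hz Y && (hz (tabG n + Y) && rowk β n k Y))) = true := h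
    rw [force_eq] at h'
    simp only [Bool.and_eq_true] at h'
    obtain ⟨h1, h2, h3, h4⟩ := h'
    obtain ⟨Y, hY, hle⟩ := ih (by omega) _ h2 h3 h4
    exact ⟨Y, hY, le_trans (mark_step n (β n) _ X (by omega) h2 hX hTX h1 d hb hz0 i hdom ht
      (hβ n (by omega))) hle⟩

/-- The bits of the row of phase `φ` (slope `s`): known for the cells 9 and 10. -/
def bet (s φ : ℕ) (j : ℕ) : ℕ :=
  cond (Nat.ble j 8) 2 (cond (Nat.beq j 9) (cond (Nat.beq φ 0) 1 0)
    (cond (Nat.beq ((φ + s) % 5) 0) 1 0))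

/-- Marks of a list. -/
def vec (L : List ℕ) : ℕ := L.foldr (fun x V => V ||| 2 ^ (8 * x)) 0

/-- No conflict in the cells `k`, `k + 1`. -/
def nc (k x y : ℕ) : ℕ :=
  Ua ^^^ mk (fun t v => cond (Nat.beq t k) (Nat.beq v x) (cond (Nat.beq t (k + 1)) (Nat.beq v y) true)) 11

/-- Admissible profiles of a row of phase `φ`. -/
def okm (s φ : ℕ) : ℕ :=
  (List.range 10).foldr (fun k V => V &&& (nc k 1 2 &&& nc k 2 1))
    (mk (fun t v => cond (Nat.beq t 9) (Bool.xor (Nat.beq v 1) (Nat.beq (bet s φ 9) 0))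
      (cond (Nat.beq t 10) (Nat.beq v (bet s φ 10)) true)) 11)

/-- All marks are in the list. -/
def fin (s φ : ℕ) (L : List ℕ) (Y : ℕ) : Bool :=
  Nat.beq (Y &&& (254 * Ua)) 0 && Nat.beq ((Y &&& okm s φ) &&& vec L) (Y &&& okm s φ)

end Ex

end PatGap
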