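import Pool.Agent.H.MP_b28609_co.Gap.Ex.StmtL

/-!
# MP_b28609_co, exact theorem: module ExAsm

Five times the number of guards is the sum of `a d i j` over the rectangle `[0, m + 1] × [0, n + 1]`,
which is cut into four corners, four side areas and the middle.
-/

set_option autoImplicit false

noncomputable section

namespace PatGap

open Finset

private theorem asm_shift (g : ℤ → ℤ) (x y s : ℤ) :
    ∑ i ∈ Icc x y, g (i + s) = ∑ i ∈ Icc (x + s) (y + s), g i := by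
  rw [← Finset.map_add_right_Icc, sum_map]
  rfl

private theorem asm_one (g : ℤ → ℤ) (m s : ℤ) (h1 : -1 ≤ s) (h2 : s ≤ 1)
    (hg : ∀ i, ¬ (1 ≤ i ∧ i ≤ m) → g i = 0) :
    ∑ i ∈ Icc 0 (m + 1), g (i + s) = ∑ i ∈ Icc 1 m, g i := by
  rw [asm_shift]
  symm
  refine sum_subset (Icc_subset_Icc (by omega) (by omega)) fun i _ hi => hg i ?_
  rw [mem_Icc] at hi
  exact hi

private theorem asm_two (m n : ℤ) (d : ℤ → ℤ → ℤ)
    (hd : ∀ i j, ¬ (1 ≤ i ∧ i ≤ m ∧ 1 ≤ j ∧ j ≤ n) → d i j = 0) (s t : ℤ)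
    (h1 : -1 ≤ s) (h2 : s ≤ 1) (h3 : -1 ≤ t) (h4 : t ≤ 1) :
    ∑ i ∈ Icc 0 (m + 1), ∑ j ∈ Icc 0 (n + 1), d (i + s) (j + t) = tot m n d := by
  have h5 : ∀ i, ∑ j ∈ Icc 0 (n + 1), d (i + s) (j + t) = ∑ j ∈ Icc 1 n, d (i + s) j := by
    intro i
    refine asm_one (fun j => d (i + s) j) n t h3 h4 fun j hj => hd _ _ ?_
    tauto
  have h6 := asm_one (fun i => ∑ j ∈ Icc 1 n, d i j) m s h1 h2 (by
    intro i hi
    refine sum_eq_zero fun j _ => hd i j ?_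
    tauto)
  rw [tot, ← h6]
  exact sum_congr rfl fun i _ => h5 i

private theorem asm_tot (m n : ℤ) (d : ℤ → ℤ → ℤ)
    (hd : ∀ i j, ¬ (1 ≤ i ∧ i ≤ m ∧ 1 ≤ j ∧ j ≤ n) → d i j = 0) :
    ∑ i ∈ Icc 0 (m + 1), ∑ j ∈ Icc 0 (n + 1), a d i j = 5 * tot m n d := by
  have h0 := asm_two m n d hd 0 0 (by omega) (by omega) (by omega) (by omega)
  have h1 := asm_two m n d hd (-1) 0 (by omega) (by omega) (by omega) (by omega)
  have h2 := asm_two m n d hd 1 0 (by omega) (by omega) (by omega) (by omega)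
  have h3 := asm_two m n d hd 0 (-1) (by omega) (by omega) (by omega) (by omega)
  have h4 := asm_two m n d hd 0 1 (by omega) (by omega) (by omega) (by omega)
  simp only [add_zero, ← sub_eq_add_neg] at h0 h1 h2 h3 h4
  have h5 : ∑ i ∈ Icc 0 (m + 1), ∑ j ∈ Icc 0 (n + 1), a d i j =
      (∑ i ∈ Icc 0 (m + 1), ∑ j ∈ Icc 0 (n + 1), d i j) +
      (∑ i ∈ Icc 0 (m + 1), ∑ j ∈ Icc 0 (n + 1), d (i - 1) j) +
      (∑ i ∈ Icc 0 (m + 1), ∑ j ∈ Icc 0 (n + 1), d (i + 1) j) +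
      (∑ i ∈ Icc 0 (m + 1), ∑ j ∈ Icc 0 (n + 1), d i (j - 1)) +
      (∑ i ∈ Icc 0 (m + 1), ∑ j ∈ Icc 0 (n + 1), d i (j + 1)) := by
    simp only [a, sum_add_distrib]
  rw [h5, h0, h1, h2, h3, h4]
  ring

private theorem asm_succ (f : ℤ → ℤ) (x y : ℤ) (h : x - 1 ≤ y) :
    ∑ i ∈ Icc x (y + 1), f i = f (y + 1) + ∑ i ∈ Icc x y, f i := by
  have h1 : Icc x (y + 1) = insert (y + 1) (Icc x y) := by
    ext i
    rw [mem_insert, mem_Icc, mem_Icc]
    omega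
  rw [h1, sum_insert]
  rw [mem_Icc]
  omega

private theorem asm_tel (f : ℤ → ℤ) (x y : ℤ) (h : x - 1 ≤ y) :
    ∑ i ∈ Icc x y, (f i - f (i - 1)) = f y - f (x - 1) := by
  induction y, h using Int.leInduction with
  | base => rw [Icc_eq_empty (by omega), sum_empty, sub_self]
  | succ y hy ih =>
    rw [asm_succ _ _ _ hy, ih, add_sub_cancel_right]
    ring

private theorem asm_tel' (f : ℤ → ℤ) (x y : ℤ) (h : x - 1 ≤ y) :
    ∑ i ∈ Icc x y, (f (i + 1) - f i) = f (y + 1) - f x := by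
  have h1 := asm_tel (fun i => f (i + 1)) x y h
  simp only [sub_add_cancel] at h1
  exact h1

private theorem asm_const (x y c : ℤ) (h : x - 1 ≤ y) : ∑ _i ∈ Icc x y, c = (y + 1 - x) * c := by
  rw [sum_const, Int.card_Icc, nsmul_eq_mul, Int.toNat_of_nonneg (by omega)]

/-- Number of guards in the columns `1, ..., 10` of the row `i`. -/
private def asmV (d : ℤ → ℤ → ℤ) (i : ℤ) : ℤ := ∑ j ∈ Icc (1 : ℤ) 10, d i j

private theorem asm_V (d : ℤ → ℤ → ℤ) (hb : Bin d) (i : ℤ) : 0 ≤ asmV d i ∧ asmV d i ≤ 10 := by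
  constructor
  · refine sum_nonneg fun j _ => ?_
    rcases hb i j with h | h <;> omega
  · have h1 : asmV d i ≤ ∑ _j ∈ Icc (1 : ℤ) 10, 1 := sum_le_sum fun j _ => by
      rcases hb i j with h | h <;> omega
    rw [asm_const _ _ _ (by omega)] at h1
    omega

private theorem asm_row (d : ℤ → ℤ → ℤ) (h0 : ∀ i j, j ≤ 0 → d i j = 0) (i : ℤ) :
    ∑ j ∈ Icc (0 : ℤ) 10, a d i j =
      cwid d 10 i + (asmV d (i + 1) - asmV d i) - (asmV d i - asmV d (i - 1)) := by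
  have e1 : Icc (0 : ℤ) 10 = {0, 1, 2, 3, 4, 5, 6, 7, 8, 9, 10} := rfl
  have e2 : Icc (1 : ℤ) 10 = {1, 2, 3, 4, 5, 6, 7, 8, 9, 10} := rfl
  have e3 : Icc (1 : ℤ) (10 - 1) = {1, 2, 3, 4, 5, 6, 7, 8, 9} := rfl
  have z0 := h0 i 0 (by omega)
  have z1 := h0 (i - 1) 0 (by omega)
  have z2 := h0 (i + 1) 0 (by omega)
  have z3 := h0 i (-1) (by omega)
  rw [cwid, asmV, asmV, asmV, e1, e2, e3]
  simp only [a]
  simp [z0, z1, z2, z3]
  ring

private theorem asm_left (G : (ℤ → ℤ → ℤ) → ℤ → ℤ) (hG : SideProp G) (m : ℤ) (d : ℤ → ℤ → ℤ)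
    (hm : 30 ≤ m) (hb : Bin d) (h0 : ∀ i j, j ≤ 0 → d i j = 0) :
    11 * (m - 20) + ∑ i ∈ Icc (11 : ℤ) (m - 10), sg G d i - 42 ≤
      ∑ i ∈ Icc (11 : ℤ) (m - 10), ∑ j ∈ Icc (0 : ℤ) 10, a d i j := by
  have h1 : ∑ i ∈ Icc (11 : ℤ) (m - 10), ∑ j ∈ Icc (0 : ℤ) 10, a d i j =
      ∑ i ∈ Icc (11 : ℤ) (m - 10), sg G d i + ∑ _i ∈ Icc (11 : ℤ) (m - 10), (11 : ℤ) +
        ∑ i ∈ Icc (11 : ℤ) (m - 10), (G d i - G d (i - 1)) +
        ∑ i ∈ Icc (11 : ℤ) (m - 10), (asmV d (i + 1) - asmV d i) -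
        ∑ i ∈ Icc (11 : ℤ) (m - 10), (asmV d i - asmV d (i - 1)) := by
    rw [← sum_add_distrib, ← sum_add_distrib, ← sum_add_distrib, ← sum_sub_distrib]
    refine sum_congr rfl fun i _ => ?_
    rw [asm_row d h0 i, sg]
    ring
  rw [h1, asm_const _ _ _ (by omega), asm_tel _ _ _ (by omega), asm_tel' _ _ _ (by omega),
    asm_tel _ _ _ (by omega)]
  have g1 := (hG d hb h0).1 (m - 10)
  have g2 := (hG d hb h0).1 (11 - 1)
  have v1 := asm_V d hb (m - 10 + 1)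
  have v2 := asm_V d hb 11
  have v3 := asm_V d hb (m - 10)
  have v4 := asm_V d hb (11 - 1)
  have e : (m - 10 + 1 - 11) * 11 = 11 * (m - 20) := by ring
  rw [e]
  omega

private theorem asm_nonneg (d : ℤ → ℤ → ℤ) (hb : Bin d) (i j : ℤ) : 0 ≤ a d i j := by
  rw [a]
  rcases hb i j with h1 | h1 <;> rcases hb (i - 1) j with h2 | h2 <;>
    rcases hb (i + 1) j with h3 | h3 <;> rcases hb i (j - 1) with h4 | h4 <;>
    rcases hb i (j + 1) with h5 | h5 <;> omega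

private theorem asm_aR (n : ℤ) (d : ℤ → ℤ → ℤ) (i j : ℤ) : a (rf n d) i j = a d i (n + 1 - j) := by
  simp only [a, rf]
  rw [show n + 1 - (j - 1) = n + 1 - j + 1 by ring, show n + 1 - (j + 1) = n + 1 - j - 1 by ring]
  ring

private theorem asm_refl (g : ℤ → ℤ) (n : ℤ) :
    ∑ j ∈ Icc (n - 9) (n + 1), g j = ∑ j ∈ Icc (0 : ℤ) 10, g (n + 1 - j) := by
  refine sum_nbij' (fun j => n + 1 - j) (fun j => n + 1 - j) ?_ ?_ ?_ ?_ ?_
  · intro j hj
    rw [mem_Icc] at hj ⊢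
    omega
  · intro j hj
    rw [mem_Icc] at hj ⊢
    omega
  · intro j _
    ring
  · intro j _
    ring
  · intro j _
    congr 1
    ring

private theorem asm_rfd (m n : ℤ) (d : ℤ → ℤ → ℤ) (hn : 30 ≤ n) (hd : DomG m n d) :
    DomG m n (rf n d) := by
  refine ⟨fun i j => hd.1 i (n + 1 - j), fun i j h => hd.2.1 i (n + 1 - j) ?_,
    fun i j h1 h2 h3 h4 => ?_⟩
  · omega
  · rw [asm_aR]
    exact hd.2.2 _ _ h1 h2 (by omega) (by omega)

private theorem asm_right (G : (ℤ → ℤ → ℤ) → ℤ → ℤ) (hG : SideProp G) (m n : ℤ)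
    (d : ℤ → ℤ → ℤ) (hm : 30 ≤ m) (hn : 30 ≤ n) (hd : DomG m n d) :
    11 * (m - 20) + ∑ i ∈ Icc (11 : ℤ) (m - 10), sg G (rf n d) i - 42 ≤
      ∑ i ∈ Icc (11 : ℤ) (m - 10), ∑ j ∈ Icc (n - 9) (n + 1), a d i j := by
  have h1 := asm_left G hG m (rf n d) hm (asm_rfd m n d hn hd).1
    (fun i j hj => (asm_rfd m n d hn hd).2.1 i j (by omega))
  have h2 : ∑ i ∈ Icc (11 : ℤ) (m - 10), ∑ j ∈ Icc (n - 9) (n + 1), a d i j =
      ∑ i ∈ Icc (11 : ℤ) (m - 10), ∑ j ∈ Icc (0 : ℤ) 10, a (rf n d) i j := by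
    refine sum_congr rfl fun i _ => ?_
    rw [asm_refl]
    exact sum_congr rfl fun j _ => (asm_aR n d i j).symm
  rw [h2]
  exact h1

private theorem asm_slack (G : (ℤ → ℤ → ℤ) → ℤ → ℤ) (hG : SideProp G) (m n : ℤ)
    (d : ℤ → ℤ → ℤ) (hn : 30 ≤ n) (hd : DomG m n d) :
    0 ≤ ∑ i ∈ Icc (11 : ℤ) (m - 10), sg G d i := by
  refine sum_nonneg fun i hi => (hG _ hd.1 (fun i j hj => hd.2.1 i j (by omega))).2 i
    fun j hj1 hj2 => ?_
  rw [mem_Icc] at hi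
  exact hd.2.2 _ _ (by omega) (by omega) (by omega) (by omega)

private theorem asm_tra (d : ℤ → ℤ → ℤ) (i j : ℤ) : a (tr d) i j = a d j i := by
  simp only [a, tr]
  ring

private theorem asm_trd (m n : ℤ) (d : ℤ → ℤ → ℤ) (hd : DomG m n d) : DomG n m (tr d) := by
  refine ⟨fun i j => hd.1 j i, fun i j h => hd.2.1 j i ?_, fun i j h1 h2 h3 h4 => ?_⟩
  · tauto
  · rw [asm_tra]
    exact hd.2.2 j i h3 h4 h1 h2

private theorem asm_split (f : ℤ → ℤ) (m : ℤ) (hm : 30 ≤ m) :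
    ∑ i ∈ Icc 0 (m + 1), f i = ∑ i ∈ Icc (0 : ℤ) 10, f i + ∑ i ∈ Icc (11 : ℤ) (m - 10), f i +
      ∑ i ∈ Icc (m - 9) (m + 1), f i := by
  have h1 : Icc 0 (m + 1) = (Icc (0 : ℤ) 10 ∪ Icc (11 : ℤ) (m - 10)) ∪ Icc (m - 9) (m + 1) := by
    ext i
    rw [mem_union, mem_union, mem_Icc, mem_Icc, mem_Icc, mem_Icc]
    omega
  rw [h1, sum_union, sum_union]
  · rw [disjoint_left]
    intro i h2 h3
    rw [mem_Icc] at h2 h3
    omega
  · rw [disjoint_left]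
    intro i h2 h3
    rw [mem_union, mem_Icc, mem_Icc] at h2
    rw [mem_Icc] at h3
    omega

private theorem asm_corner (F : ℤ → ℤ → ℤ) (x y z w : ℤ) (x' y' z' w' : ℤ) (hx : x ≤ x')
    (hy : y' ≤ y) (hz : z ≤ z') (hw : w' ≤ w) (hF : ∀ i j, 0 ≤ F i j) (hxy : y' = x' + 9)
    (hzw : w' = z' + 9)
    (h1 : ∀ i j, x' ≤ i → i ≤ y' → z' ≤ j → j ≤ w' → 1 ≤ F i j) :
    100 ≤ ∑ i ∈ Icc x y, ∑ j ∈ Icc z w, F i j := by
  have h2 : ∑ i ∈ Icc x' y', ∑ j ∈ Icc z' w', F i j ≤ ∑ i ∈ Icc x y, ∑ j ∈ Icc z w, F i j := by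
    refine (sum_le_sum fun i _ => ?_).trans
      (sum_le_sum_of_subset_of_nonneg (Icc_subset_Icc hx hy) fun i _ _ =>
        sum_nonneg fun j _ => hF i j)
    exact sum_le_sum_of_subset_of_nonneg (Icc_subset_Icc hz hw) fun j _ _ => hF i j
  have h3 : ∑ _i ∈ Icc x' y', ∑ _j ∈ Icc z' w', (1 : ℤ) ≤ ∑ i ∈ Icc x' y', ∑ j ∈ Icc z' w', F i j := by
    refine sum_le_sum fun i hi => sum_le_sum fun j hj => ?_
    rw [mem_Icc] at hi hj
    exact h1 i j hi.1 hi.2 hj.1 hj.2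
  rw [asm_const _ _ _ (by omega), asm_const _ _ _ (by omega)] at h3
  rw [show y' + 1 - x' = 10 by omega, show w' + 1 - z' = 10 by omega] at h3
  omega

theorem exAsm : ExAsmStmt := by
  intro G hG m n d hm hn hd
  have ht := asm_tot m n d hd.2.1
  have hn0 := asm_nonneg d hd.1
  rw [← ht, asm_split _ m hm]
  have hs : ∀ i, ∑ j ∈ Icc 0 (n + 1), a d i j = ∑ j ∈ Icc (0 : ℤ) 10, a d i j +
      ∑ j ∈ Icc (11 : ℤ) (n - 10), a d i j + ∑ j ∈ Icc (n - 9) (n + 1), a d i j :=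
    fun i => asm_split _ n hn
  simp only [hs, sum_add_distrib]
  have hL := asm_left G hG m d hm hd.1 (fun i j hj => hd.2.1 i j (by omega))
  have hR := asm_right G hG m n d hm hn hd
  have htd := asm_trd m n d hd
  have hT := asm_left G hG n (tr d) hn htd.1 (fun i j hj => htd.2.1 i j (by omega))
  have hB := asm_right G hG n m (tr d) hn hm htd
  have sT := asm_slack G hG n m (tr d) hm htd
  have sB := asm_slack G hG n m (rf m (tr d)) hm (asm_rfd n m (tr d) hm htd)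
  simp only [asm_tra] at hT hB
  rw [sum_comm] at hT hB
  have c1 := asm_corner (fun i j => a d i j) 0 10 0 10 1 10 1 10 (by omega) (by omega) (by omega)
    (by omega) hn0 (by omega) (by omega)
    (fun i j h1 h2 h3 h4 => hd.2.2 i j (by omega) (by omega) (by omega) (by omega))
  have c2 := asm_corner (fun i j => a d i j) 0 10 (n - 9) (n + 1) 1 10 (n - 9) n (by omega)
    (by omega) (by omega) (by omega) hn0 (by omega) (by omega)
    (fun i j h1 h2 h3 h4 => hd.2.2 i j (by omega) (by omega) (by omega) (by omega))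
  have c3 := asm_corner (fun i j => a d i j) (m - 9) (m + 1) 0 10 (m - 9) m 1 10 (by omega)
    (by omega) (by omega) (by omega) hn0 (by omega) (by omega)
    (fun i j h1 h2 h3 h4 => hd.2.2 i j (by omega) (by omega) (by omega) (by omega))
  have c4 := asm_corner (fun i j => a d i j) (m - 9) (m + 1) (n - 9) (n + 1) (m - 9) m (n - 9) n
    (by omega) (by omega) (by omega) (by omega) hn0 (by omega) (by omega)
    (fun i j h1 h2 h3 h4 => hd.2.2 i j (by omega) (by omega) (by omega) (by omega))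
  have hM : ∑ i ∈ Icc (11 : ℤ) (m - 10), ∑ j ∈ Icc (11 : ℤ) (n - 10), (a d i j - 1) =
      ∑ i ∈ Icc (11 : ℤ) (m - 10), ∑ j ∈ Icc (11 : ℤ) (n - 10), a d i j - (m - 20) * (n - 20) := by
    simp only [sum_sub_distrib]
    rw [asm_const _ _ _ (by omega), asm_const _ _ _ (by omega)]
    ring
  rw [hM]
  nlinarith [hL, hR, hT, hB, sT, sB, c1, c2, c3, c4]

end PatGap
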