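import Pool.Agent.H.MP_b28609_co.Gap.Ex.StmtL

/-!
# MP_b28609_co, exact theorem, module ExBack: back to finite sets of vertices
-/

set_option autoImplicit false

namespace PatGap

open PatDom

/-- The vertex of a cell of the grid. -/
private theorem exBack_vertex {m n : ℕ} {e : ℤ → ℤ → ℤ} (h : DomG m n e) {i j : ℤ}
    (hij : e i j = 1) : ∃ v : Fin m × Fin n, cell v = (i, j) := by
  have h1 : 1 ≤ i ∧ i ≤ m ∧ 1 ≤ j ∧ j ≤ n := by
    by_contra h0
    have h2 := h.2.1 i j h0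
    omega
  refine ⟨(⟨(i - 1).toNat, by omega⟩, ⟨(j - 1).toNat, by omega⟩), ?_⟩
  unfold cell
  rw [Prod.mk.injEq]
  constructor
  · show (((i - 1).toNat : ℕ) : ℤ) + 1 = i
    omega
  · show (((j - 1).toNat : ℕ) : ℤ) + 1 = j
    omega

theorem exBack : ExBackStmt := by
  classical
  intro m n e h
  obtain ⟨D, hD⟩ : ∃ D : Finset (Fin m × Fin n), ∀ v, v ∈ D ↔ e (cell v).1 (cell v).2 = 1 :=
    ⟨Finset.univ.filter fun v => e (cell v).1 (cell v).2 = 1, fun v => by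
      rw [Finset.mem_filter]
      exact ⟨fun h1 => h1.2, fun h1 => ⟨Finset.mem_univ v, h1⟩⟩⟩
  have he : ind D = e := by
    funext i j
    rcases h.1 i j with h0 | h0
    · rcases ind_bin D i j with h1 | h1
      · rw [h0, h1]
      · obtain ⟨v, hv, hvc⟩ := (ind_one D i j).1 h1
        have h2 := (hD v).1 hv
        rw [hvc] at h2
        rw [h1]
        exact h2.symm
    · obtain ⟨v, hv⟩ := exBack_vertex h h0
      rw [h0]
      refine (ind_one D i j).2 ⟨v, (hD v).2 ?_, hv⟩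
      rw [hv]
      exact h0
  refine ⟨D, ?_, ?_⟩
  · intro v hv
    have h0 : e ((v.1.val : ℤ) + 1) ((v.2.val : ℤ) + 1) = 0 := by
      rcases h.1 ((v.1.val : ℤ) + 1) ((v.2.val : ℤ) + 1) with h1 | h1
      · exact h1
      · exact absurd ((hD v).2 h1) hv
    have hv1 := v.1.isLt
    have hv2 := v.2.isLt
    have h1 := h.2.2 ((v.1.val : ℤ) + 1) ((v.2.val : ℤ) + 1) (by omega) (by omega) (by omega)
      (by omega)
    unfold a at h1
    have g1 := h.1 ((v.1.val : ℤ) + 1 - 1) ((v.2.val : ℤ) + 1)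
    have g2 := h.1 ((v.1.val : ℤ) + 1 + 1) ((v.2.val : ℤ) + 1)
    have g3 := h.1 ((v.1.val : ℤ) + 1) ((v.2.val : ℤ) + 1 - 1)
    have g4 := h.1 ((v.1.val : ℤ) + 1) ((v.2.val : ℤ) + 1 + 1)
    have key : ∀ i j : ℤ, e i j = 1 → ∃ u ∈ D, (u.1.val : ℤ) + 1 = i ∧ (u.2.val : ℤ) + 1 = j := by
      intro i j hij
      obtain ⟨u, hu⟩ := exBack_vertex h hij
      refine ⟨u, (hD u).2 ?_, ?_⟩
      · rw [hu]
        exact hij
      · unfold cell at hu
        exact Prod.mk.injEq _ _ _ _ ▸ hu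
    have h2 : e ((v.1.val : ℤ) + 1 - 1) ((v.2.val : ℤ) + 1) = 1 ∨
        e ((v.1.val : ℤ) + 1 + 1) ((v.2.val : ℤ) + 1) = 1 ∨
        e ((v.1.val : ℤ) + 1) ((v.2.val : ℤ) + 1 - 1) = 1 ∨
        e ((v.1.val : ℤ) + 1) ((v.2.val : ℤ) + 1 + 1) = 1 := by omega
    rcases h2 with h3 | h3 | h3 | h3
    · obtain ⟨u, hu, h4, h5⟩ := key _ _ h3
      refine ⟨u, hu, (grid_adj v u).2 (Or.inl ⟨Or.inr (by omega), Fin.ext (by omega)⟩)⟩
    · obtain ⟨u, hu, h4, h5⟩ := key _ _ h3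
      refine ⟨u, hu, (grid_adj v u).2 (Or.inl ⟨Or.inl (by omega), Fin.ext (by omega)⟩)⟩
    · obtain ⟨u, hu, h4, h5⟩ := key _ _ h3
      refine ⟨u, hu, (grid_adj v u).2 (Or.inr ⟨Or.inr (by omega), Fin.ext (by omega)⟩)⟩
    · obtain ⟨u, hu, h4, h5⟩ := key _ _ h3
      refine ⟨u, hu, (grid_adj v u).2 (Or.inr ⟨Or.inl (by omega), Fin.ext (by omega)⟩)⟩
  · rw [← ind_tot D, he]

end PatGap
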