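import Pool.Agent.H.MP_b28609_co.Gap.Ex.StmtL

/-!
# MP_b28609_co, exact theorem, module ExBand: in clean rows all guards move to the next row
-/

set_option autoImplicit false

noncomputable section

namespace PatGap

private theorem ExBand_hit {d : ℤ → ℤ → ℤ} (hb : Bin d) {x y : ℤ} (h : a d x y = 1) :
    ∃ i j : ℤ, x - 1 ≤ i ∧ i ≤ x + 1 ∧ y - 1 ≤ j ∧ j ≤ y + 1 ∧ d i j = 1 := by
  by_contra hne
  push Not at hne
  have h0 : ∀ i j : ℤ, x - 1 ≤ i → i ≤ x + 1 → y - 1 ≤ j → j ≤ y + 1 → d i j = 0 := by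
    intro i j h1 h2 h3 h4
    rcases hb i j with h5 | h5
    · exact h5
    · exact absurd h5 (hne i j h1 h2 h3 h4)
  unfold a at h
  rw [h0 x y (by omega) (by omega) (by omega) (by omega),
    h0 (x - 1) y (by omega) (by omega) (by omega) (by omega),
    h0 (x + 1) y (by omega) (by omega) (by omega) (by omega),
    h0 x (y - 1) (by omega) (by omega) (by omega) (by omega),
    h0 x (y + 1) (by omega) (by omega) (by omega) (by omega)] at h
  omega

/-- four of the five cells of a neighbourhood follow the lattice: the cell to the left does so too -/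
private theorem ExBand_left {e : ℤ → ℤ → ℤ} (hb : Bin e) {s c i j : ℤ} (hs : s = 2 ∨ s = 3)
    (c0 : 0 ≤ c) (c4 : c ≤ 4) (ha : a e i j = 1) (h0 : e i j = 1 ↔ (i + s * j) % 5 = c)
    (h1 : e (i - 1) j = 1 ↔ (i - 1 + s * j) % 5 = c)
    (h2 : e (i + 1) j = 1 ↔ (i + 1 + s * j) % 5 = c)
    (h3 : e i (j + 1) = 1 ↔ (i + s * (j + 1)) % 5 = c) :
    e i (j - 1) = 1 ↔ (i + s * (j - 1)) % 5 = c := by
  unfold a at ha
  have b0 := hb i j
  have b1 := hb (i - 1) j
  have b2 := hb (i + 1) j
  have b3 := hb i (j + 1)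
  have b4 := hb i (j - 1)
  rcases hs with rfl | rfl
  · constructor
    · intro h5
      omega
    · intro h5
      omega
  · constructor
    · intro h5
      omega
    · intro h5
      omega

/-- the same for the cell to the right -/
private theorem ExBand_right {e : ℤ → ℤ → ℤ} (hb : Bin e) {s c i j : ℤ} (hs : s = 2 ∨ s = 3)
    (c0 : 0 ≤ c) (c4 : c ≤ 4) (ha : a e i j = 1) (h0 : e i j = 1 ↔ (i + s * j) % 5 = c)
    (h1 : e (i - 1) j = 1 ↔ (i - 1 + s * j) % 5 = c)
    (h2 : e (i + 1) j = 1 ↔ (i + 1 + s * j) % 5 = c)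
    (h3 : e i (j - 1) = 1 ↔ (i + s * (j - 1)) % 5 = c) :
    e i (j + 1) = 1 ↔ (i + s * (j + 1)) % 5 = c := by
  unfold a at ha
  have b0 := hb i j
  have b1 := hb (i - 1) j
  have b2 := hb (i + 1) j
  have b3 := hb i (j + 1)
  have b4 := hb i (j - 1)
  rcases hs with rfl | rfl
  · constructor
    · intro h5
      omega
    · intro h5
      omega
  · constructor
    · intro h5
      omega
    · intro h5
      omega

/-- the columns `10`, `11`, `n - 10`, `n - 9` -/
private theorem ExBand_lat {n : ℤ} {e : ℤ → ℤ → ℤ} (hb : Bin e) {s c r : ℤ} (hs : s = 2 ∨ s = 3)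
    (c0 : 0 ≤ c) (c4 : c ≤ 4) (hn : 60 ≤ n) (hC : Clean Gs n e r)
    (hl : Lat e s c (r + 2) (r + 239) 12 (n - 11)) : Lat e s c (r + 4) (r + 237) 10 (n - 9) := by
  have ha : ∀ i j, r + 1 ≤ i → i ≤ r + 240 → 11 ≤ j → j ≤ n - 10 → a e i j = 1 :=
    fun i j h1 h2 h3 h4 => (hC i h1 h2).2 j h3 h4
  have k1 : Lat e s c (r + 3) (r + 238) 11 (n - 10) := by
    intro i j h1 h2 h3 h4
    by_cases h5 : j = 11
    · have h6 := ExBand_left hb hs c0 c4 (ha i 12 (by omega) (by omega) (by omega) (by omega))
        (hl i 12 (by omega) (by omega) (by omega) (by omega))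
        (hl (i - 1) 12 (by omega) (by omega) (by omega) (by omega))
        (hl (i + 1) 12 (by omega) (by omega) (by omega) (by omega))
        (hl i (12 + 1) (by omega) (by omega) (by omega) (by omega))
      have h7 : j = 12 - 1 := by omega
      rw [h7]
      exact h6
    · by_cases h6 : j = n - 10
      · have h7 := ExBand_right hb hs c0 c4
          (ha i (n - 11) (by omega) (by omega) (by omega) (by omega))
          (hl i (n - 11) (by omega) (by omega) (by omega) (by omega))
          (hl (i - 1) (n - 11) (by omega) (by omega) (by omega) (by omega))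
          (hl (i + 1) (n - 11) (by omega) (by omega) (by omega) (by omega))
          (hl i (n - 11 - 1) (by omega) (by omega) (by omega) (by omega))
        have h8 : j = n - 11 + 1 := by omega
        rw [h8]
        exact h7
      · exact hl i j (by omega) (by omega) (by omega) (by omega)
  intro i j h1 h2 h3 h4
  by_cases h5 : j = 10
  · have h6 := ExBand_left hb hs c0 c4 (ha i 11 (by omega) (by omega) (by omega) (by omega))
      (k1 i 11 (by omega) (by omega) (by omega) (by omega))
      (k1 (i - 1) 11 (by omega) (by omega) (by omega) (by omega))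
      (k1 (i + 1) 11 (by omega) (by omega) (by omega) (by omega))
      (k1 i (11 + 1) (by omega) (by omega) (by omega) (by omega))
    have h7 : j = 11 - 1 := by omega
    rw [h7]
    exact h6
  · by_cases h6 : j = n - 9
    · have h7 := ExBand_right hb hs c0 c4
        (ha i (n - 10) (by omega) (by omega) (by omega) (by omega))
        (k1 i (n - 10) (by omega) (by omega) (by omega) (by omega))
        (k1 (i - 1) (n - 10) (by omega) (by omega) (by omega) (by omega))
        (k1 (i + 1) (n - 10) (by omega) (by omega) (by omega) (by omega))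
        (k1 i (n - 10 - 1) (by omega) (by omega) (by omega) (by omega))
      have h8 : j = n - 10 + 1 := by omega
      rw [h8]
      exact h7
    · exact k1 i j (by omega) (by omega) (by omega) (by omega)

/-- the motion to the next row -/
private theorem ExBand_gd {n : ℤ} {e e' : ℤ → ℤ → ℤ} {f : ℤ × ℤ → ℤ × ℤ} {s c c' r : ℤ}
    (hs : s = 2 ∨ s = 3) (c0 : 0 ≤ c) (c4 : c ≤ 4) (c0' : 0 ≤ c') (c4' : c' ≤ 4)
    (hc : (c' - c) % 5 = 1) (hl : Lat e s c (r + 4) (r + 237) 10 (n - 9))
    (hl' : Lat e' s c' (r + 4) (r + 237) 10 (n - 9)) (hf : Mv e e' f) : Gd n e e' f s c r := by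
  refine ⟨hs, c0, c4, fun i j h1 h2 h3 h4 => hl i j (by omega) (by omega) h3 h4, ?_, ?_⟩
  · have h1 : (c + 1) % 5 = c' := by omega
    rw [h1]
    exact fun i j h1 h2 h3 h4 => hl' i j (by omega) (by omega) h3 h4
  · intro i j h1 h2 h3 h4 h5
    have h6 := (hl i j (by omega) (by omega) (by omega) (by omega)).1 h5
    have hm := hf.mem (i, j) h5
    have hn := hf.nb (i, j) h5
    unfold Nb at hn
    dsimp only at hm hn
    rcases hn with ⟨g1, g2 | g2⟩ | ⟨g1, g2 | g2⟩
    · exfalso
      rw [g1, g2] at hm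
      have h7 := (hl' i (j + 1) (by omega) (by omega) (by omega) (by omega)).1 hm
      rcases hs with rfl | rfl
      · omega
      · omega
    · exfalso
      rw [g1, g2] at hm
      have h7 := (hl' i (j - 1) (by omega) (by omega) (by omega) (by omega)).1 hm
      rcases hs with rfl | rfl
      · omega
      · omega
    · exact Prod.ext g2 g1
    · exfalso
      rw [g1, g2] at hm
      have h7 := (hl' (i - 1) j (by omega) (by omega) (by omega) (by omega)).1 hm
      omega

theorem exBand (hG : SideProp Gs) (hB : BandStmt) (hI : MvInvStmt) : ExBandStmt := by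
  intro m n d d' f r hd hd' hf hn hr hrm k1 k2
  have _ := hI
  have _ := hr
  have _ := hrm
  have z : ∀ e : ℤ → ℤ → ℤ, DomG m n e → ∀ i j, j ≤ 0 → e i j = 0 := by
    intro e he i j hj
    exact he.2.1 i j (by omega)
  obtain ⟨s, c, c', hs, l1, l2, l3⟩ := hB Gs n d d' f r hG hd.1 hd'.1 (z d hd) (z d' hd') hf hn
    k1.1 k2.1
  have key : ∀ (e : ℤ → ℤ → ℤ) (b : ℤ), DomG m n e → Clean Gs n e r →
      Lat e s b (r + 2) (r + 239) 12 (n - 11) → 0 ≤ b ∧ b ≤ 4 := by
    intro e b he hc hl
    have h1 : a e (r + 100) 30 = 1 :=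
      (hc (r + 100) (by omega) (by omega)).2 30 (by omega) (by omega)
    obtain ⟨i, j, e1, e2, e3, e4, e5⟩ := ExBand_hit he.1 h1
    have h2 := (hl i j (by omega) (by omega) (by omega) (by omega)).1 e5
    rcases hs with rfl | rfl
    · omega
    · omega
  obtain ⟨c0, c4⟩ := key d c hd k1.1 l1
  obtain ⟨c0', c4'⟩ := key d' c' hd' k2.1 l2
  have m1 := ExBand_lat hd.1 hs c0 c4 hn k1.1 l1
  have m2 := ExBand_lat hd'.1 hs c0' c4' hn k2.1 l2
  rcases l3 with l3 | l3
  · exact Or.inl ⟨s, c, ExBand_gd hs c0 c4 c0' c4' l3 m1 m2 hf⟩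
  · exact Or.inr fun g hg => ⟨s, c', ExBand_gd hs c0' c4' c0 c4 (by omega) m2 m1 hg⟩

end PatGap
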