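import Pool.Agent.H.MP_b28609_co.Gap.Ex.StmtL

/-!
# MP_b28609_co, exact theorem, lower bound: existence of clean rows

The excess of all rows of both sets is at most `2 n + 508`; so one of `2 n + 509` blocks of 240 rows has
no excess.
-/

set_option autoImplicit false

namespace PatGap

private theorem exClean_a_rf (n : ℤ) (d : ℤ → ℤ → ℤ) (i j : ℤ) :
    a (rf n d) i j = a d i (n + 1 - j) := by
  unfold a rf
  rw [show n + 1 - (j - 1) = n + 1 - j + 1 by ring, show n + 1 - (j + 1) = n + 1 - j - 1 by ring]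
  ring

private theorem exClean_dom_rf {m n : ℤ} {d : ℤ → ℤ → ℤ} (h : DomG m n d) :
    DomG m n (rf n d) := by
  obtain ⟨hb, hs, hd⟩ := h
  refine ⟨fun i j => hb i (n + 1 - j), fun i j hij => hs i (n + 1 - j) fun h => hij ?_,
    fun i j h1 h2 h3 h4 => ?_⟩
  · exact ⟨h.1, h.2.1, by omega, by omega⟩
  · rw [exClean_a_rf]
    exact hd i (n + 1 - j) h1 h2 (by omega) (by omega)

private theorem exClean_left {m n : ℤ} {d : ℤ → ℤ → ℤ} (h : DomG m n d) :
    ∀ i j, j ≤ 0 → d i j = 0 := fun i j hj => h.2.1 i j fun h' => by omega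

private theorem exClean_sg (hG : SideProp Gs) {m n : ℤ} {d : ℤ → ℤ → ℤ}
    (h : DomG m n d) (hn : 30 ≤ n) {i : ℤ} (h1 : 11 ≤ i) (h2 : i ≤ m - 10) : 0 ≤ sg Gs d i :=
  (hG d h.1 (exClean_left h)).2 i fun j hj1 hj2 =>
    h.2.2 (i - 1) j (by omega) (by omega) hj1 (by omega)

private theorem exClean_mid {m n : ℤ} {d : ℤ → ℤ → ℤ} (h : DomG m n d) {i j : ℤ} (h1 : 11 ≤ i)
    (h2 : i ≤ m - 10) (h3 : 11 ≤ j) (h4 : j ≤ n - 10) : 0 ≤ a d i j - 1 := by
  have := h.2.2 i j (by omega) (by omega) (by omega) (by omega)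
  omega

/-- excess of the row `i` -/
private noncomputable def exClean_ex (n : ℤ) (d : ℤ → ℤ → ℤ) (i : ℤ) : ℤ :=
  sg Gs d i + sg Gs (rf n d) i + ∑ j ∈ Finset.Icc (11 : ℤ) (n - 10), (a d i j - 1)

private theorem exClean_nonneg (hG : SideProp Gs) {m n : ℤ} {d : ℤ → ℤ → ℤ} (h : DomG m n d)
    (hn : 30 ≤ n) {i : ℤ} (h1 : 11 ≤ i) (h2 : i ≤ m - 10) : 0 ≤ exClean_ex n d i := by
  unfold exClean_ex
  refine add_nonneg (add_nonneg (exClean_sg hG h hn h1 h2)
    (exClean_sg hG (exClean_dom_rf h) hn h1 h2)) (Finset.sum_nonneg fun j hj => ?_)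
  rw [Finset.mem_Icc] at hj
  exact exClean_mid h h1 h2 hj.1 hj.2

/-- rows without excess are clean -/
private theorem exClean_clean (hG : SideProp Gs) {m n : ℤ} {d : ℤ → ℤ → ℤ} (h : DomG m n d)
    (hn : 30 ≤ n) {r : ℤ} (hr : 10 ≤ r) (hr' : r + 250 ≤ m)
    (h0 : ∀ i, r + 1 ≤ i → i ≤ r + 240 → exClean_ex n d i ≤ 0) : Clean2 n d r := by
  have key : ∀ i, r + 1 ≤ i → i ≤ r + 240 → sg Gs d i = 0 ∧ sg Gs (rf n d) i = 0 ∧
      ∀ j, 11 ≤ j → j ≤ n - 10 → a d i j = 1 := by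
    intro i hi1 hi2
    have h1 : 11 ≤ i := by omega
    have h2 : i ≤ m - 10 := by omega
    have h3 := h0 i hi1 hi2
    have h4 := exClean_sg hG h hn h1 h2
    have h4' := exClean_sg hG (exClean_dom_rf h) hn h1 h2
    have h5 : ∀ j ∈ Finset.Icc (11 : ℤ) (n - 10), 0 ≤ a d i j - 1 := fun j hj => by
      rw [Finset.mem_Icc] at hj
      exact exClean_mid h h1 h2 hj.1 hj.2
    have h6 := Finset.sum_nonneg h5
    unfold exClean_ex at h3
    have h7 : ∑ j ∈ Finset.Icc (11 : ℤ) (n - 10), (a d i j - 1) = 0 := by linarith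
    refine ⟨by linarith, by linarith, fun j hj1 hj2 => ?_⟩
    have h8 := (Finset.sum_eq_zero_iff_of_nonneg h5).1 h7 j (Finset.mem_Icc.2 ⟨hj1, hj2⟩)
    linarith
  refine ⟨fun i hi1 hi2 => ?_, fun i hi1 hi2 => ?_⟩
  · obtain ⟨h1, -, h3⟩ := key i hi1 hi2
    exact ⟨h1, h3⟩
  · obtain ⟨-, h2, h3⟩ := key i hi1 hi2
    refine ⟨h2, fun j hj1 hj2 => ?_⟩
    rw [exClean_a_rf]
    exact h3 _ (by omega) (by omega)

/-- one positive term in every band -/
private theorem exClean_band (F : ℤ → ℤ) (K : ℕ) (M : ℤ) (hM : 10 + 240 * (K : ℤ) ≤ M)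
    (h0 : ∀ i, 11 ≤ i → i ≤ M → 0 ≤ F i)
    (h1 : ∀ k : ℕ, k < K → ∃ i : ℤ, 10 + 240 * (k : ℤ) + 1 ≤ i ∧ i ≤ 10 + 240 * (k : ℤ) + 240 ∧
      1 ≤ F i) : (K : ℤ) ≤ ∑ i ∈ Finset.Icc (11 : ℤ) M, F i := by
  have key : ∀ L : ℕ, L ≤ K →
      (L : ℤ) ≤ ∑ i ∈ Finset.Icc (11 : ℤ) (10 + 240 * (L : ℤ)), F i := by
    intro L
    induction L with
    | zero =>
      intro _
      simp
    | succ L ih =>
      intro hL
      have h2 := ih (by omega)
      obtain ⟨i, hi1, hi2, hi3⟩ := h1 L (by omega)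
      have h3 : i ∉ Finset.Icc (11 : ℤ) (10 + 240 * (L : ℤ)) := by
        rw [Finset.mem_Icc]
        omega
      have h4 : insert i (Finset.Icc (11 : ℤ) (10 + 240 * (L : ℤ))) ⊆
          Finset.Icc (11 : ℤ) (10 + 240 * ((L + 1 : ℕ) : ℤ)) := by
        intro x hx
        rw [Finset.mem_insert, Finset.mem_Icc] at hx
        rw [Finset.mem_Icc]
        push_cast
        rcases hx with rfl | hx <;> omega
      have h5 := Finset.sum_le_sum_of_subset_of_nonneg (f := F) h4 fun x hx _ => by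
        rw [Finset.mem_Icc] at hx
        push_cast at hx
        refine h0 x hx.1 ?_
        have h6 : ((L + 1 : ℕ) : ℤ) ≤ K := by exact_mod_cast hL
        push_cast at h6
        omega
      rw [Finset.sum_insert h3] at h5
      push_cast at h5 ⊢
      linarith
  refine (key K le_rfl).trans (Finset.sum_le_sum_of_subset_of_nonneg ?_ fun x hx _ => ?_)
  · intro x hx
    rw [Finset.mem_Icc] at hx ⊢
    omega
  · rw [Finset.mem_Icc] at hx
    exact h0 x hx.1 hx.2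

theorem exClean (hG : SideProp Gs) (hA : ExAsmStmt) : ExCleanStmt := by
  intro m n d d' hn hm hd hd' ht h5
  have hA1 := hA Gs hG m n d (by omega) (by omega) hd
  have hA2 := hA Gs hG m n d' (by omega) (by omega) hd'
  rw [← ht] at hA2
  obtain ⟨K, hK⟩ : ∃ K : ℕ, (K : ℤ) = 2 * n + 509 :=
    ⟨(2 * n + 509).toNat, Int.toNat_of_nonneg (by omega)⟩
  have hE1 : ∑ i ∈ Finset.Icc (11 : ℤ) (m - 10), exClean_ex n d i ≤ n + 254 := by
    have h6 : ∑ i ∈ Finset.Icc (11 : ℤ) (m - 10), exClean_ex n d i =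
        ∑ i ∈ Finset.Icc (11 : ℤ) (m - 10), (sg Gs d i + sg Gs (rf n d) i +
          ∑ j ∈ Finset.Icc (11 : ℤ) (n - 10), (a d i j - 1)) := rfl
    rw [h6]
    linarith
  have hE2 : ∑ i ∈ Finset.Icc (11 : ℤ) (m - 10), exClean_ex n d' i ≤ n + 254 := by
    have h6 : ∑ i ∈ Finset.Icc (11 : ℤ) (m - 10), exClean_ex n d' i =
        ∑ i ∈ Finset.Icc (11 : ℤ) (m - 10), (sg Gs d' i + sg Gs (rf n d') i +
          ∑ j ∈ Finset.Icc (11 : ℤ) (n - 10), (a d' i j - 1)) := rfl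
    rw [h6]
    linarith
  by_cases hc : ∀ k : ℕ, k < K → ∃ i : ℤ, 10 + 240 * (k : ℤ) + 1 ≤ i ∧
      i ≤ 10 + 240 * (k : ℤ) + 240 ∧ 1 ≤ exClean_ex n d i + exClean_ex n d' i
  · exfalso
    have h7 := exClean_band (fun i => exClean_ex n d i + exClean_ex n d' i) K (m - 10)
      (by omega) (fun i h1 h2 => add_nonneg (exClean_nonneg hG hd (by omega) h1 h2)
        (exClean_nonneg hG hd' (by omega) h1 h2)) hc
    rw [Finset.sum_add_distrib] at h7
    linarith
  · push Not at hc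
    obtain ⟨k, hk, hc⟩ := hc
    have hk' : (k : ℤ) + 1 ≤ K := by exact_mod_cast hk
    refine ⟨10 + 240 * (k : ℤ), by omega, by omega, ?_, ?_⟩
    · refine exClean_clean hG hd (by omega) (by omega) (by omega) fun i hi1 hi2 => ?_
      have h2 := hc i hi1 hi2
      have h3 := exClean_nonneg hG hd' (n := n) (m := m) (i := i) (by omega) (by omega) (by omega)
      omega
    · refine exClean_clean hG hd' (by omega) (by omega) (by omega) fun i hi1 hi2 => ?_
      have h2 := hc i hi1 hi2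
      have h3 := exClean_nonneg hG hd (n := n) (m := m) (i := i) (by omega) (by omega) (by omega)
      omega

end PatGap
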