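import Pool.Agent.H.MP_b28609_co.Gap.Ex.StmtL

/-!
# MP_b28609_co, exact theorem: the number of guards of the glued set
-/

set_option autoImplicit false

noncomputable section

namespace PatGap

open Finset

private theorem ExCnt_tot {m n : ℤ} {e : ℤ → ℤ → ℤ} (he : ∀ i j, e i j = 0 ∨ e i j = 1) :
    tot m n e = (#((Icc (1 : ℤ) m ×ˢ Icc (1 : ℤ) n).filter fun v => e v.1 v.2 = 1) : ℤ) := by
  have h1 : ∀ v : ℤ × ℤ, e v.1 v.2 = if e v.1 v.2 = 1 then 1 else 0 := by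
    intro v
    rcases he v.1 v.2 with h | h
    · rw [h]
      simp
    · rw [h]
      simp
  rw [tot, ← sum_product', sum_congr rfl fun v _ => h1 v, sum_boole]

private theorem ExCnt_side {D : ℤ → ℤ → ℤ} {F : ℤ × ℤ → ℤ × ℤ} {b : ℤ}
    (h : ∑ j ∈ Icc (1 : ℤ) 10,
      ((if D (b + 1) j = 1 ∧ (F (b + 1, j)).1 ≤ b + 1 then (1 : ℤ) else 0) +
        (if D (b + 2) j = 1 ∧ (F (b + 2, j)).1 ≤ b + 1 then (1 : ℤ) else 0)) ≤ 1)
    (X : Finset (ℤ × ℤ)) (φ : ℤ × ℤ → ℤ × ℤ) (hφ : Function.Injective φ)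
    (hX : ∀ v ∈ X, 1 ≤ (φ v).2 ∧ (φ v).2 ≤ 10 ∧ D (φ v).1 (φ v).2 = 1 ∧ (F (φ v)).1 ≤ b + 1 ∧
      ((φ v).1 = b + 1 ∨ (φ v).1 = b + 2)) : (#X : ℤ) ≤ 1 := by
  refine le_trans ?_ h
  rw [sum_add_distrib, sum_boole, sum_boole]
  have h1 : X.image φ ⊆
      ((Icc (1 : ℤ) 10).filter fun j => D (b + 1) j = 1 ∧ (F (b + 1, j)).1 ≤ b + 1).image
        (fun j => (b + 1, j)) ∪
      ((Icc (1 : ℤ) 10).filter fun j => D (b + 2) j = 1 ∧ (F (b + 2, j)).1 ≤ b + 1).image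
        (fun j => (b + 2, j)) := by
    intro w hw
    rw [mem_image] at hw
    obtain ⟨v, hv, rfl⟩ := hw
    obtain ⟨k1, k2, k3, k4, k5⟩ := hX v hv
    rw [mem_union, mem_image, mem_image]
    rcases k5 with k5 | k5
    · left
      have e : (b + 1, (φ v).2) = φ v := Prod.ext k5.symm rfl
      refine ⟨(φ v).2, ?_, e⟩
      rw [mem_filter, mem_Icc, e, ← k5]
      exact ⟨⟨k1, k2⟩, k3, by rw [k5]; exact k4⟩
    · right
      have e : (b + 2, (φ v).2) = φ v := Prod.ext k5.symm rfl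
      refine ⟨(φ v).2, ?_, e⟩
      rw [mem_filter, mem_Icc, e, ← k5]
      exact ⟨⟨k1, k2⟩, k3, k4⟩
  have h2 := (card_le_card h1).trans (card_union_le _ _)
  rw [card_image_of_injective X hφ] at h2
  have h3 : #(((Icc (1 : ℤ) 10).filter fun j =>
      D (b + 1) j = 1 ∧ (F (b + 1, j)).1 ≤ b + 1).image (fun j => (b + 1, j))) ≤
      #((Icc (1 : ℤ) 10).filter fun j => D (b + 1) j = 1 ∧ (F (b + 1, j)).1 ≤ b + 1) :=
    card_image_le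
  have h4 : #(((Icc (1 : ℤ) 10).filter fun j =>
      D (b + 2) j = 1 ∧ (F (b + 2, j)).1 ≤ b + 1).image (fun j => (b + 2, j))) ≤
      #((Icc (1 : ℤ) 10).filter fun j => D (b + 2) j = 1 ∧ (F (b + 2, j)).1 ≤ b + 1) :=
    card_image_le
  exact_mod_cast h2.trans (Nat.add_le_add h3 h4)

private theorem ExCnt_nb {v w : ℤ × ℤ} (h : Nb v w) :
    w.1 ≤ v.1 + 1 ∧ v.1 ≤ w.1 + 1 ∧ w.2 ≤ v.2 + 1 ∧ v.2 ≤ w.2 + 1 := by
  rcases h with ⟨h1, h2 | h2⟩ | ⟨h1, h2 | h2⟩ <;> omega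

theorem exCnt : ExCntStmt := by
  intro m n d d' f r s c bL bR hd hd' hf hn hr hrm hG hL1 hL2 hR1 hR2 hgL hgR
  obtain ⟨hdb, hd0, -⟩ := hd
  obtain ⟨hdb', hd0', -⟩ := hd'
  obtain ⟨b, hb⟩ : ∃ b : ℤ → ℤ, ∀ j, b j = if 2 * j ≤ n then bL else bR := ⟨_, fun _ => rfl⟩
  have hb1 : ∀ j, r + 12 ≤ b j ∧ b j ≤ r + 100 := by
    intro j
    rw [hb]
    split_ifs
    · exact ⟨hL1, hL2⟩
    · exact ⟨hR1, hR2⟩
  have hbl : ∀ j, j ≤ 11 → b j = bL := fun j hj => by rw [hb, if_pos (by omega)]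
  have hbr : ∀ j, n - 10 ≤ j → b j = bR := fun j hj => by rw [hb, if_neg (by omega)]
  have hgl : ∀ i j, gl n bL bR d d' i j = if i ≤ b j + 1 then d' i j else d (i - 1) j := by
    intro i j
    rw [gl, hb]
  have hin : ∀ i j, d i j = 1 → (i, j) ∈ Icc (1 : ℤ) m ×ˢ Icc (1 : ℤ) n := by
    intro i j h
    rw [mem_product, mem_Icc, mem_Icc]
    by_contra hcon
    have h1 := hd0 i j (fun h2 => hcon ⟨⟨h2.1, h2.2.1⟩, h2.2.2.1, h2.2.2.2⟩)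
    omega
  have hin' : ∀ i j, d' i j = 1 → (i, j) ∈ Icc (1 : ℤ) m ×ˢ Icc (1 : ℤ) n := by
    intro i j h
    rw [mem_product, mem_Icc, mem_Icc]
    by_contra hcon
    have h1 := hd0' i j (fun h2 => hcon ⟨⟨h2.1, h2.2.1⟩, h2.2.2.1, h2.2.2.2⟩)
    omega
  have hebin : ∀ i j, gl n bL bR d d' i j = 0 ∨ gl n bL bR d d' i j = 1 := by
    intro i j
    rw [hgl]
    split_ifs
    · exact hdb' i j
    · exact hdb (i - 1) j
  rw [ExCnt_tot hebin, ExCnt_tot hdb]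
  obtain ⟨S, hS⟩ : ∃ S, S = (Icc (1 : ℤ) m ×ˢ Icc (1 : ℤ) n).filter fun v => d v.1 v.2 = 1 :=
    ⟨_, rfl⟩
  obtain ⟨E, hE⟩ : ∃ E, E = (Icc (1 : ℤ) (m + 1) ×ˢ Icc (1 : ℤ) n).filter
      fun v => gl n bL bR d d' v.1 v.2 = 1 := ⟨_, rfl⟩
  rw [← hS, ← hE]
  have mS : ∀ v, v ∈ S ↔ d v.1 v.2 = 1 := by
    intro v
    rw [hS, mem_filter]
    exact ⟨fun h => h.2, fun h => ⟨hin v.1 v.2 h, h⟩⟩
  obtain ⟨A, hA⟩ : ∃ A, A = S.filter fun v => (f v).1 ≤ b (f v).2 + 1 := ⟨_, rfl⟩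
  obtain ⟨B, hB⟩ : ∃ B, B = S.filter fun v => b v.2 + 1 ≤ v.1 := ⟨_, rfl⟩
  have mA : ∀ v, v ∈ A ↔ d v.1 v.2 = 1 ∧ (f v).1 ≤ b (f v).2 + 1 := fun v => by
    rw [hA, mem_filter, mS]
  have mB : ∀ v, v ∈ B ↔ d v.1 v.2 = 1 ∧ b v.2 + 1 ≤ v.1 := fun v => by
    rw [hB, mem_filter, mS]
  have h1 : E ⊆ A.image f ∪ B.image fun v => (v.1 + 1, v.2) := by
    intro w hw
    rw [hE, mem_filter, hgl] at hw
    rw [mem_union, mem_image, mem_image]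
    obtain ⟨-, hw⟩ := hw
    split_ifs at hw with h2
    · left
      obtain ⟨v, hv1, hv2⟩ := hf.surj w hw
      exact ⟨v, (mA v).2 ⟨hv1, by rw [hv2]; exact h2⟩, hv2⟩
    · right
      have h3 : b w.2 + 1 ≤ w.1 - 1 := by omega
      refine ⟨(w.1 - 1, w.2), (mB _).2 ⟨hw, h3⟩, ?_⟩
      exact Prod.ext (by simp) rfl
  have h2 : #E ≤ #A + #B :=
    ((card_le_card h1).trans (card_union_le _ _)).trans
      (Nat.add_le_add card_image_le card_image_le)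
  have h3 : #(A ∪ B) + #(A ∩ B) = #A + #B := card_union_add_card_inter A B
  have h4 : #(A ∪ B) ≤ #S := by
    apply card_le_card
    intro v hv
    rw [mem_union, mA, mB] at hv
    rw [mS]
    rcases hv with hv | hv
    · exact hv.1
    · exact hv.1
  -- the intersection
  have mX : ∀ v ∈ A ∩ B, d v.1 v.2 = 1 ∧ b v.2 + 1 ≤ v.1 ∧ (f v).1 ≤ b (f v).2 + 1 ∧
      1 ≤ v.2 ∧ v.2 ≤ n ∧ ((f v).1 ≤ v.1 + 1 ∧ v.1 ≤ (f v).1 + 1 ∧ (f v).2 ≤ v.2 + 1 ∧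
        v.2 ≤ (f v).2 + 1) := by
    intro v hv
    rw [mem_inter, mA, mB] at hv
    obtain ⟨⟨k1, k2⟩, -, k3⟩ := hv
    have k4 := hin v.1 v.2 k1
    rw [mem_product, mem_Icc, mem_Icc] at k4
    exact ⟨k1, k3, k2, k4.2.1, k4.2.2, ExCnt_nb (hf.nb v k1)⟩
  have hmid : ∀ v ∈ A ∩ B, v.2 ≤ 10 ∨ n - 9 ≤ v.2 := by
    intro v hv
    obtain ⟨k1, k2, k3, k4, k5, k6, k7, k8, k9⟩ := mX v hv
    by_contra hcon
    have j1 := hb1 v.2
    have j2 := hb1 (f v).2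
    have j3 := hG.down v.1 v.2 (by omega) (by omega) (by omega) (by omega) k1
    have j4 : f v = (v.1 + 1, v.2) := j3
    rw [j4] at k3
    have j5 : v.1 + 1 ≤ b v.2 + 1 := k3
    omega
  have hXL : (#((A ∩ B).filter fun v => v.2 ≤ 10) : ℤ) ≤ 1 := by
    refine ExCnt_side (D := d) (F := f) (b := bL) hgL.2.2 _ id Function.injective_id ?_
    intro v hv
    rw [mem_filter] at hv
    obtain ⟨k1, k2, k3, k4, k5, k6, k7, k8, k9⟩ := mX v hv.1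
    have j0 := hv.2
    rw [hbl v.2 (by omega)] at k2
    rw [hbl (f v).2 (by omega)] at k3
    refine ⟨k4, j0, k1, k3, ?_⟩
    change v.1 = bL + 1 ∨ v.1 = bL + 2
    omega
  have hXR : (#((A ∩ B).filter fun v => ¬ v.2 ≤ 10) : ℤ) ≤ 1 := by
    refine ExCnt_side (D := rf n d) (F := rff n f) (b := bR) hgR.2.2 _
      (fun v => (v.1, n + 1 - v.2)) ?_ ?_
    · intro v w h
      have h' : (v.1, n + 1 - v.2) = (w.1, n + 1 - w.2) := h
      rw [Prod.mk.injEq] at h'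
      exact Prod.ext h'.1 (by omega)
    intro v hv
    rw [mem_filter] at hv
    obtain ⟨k1, k2, k3, k4, k5, k6, k7, k8, k9⟩ := mX v hv.1
    have j0 : n - 9 ≤ v.2 := (hmid v hv.1).resolve_left hv.2
    rw [hbr v.2 (by omega)] at k2
    rw [hbr (f v).2 (by omega)] at k3
    have e1 : n + 1 - (n + 1 - v.2) = v.2 := by omega
    refine ⟨?_, ?_, ?_, ?_, ?_⟩
    · change 1 ≤ n + 1 - v.2
      omega
    · change n + 1 - v.2 ≤ 10
      omega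
    · change d v.1 (n + 1 - (n + 1 - v.2)) = 1
      rw [e1]
      exact k1
    · change (f (v.1, n + 1 - (n + 1 - v.2))).1 ≤ bR + 1
      rw [e1]
      exact k3
    · change v.1 = bR + 1 ∨ v.1 = bR + 2
      omega
  have h5 := card_filter_add_card_filter_not (s := A ∩ B) fun v => v.2 ≤ 10
  omega

end PatGap
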