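import Pool.Agent.H.MP_b28609_co.Gap.Ex.StmtL

/-!
# MP_b28609_co, exact theorem: the glued set is dominating
-/

set_option autoImplicit false

namespace PatGap

/-- above the seam the glued set is `d'` -/
theorem gl_le {n bL bR : ℤ} {d d' : ℤ → ℤ → ℤ} {i j : ℤ} (hL : i ≤ bL + 1) (hR : i ≤ bR + 1) :
    gl n bL bR d d' i j = d' i j := by
  unfold gl
  rw [if_pos]
  by_cases h : 2 * j ≤ n
  · rw [if_pos h]
    exact hL
  · rw [if_neg h]
    exact hR

/-- below the seam the glued set is `d`, shifted -/
theorem gl_gt {n bL bR : ℤ} {d d' : ℤ → ℤ → ℤ} {i j : ℤ} (hL : bL + 1 < i) (hR : bR + 1 < i) :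
    gl n bL bR d d' i j = d (i - 1) j := by
  unfold gl
  rw [if_neg]
  by_cases h : 2 * j ≤ n
  · rw [if_pos h]
    exact not_le.2 hL
  · rw [if_neg h]
    exact not_le.2 hR

theorem gl_left {n bL bR : ℤ} {d d' : ℤ → ℤ → ℤ} (i j : ℤ) (hj : 2 * j ≤ n) :
    gl n bL bR d d' i j = gl n bL bL d d' i j := by
  unfold gl
  rw [if_pos hj, if_pos hj]

theorem gl_right {n bL bR : ℤ} {d d' : ℤ → ℤ → ℤ} (i j : ℤ) (hj : ¬ 2 * j ≤ n) :
    gl n bL bR d d' i j = gl n bR bR d d' i j := by
  unfold gl
  rw [if_neg hj, if_neg hj]

/-- gluing in one row: domination, if the two inequalities of a good row hold -/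
theorem gl_one {m n b : ℤ} {d d' : ℤ → ℤ → ℤ} (hd : DomG m n d) (hd' : DomG m n d') {i j : ℤ}
    (hi : 1 ≤ i) (hi2 : i ≤ m + 1) (hj : 1 ≤ j) (hj2 : j ≤ n) (hb : 1 ≤ b) (hbm : b ≤ m)
    (h1 : 1 ≤ d' b j + d' (b + 1) j + d' (b + 1) (j - 1) + d' (b + 1) (j + 1) + d (b + 1) j)
    (h2 : 1 ≤ d' (b + 1) j + d (b + 1) j + d (b + 1) (j - 1) + d (b + 1) (j + 1) + d (b + 2) j) :
    1 ≤ a (gl n b b d d') i j := by
  unfold a
  rcases le_or_gt i b with h | h
  · rw [gl_le (by omega) (by omega), gl_le (by omega) (by omega), gl_le (by omega) (by omega),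
      gl_le (by omega) (by omega), gl_le (by omega) (by omega)]
    exact hd'.2.2 i j hi (by omega) hj hj2
  · rcases le_or_gt (b + 3) i with h3 | h3
    · rw [gl_gt (by omega) (by omega), gl_gt (by omega) (by omega), gl_gt (by omega) (by omega),
        gl_gt (by omega) (by omega), gl_gt (by omega) (by omega)]
      have h4 := hd.2.2 (i - 1) j (by omega) (by omega) hj hj2
      unfold a at h4
      rw [show i + 1 - 1 = i - 1 + 1 by ring]
      exact h4
    · obtain rfl | rfl : i = b + 1 ∨ i = b + 2 := by omega
      · rw [gl_le (i := b + 1) (by omega) (by omega), gl_le (i := b + 1 - 1) (by omega) (by omega),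
          gl_gt (i := b + 1 + 1) (by omega) (by omega), gl_le (i := b + 1) (by omega) (by omega),
          gl_le (i := b + 1) (by omega) (by omega)]
        rw [show b + 1 - 1 = b by ring, show b + 1 + 1 - 1 = b + 1 by ring]
        linarith
      · rw [gl_gt (i := b + 2) (by omega) (by omega), gl_le (i := b + 2 - 1) (by omega) (by omega),
          gl_gt (i := b + 2 + 1) (by omega) (by omega), gl_gt (i := b + 2) (by omega) (by omega),
          gl_gt (i := b + 2) (by omega) (by omega)]
        rw [show b + 2 - 1 = b + 1 by ring, show b + 2 + 1 - 1 = b + 2 by ring]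
        linarith

/-- in the clean middle both descriptions agree -/
theorem gl_mid {n bL bR r s c : ℤ} {d d' : ℤ → ℤ → ℤ} {f : ℤ × ℤ → ℤ × ℤ} (hB : Bin d)
    (hB' : Bin d') (hg : Gd n d d' f s c r) {i j : ℤ} (hi : r + 6 ≤ i) (hi2 : i ≤ r + 235)
    (hj : 10 ≤ j) (hj2 : j ≤ n - 9) : gl n bL bR d d' i j = d' i j := by
  have h1 := hg.lat (i - 1) j (by omega) (by omega) hj hj2
  have h2 := hg.lat' i j (by omega) (by omega) hj hj2
  have hc0 := hg.c0
  have hc4 := hg.c4
  have h3 : d (i - 1) j = d' i j := by
    rcases hB (i - 1) j with h4 | h4 <;> rcases hB' i j with h5 | h5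
    · rw [h4, h5]
    · exfalso
      have h6 := h2.1 h5
      have h7 : (i - 1 + s * j) % 5 = c := by omega
      have h8 := h1.2 h7
      omega
    · exfalso
      have h6 := h1.1 h4
      have h7 : (i + s * j) % 5 = (c + 1) % 5 := by omega
      have h8 := h2.2 h7
      omega
    · rw [h4, h5]
  unfold gl
  split_ifs
  · rfl
  · exact h3
  · rfl
  · exact h3

theorem exDom : ExDomStmt := by
  intro m n d d' f r s c bL bR hd hd' _ hn hr hm hg hbL hbL2 hbR hbR2 hGL hGR
  refine ⟨?_, ?_, ?_⟩
  · intro i j
    unfold gl
    split_ifs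
    · exact hd'.1 i j
    · exact hd.1 (i - 1) j
    · exact hd'.1 i j
    · exact hd.1 (i - 1) j
  · intro i j hij
    have h1 : d' i j = 0 := hd'.2.1 i j fun h => hij ⟨h.1, by omega, h.2.2.1, h.2.2.2⟩
    have h2 : d (i - 1) j = 0 := by
      refine hd.2.1 (i - 1) j fun h => hij ⟨?_, ?_, h.2.2.1, h.2.2.2⟩
      · have := h.1
        omega
      · have := h.2.1
        omega
    unfold gl
    split_ifs
    · exact h1
    · exact h2
    · exact h1
    · exact h2
  · intro i j hi hi2 hj hj2
    rcases le_or_gt j 10 with hj10 | hj10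
    · -- left side
      have h := gl_one (b := bL) hd hd' hi hi2 hj hj2 (by omega) (by omega) (hGL.1 j hj hj10)
        (hGL.2.1 j hj hj10)
      unfold a at h ⊢
      rw [gl_left (bR := bR) i j (by omega), gl_left (bR := bR) (i - 1) j (by omega),
        gl_left (bR := bR) (i + 1) j (by omega), gl_left (bR := bR) i (j - 1) (by omega),
        gl_left (bR := bR) i (j + 1) (by omega)]
      exact h
    · rcases le_or_gt (n - 9) j with hjn | hjn
      · -- right side
        have e1 := hGR.1 (n + 1 - j) (by omega) (by omega)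
        have e2 := hGR.2.1 (n + 1 - j) (by omega) (by omega)
        unfold rf at e1 e2
        rw [show n + 1 - (n + 1 - j) = j by ring, show n + 1 - (n + 1 - j - 1) = j + 1 by ring,
          show n + 1 - (n + 1 - j + 1) = j - 1 by ring] at e1 e2
        have h := gl_one (b := bR) hd hd' hi hi2 hj hj2 (by omega) (by omega) (by linarith)
          (by linarith)
        unfold a at h ⊢
        rw [gl_right (bL := bL) i j (by omega), gl_right (bL := bL) (i - 1) j (by omega),
          gl_right (bL := bL) (i + 1) j (by omega), gl_right (bL := bL) i (j - 1) (by omega),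
          gl_right (bL := bL) i (j + 1) (by omega)]
        exact h
      · -- middle
        rcases lt_or_ge i (r + 7) with h7 | h7
        · unfold a
          rw [gl_le (by omega) (by omega), gl_le (by omega) (by omega),
            gl_le (by omega) (by omega), gl_le (by omega) (by omega), gl_le (by omega) (by omega)]
          exact hd'.2.2 i j hi (by omega) hj hj2
        · rcases le_or_gt i (r + 230) with h8 | h8
          · unfold a
            rw [gl_mid hd.1 hd'.1 hg (by omega) (by omega) (by omega) (by omega),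
              gl_mid hd.1 hd'.1 hg (by omega) (by omega) (by omega) (by omega),
              gl_mid hd.1 hd'.1 hg (by omega) (by omega) (by omega) (by omega),
              gl_mid hd.1 hd'.1 hg (by omega) (by omega) (by omega) (by omega),
              gl_mid hd.1 hd'.1 hg (by omega) (by omega) (by omega) (by omega)]
            exact hd'.2.2 i j hi (by omega) hj hj2
          · unfold a
            rw [gl_gt (by omega) (by omega), gl_gt (by omega) (by omega),
              gl_gt (by omega) (by omega), gl_gt (by omega) (by omega),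
              gl_gt (by omega) (by omega)]
            have h4 := hd.2.2 (i - 1) j (by omega) (by omega) hj hj2
            unfold a at h4
            rw [show i + 1 - 1 = i - 1 + 1 by ring]
            exact h4

end PatGap
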