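import Pool.Agent.H.MP_b28609_co.Gap.Ex.StmtL

/-!
# MP_b28609_co, exact theorem, lower bound: module ExSide

The two side strips.
-/

set_option autoImplicit false

namespace PatGap

theorem ExSide_a (n : ℤ) (d : ℤ → ℤ → ℤ) (i j : ℤ) : a (rf n d) i j = a d i (n + 1 - j) := by
  unfold a rf
  rw [show n + 1 - (j - 1) = n + 1 - j + 1 by ring, show n + 1 - (j + 1) = n + 1 - j - 1 by ring]
  ring

theorem ExSide_mv {d d' : ℤ → ℤ → ℤ} {f : ℤ × ℤ → ℤ × ℤ} (n : ℤ) (h : Mv d d' f) :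
    Mv (rf n d) (rf n d') (rff n f) := by
  refine ⟨?_, ?_, ?_, ?_⟩
  · intro v hv
    have h1 := h.mem (v.1, n + 1 - v.2) hv
    change d' (f (v.1, n + 1 - v.2)).1 (n + 1 - (n + 1 - (f (v.1, n + 1 - v.2)).2)) = 1
    rwa [show n + 1 - (n + 1 - (f (v.1, n + 1 - v.2)).2) = (f (v.1, n + 1 - v.2)).2 by ring]
  · intro v hv
    have h1 := h.nb (v.1, n + 1 - v.2) hv
    unfold Nb at h1 ⊢
    change ((f (v.1, n + 1 - v.2)).1 = v.1 ∧ (n + 1 - (f (v.1, n + 1 - v.2)).2 = v.2 + 1 ∨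
      n + 1 - (f (v.1, n + 1 - v.2)).2 = v.2 - 1)) ∨
      (n + 1 - (f (v.1, n + 1 - v.2)).2 = v.2 ∧ ((f (v.1, n + 1 - v.2)).1 = v.1 + 1 ∨
        (f (v.1, n + 1 - v.2)).1 = v.1 - 1))
    simp only at h1
    omega
  · intro v w hv hw hvw
    unfold rff at hvw
    rw [Prod.mk.injEq] at hvw
    have h1 : f (v.1, n + 1 - v.2) = f (w.1, n + 1 - w.2) :=
      Prod.ext hvw.1 (by linarith [hvw.2])
    have h2 := h.inj (v.1, n + 1 - v.2) (w.1, n + 1 - w.2) hv hw h1
    rw [Prod.mk.injEq] at h2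
    exact Prod.ext h2.1 (by linarith [h2.2])
  · intro w hw
    obtain ⟨v, hv, hfv⟩ := h.surj (w.1, n + 1 - w.2) hw
    refine ⟨(v.1, n + 1 - v.2), ?_, ?_⟩
    · change d v.1 (n + 1 - (n + 1 - v.2)) = 1
      rwa [show n + 1 - (n + 1 - v.2) = v.2 by ring]
    · unfold rff
      change ((f (v.1, n + 1 - (n + 1 - v.2))).1, n + 1 - (f (v.1, n + 1 - (n + 1 - v.2))).2) = w
      rw [show n + 1 - (n + 1 - v.2) = v.2 by ring, show (v.1, v.2) = v from rfl, hfv]
      exact Prod.ext rfl (by ring)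

theorem ExSide_lat {n : ℤ} {d : ℤ → ℤ → ℤ} {s c c2 r1 r2 r3 r4 : ℤ} (hs : s = 2 ∨ s = 3)
    (hn : 60 ≤ n) (h : Lat d s c r1 r2 10 (n - 9)) (h13 : r1 ≤ r3) (h42 : r4 ≤ r2)
    (hc0 : 0 ≤ c) (hc4 : c ≤ 4) (hc2 : c2 = (c - s * (n + 1)) % 5) :
    Lat (rf n d) (5 - s) c2 r3 r4 10 13 := by
  intro i j h1 h2 h3 h4
  have h5 := h i (n + 1 - j) (by omega) (by omega) (by omega) (by omega)
  unfold rf
  rw [h5, hc2]
  rcases hs with rfl | rfl
  · omega
  · omega

theorem exSide : ExSideStmt := by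
  intro m n d d' f r s c hd hd' hf hn hr hm hC hC' hG
  obtain ⟨hb, hz, hD⟩ := hd
  obtain ⟨hb', hz', hD'⟩ := hd'
  refine ⟨⟨hb, hb', hf, fun i j hj => hz i j (by omega), fun i j hj => hz' i j (by omega),
    fun i j h1 h2 h3 h4 => hD i j (by omega) (by omega) h3 (by omega),
    fun i j h1 h2 h3 h4 => hD' i j (by omega) (by omega) h3 (by omega),
    fun i h1 h2 => (hC.1 i (by omega) (by omega)).1,
    fun i h1 h2 => (hC'.1 i (by omega) (by omega)).1, hG.slope,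
    fun i j h1 h2 h3 h4 => hG.lat i j (by omega) (by omega) h3 (by omega),
    fun i j h1 h2 h3 h4 => hG.lat' i j (by omega) (by omega) h3 (by omega), hG.c0, hG.c4,
    fun i j h1 h2 h3 h4 => hG.down i j (by omega) (by omega) (by omega) (by omega)⟩,
    (c - s * (n + 1)) % 5, ?_⟩
  refine ⟨fun i j => hb i (n + 1 - j), fun i j => hb' i (n + 1 - j), ExSide_mv n hf,
    fun i j hj => hz i (n + 1 - j) (by omega), fun i j hj => hz' i (n + 1 - j) (by omega),
    ?_, ?_, fun i h1 h2 => (hC.2 i (by omega) (by omega)).1,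
    fun i h1 h2 => (hC'.2 i (by omega) (by omega)).1, ?_, ?_, ?_, ?_, ?_, ?_⟩
  · intro i j h1 h2 h3 h4
    rw [ExSide_a]
    exact hD i (n + 1 - j) (by omega) (by omega) (by omega) (by omega)
  · intro i j h1 h2 h3 h4
    rw [ExSide_a]
    exact hD' i (n + 1 - j) (by omega) (by omega) (by omega) (by omega)
  · rcases hG.slope with h | h <;> omega
  · exact ExSide_lat hG.slope hn hG.lat (by omega) (by omega) hG.c0 hG.c4 rfl
  · refine ExSide_lat hG.slope hn hG.lat' (by omega) (by omega) (by omega) (by omega) ?_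
    omega
  · omega
  · omega
  · intro i j h1 h2 h3 h4 h5
    have h6 := hG.down i (n + 1 - j) (by omega) (by omega) (by omega) (by omega) h5
    unfold rff
    change ((f (i, n + 1 - j)).1, n + 1 - (f (i, n + 1 - j)).2) = (i + 1, j)
    rw [h6]
    exact Prod.ext rfl (by ring)

end PatGap
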