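import Pool.Agent.H.MP_b28609_co.Gap.Ex.PairU

/-!
# MP_b28609_co, exact theorem: module ExStrip
-/

set_option autoImplicit false
set_option maxRecDepth 100000

namespace PatGap

open Side

namespace Ex

open PatDom.V2 (allSub allSub_sound)

theorem row_of_lat (d : ℤ → ℤ → ℤ) (S : ℕ) (hS : S = 2 ∨ S = 3) (c r1 r2 : ℤ) (h0 : 0 ≤ c) (h4 : c ≤ 4)
    (h : Lat d S c r1 r2 10 13) (l : ℤ) (h1 : r1 ≤ l) (h2 : l ≤ r2) (φ : ℕ)
    (hφ : (φ : ℤ) = (l - c) % 5) : Row d S φ l := by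
  have a10 := h l 10 h1 h2 (by omega) (by omega)
  have a11 := h l 11 h1 h2 (by omega) (by omega)
  unfold Row
  rw [a10, a11]
  rcases hS with rfl | rfl
  · constructor <;> constructor <;> intro h5 <;> push_cast at * <;> omega
  · constructor <;> constructor <;> intro h5 <;> push_cast at * <;> omega

theorem mem2 (d : ℤ → ℤ → ℤ) (hb : Bin d) (hz0 : ∀ i j, j ≤ 0 → d i j = 0) (c r W : ℤ)
    (h0 : 0 ≤ c) (h4 : c ≤ 4) (h : Lat d ((2 : ℕ) : ℤ) c r (r + W) 10 13)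
    (hdom : ∀ i j, r ≤ i → i ≤ r + W → 1 ≤ j → j ≤ 10 → 1 ≤ a d i j)
    (ht : ∀ i, r ≤ i → i ≤ r + W → sg Gs d i = 0) (l : ℤ) (h1 : r + 5 ≤ l) (h2 : l + 12 ≤ r + W)
    (φ : ℕ) (hφ : (φ : ℤ) = (l - c) % 5) : dt d l ∈ pl2 φ := by
  have hφ5 : φ < 5 := by omega
  have hal := alive2 d hb hz0 (l + (12 - φ))
    (fun x y h5 h6 h7 h8 => hdom x y (by omega) (by omega) h7 h8)
    (fun x h5 h6 => ht x (by omega) (by omega))
    (fun k hk => row_of_lat d 2 (Or.inl rfl) c r (r + W) h0 h4 h _ (by omega) (by omega) _ (by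
      have : (((17 - k) % 5 : ℕ) : ℤ) = (17 - (k : ℤ)) % 5 := by omega
      rw [this]
      omega))
  obtain ⟨m8, m9, m10, m11, m12⟩ := hal
  have hc : φ = 0 ∨ φ = 1 ∨ φ = 2 ∨ φ = 3 ∨ φ = 4 := by omega
  rcases hc with rfl | rfl | rfl | rfl | rfl
  · rw [show l + (12 - ((0 : ℕ) : ℤ)) - 12 = l by push_cast; ring] at m12
    exact inP_sound _ _ in2_0 d l m12
  · rw [show l + (12 - ((1 : ℕ) : ℤ)) - 11 = l by push_cast; ring] at m11
    exact inP_sound _ _ in2_1 d l m11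
  · rw [show l + (12 - ((2 : ℕ) : ℤ)) - 10 = l by push_cast; ring] at m10
    exact inP_sound _ _ in2_2 d l m10
  · rw [show l + (12 - ((3 : ℕ) : ℤ)) - 9 = l by push_cast; ring] at m9
    exact inP_sound _ _ in2_3 d l m9
  · rw [show l + (12 - ((4 : ℕ) : ℤ)) - 8 = l by push_cast; ring] at m8
    exact inP_sound _ _ in2_4 d l m8

theorem mem3 (d : ℤ → ℤ → ℤ) (hb : Bin d) (hz0 : ∀ i j, j ≤ 0 → d i j = 0) (c r W : ℤ)
    (h0 : 0 ≤ c) (h4 : c ≤ 4) (h : Lat d ((3 : ℕ) : ℤ) c r (r + W) 10 13)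
    (hdom : ∀ i j, r ≤ i → i ≤ r + W → 1 ≤ j → j ≤ 10 → 1 ≤ a d i j)
    (ht : ∀ i, r ≤ i → i ≤ r + W → sg Gs d i = 0) (l : ℤ) (h1 : r + 5 ≤ l) (h2 : l + 12 ≤ r + W)
    (φ : ℕ) (hφ : (φ : ℤ) = (l - c) % 5) : dt d l ∈ pl3 φ := by
  have hφ5 : φ < 5 := by omega
  have hal := alive3 d hb hz0 (l + (12 - φ))
    (fun x y h5 h6 h7 h8 => hdom x y (by omega) (by omega) h7 h8)
    (fun x h5 h6 => ht x (by omega) (by omega))
    (fun k hk => row_of_lat d 3 (Or.inr rfl) c r (r + W) h0 h4 h _ (by omega) (by omega) _ (by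
      have : (((17 - k) % 5 : ℕ) : ℤ) = (17 - (k : ℤ)) % 5 := by omega
      rw [this]
      omega))
  obtain ⟨m8, m9, m10, m11, m12⟩ := hal
  have hc : φ = 0 ∨ φ = 1 ∨ φ = 2 ∨ φ = 3 ∨ φ = 4 := by omega
  rcases hc with rfl | rfl | rfl | rfl | rfl
  · rw [show l + (12 - ((0 : ℕ) : ℤ)) - 12 = l by push_cast; ring] at m12
    exact inP_sound _ _ in3_0 d l m12
  · rw [show l + (12 - ((1 : ℕ) : ℤ)) - 11 = l by push_cast; ring] at m11
    exact inP_sound _ _ in3_1 d l m11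
  · rw [show l + (12 - ((2 : ℕ) : ℤ)) - 10 = l by push_cast; ring] at m10
    exact inP_sound _ _ in3_2 d l m10
  · rw [show l + (12 - ((3 : ℕ) : ℤ)) - 9 = l by push_cast; ring] at m9
    exact inP_sound _ _ in3_3 d l m9
  · rw [show l + (12 - ((4 : ℕ) : ℤ)) - 8 = l by push_cast; ring] at m8
    exact inP_sound _ _ in3_4 d l m8

theorem strip_gen (P : ℕ → List Ent) (hinit : init P 10 2 = true)
    (d d' : ℤ → ℤ → ℤ) (f : ℤ × ℤ → ℤ × ℤ) (s c r : ℤ) (hS : Strip d d' f s c r 60)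
    (hm : ∀ (l : ℤ), r + 5 ≤ l → l + 12 ≤ r + 60 → ∀ φ : ℕ, (φ : ℤ) = (l - c) % 5 → dt d l ∈ P φ)
    (hm' : ∀ (l : ℤ), r + 5 ≤ l → l + 12 ≤ r + 60 → ∀ φ : ℕ, (φ : ℤ) = (l - (c + 1) % 5) % 5 →
      dt d' l ∈ P φ) :
    ∃ b, r + 2 ≤ b ∧ b + 3 ≤ r + 60 ∧ GoodRow d d' f b := by
  obtain ⟨i, hi1, hi2, hi3⟩ : ∃ i, r + 5 ≤ i ∧ i ≤ r + 9 ∧ (i - c) % 5 = 2 :=
    ⟨r + 5 + (2 - (r + 5 - c)) % 5, by omega, by omega, by omega⟩
  have hc0 := hS.c0
  have hc4 := hS.c4
  have hF : ∀ k : ℕ, k < 10 → Fac d d' f (i + k) := by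
    intro k hk
    refine ⟨⟨hS.bin, hS.bin', hS.mv, hS.zero, hS.zero', ?_⟩, ?_, ?_, ?_, ?_, ?_⟩
    · intro l j h1 h2 h3 h4 h5
      exact hS.down l j (by omega) (by omega) h3 (by omega) h5
    · intro j h1 h2
      exact hS.dom _ j (by omega) (by omega) h1 h2
    · intro j h1 h2
      exact hS.dom _ j (by omega) (by omega) h1 h2
    · intro j h1 h2
      exact hS.dom' _ j (by omega) (by omega) h1 h2
    · exact hS.tight _ (by omega) (by omega)
    · exact hS.tight' _ (by omega) (by omega)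
  have hP : ∀ k : ℕ, k ≤ 10 → dt d (i + k) ∈ P ((2 + k) % 5) ∧ dt d' (i + k) ∈ P ((2 + k + 4) % 5) := by
    intro k hk
    refine ⟨hm _ (by omega) (by omega) _ ?_, hm' _ (by omega) (by omega) _ ?_⟩
    · push_cast
      omega
    · push_cast
      omega
  have hf : Fac d d' f i := by
    have := hF 0 (by omega)
    rwa [Nat.cast_zero, add_zero] at this
  have hP0 := hP 0 (by omega)
  simp only [Nat.cast_zero, add_zero] at hP0
  have h' : ((P 2).all fun x => (P ((2 + 4) % 5)).all fun z =>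
    allSub 10 (1023 &&& x.1) 0 fun U => allSub 10 (1023 &&& z.1) 0 fun V =>
      srch P 10 2 x z (U ||| (x.1 &&& 1024)) V) = true := hinit
  have h1 := (List.all_eq_true.mp ((List.all_eq_true.mp h') _ hP0.1)) _ hP0.2
  have hU10 : (i : ℤ) = i := rfl
  have h2 := allSub_sound _ _ _ _ h1 (Um d f i &&& 1023) (lt_of_le_of_lt Nat.and_le_right (by norm_num))
    (by
      intro k hk
      rw [Nat.testBit_and, Bool.and_eq_true, Um_bit, Bool.and_eq_true, decide_eq_true_eq,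
        decide_eq_true_eq] at hk
      obtain ⟨⟨a1, a2, -⟩, a3⟩ := hk
      change (1023 &&& om d i).testBit k = true
      rw [Nat.testBit_and, a3, om_bit]
      simp [a1, a2])
  rw [Nat.zero_or] at h2
  have hV : ∀ k, (Vm d f i).testBit k = true → k < 10 ∧ d' i (k + 1) = 1 := by
    intro k hk
    rw [Vm_bit, Bool.and_eq_true, decide_eq_true_eq, decide_eq_true_eq] at hk
    obtain ⟨a1, a2, a3⟩ := hk
    constructor
    · by_contra hcc
      have h10 : k = 10 := by omega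
      subst h10
      have h4 := hf.mot.down (i + 1) (((10 : ℕ) : ℤ) + 1) (by omega) (by omega) (by norm_num)
        (by norm_num) a2
      rw [a3, Prod.mk.injEq] at h4
      omega
    · have := hf.mot.mv.mem (i + 1, k + 1) a2
      rwa [a3] at this
  have h3 := allSub_sound _ _ _ _ h2 (Vm d f i) (lt_of_bits _ _ fun k hk => (hV k hk).1)
    (by
      intro k hk
      obtain ⟨a1, a2⟩ := hV k hk
      have a3 : k < 11 := by omega
      change (1023 &&& om d' i).testBit k = true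
      rw [Nat.testBit_and, bit1023, om_bit]
      simp [a1, a2, a3])
  rw [Nat.zero_or] at h3
  have hU : (Um d f i &&& 1023) ||| (om d i &&& 1024) = Um d f i := by
    apply Nat.eq_of_testBit_eq
    intro k
    have e : (1024 : ℕ).testBit k = decide (10 = k) := by
      rw [show (1024 : ℕ) = 2 ^ 10 from rfl, Nat.testBit_two_pow]
    rw [Nat.testBit_or, Nat.testBit_and, Nat.testBit_and, e, bit1023, om_bit, Um_bit]
    by_cases hk : k < 10
    · have hk1 : ¬ 10 = k := by omega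
      simp [hk, hk1]
    · by_cases hk2 : 10 = k
      · subst hk2
        by_cases hd : d i (((10 : ℕ) : ℤ) + 1) = 1
        · have h4 := hf.mot.down i (((10 : ℕ) : ℤ) + 1) (by omega) (by omega) (by norm_num)
            (by norm_num) hd
          rw [h4]
          simp
        · norm_num at hd
          simp [hd]
      · have hk3 : ¬ k < 11 := by omega
        simp [hk, hk2, hk3]
  change srch P 10 2 (dt d i) (dt d' i) ((Um d f i &&& 1023) ||| (om d i &&& 1024)) (Vm d f i) = true at h3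
  rw [hU] at h3
  obtain ⟨b, hb1, hb2, hb3⟩ := srch_sound P 10 2 i (by omega) hF hP h3
  exact ⟨b, by omega, by push_cast at hb2; omega, hb3⟩

end Ex

open Ex

/-- Module ExStrip. -/
theorem exStrip : ExStripStmt := by
  intro d d' f s c r hS
  have hc0 := hS.c0
  have hc4 := hS.c4
  have hl := hS.lat
  have hl' := hS.lat'
  rcases hS.slope with h2 | h2
  · subst h2
    exact strip_gen pl2 init2 d d' f 2 c r hS
      (fun l h3 h4 φ hφ => mem2 d hS.bin hS.zero c r 60 hc0 hc4 hl hS.dom hS.tight l h3 h4 φ hφ)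
      (fun l h3 h4 φ hφ => mem2 d' hS.bin' hS.zero' ((c + 1) % 5) r 60 (by omega) (by omega) hl'
        hS.dom' hS.tight' l h3 h4 φ hφ)
  · subst h2
    exact strip_gen pl3 init3 d d' f 3 c r hS
      (fun l h3 h4 φ hφ => mem3 d hS.bin hS.zero c r 60 hc0 hc4 hl hS.dom hS.tight l h3 h4 φ hφ)
      (fun l h3 h4 φ hφ => mem3 d' hS.bin' hS.zero' ((c + 1) % 5) r 60 (by omega) (by omega) hl'
        hS.dom' hS.tight' l h3 h4 φ hφ)

end PatGap
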