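import Pool.Agent.H.MP_b28609_co.Gap.Ex.Stmt

/-!
# MP_b28609_co, exact theorem: the explicit potential, tight rows
-/

set_option autoImplicit false

namespace PatGap

open Side

theorem T_step {T : ℕ → (ℕ → ℕ) → ℤ} (hT : TabProp T) (d : ℤ → ℤ → ℤ) (hb : Bin d)
    (hz : ∀ i j, j ≤ 0 → d i j = 0) (i : ℤ) (hdom : ∀ j, 1 ≤ j → j ≤ 10 → 1 ≤ a d (i - 1) j)
    (j : ℕ) (hj : j ≤ 10) : T (j + 1) (pf d i (j + 1)) ≤ T j (pf d i j) + cw j * d i (j + 1) := by
  rcases hb i (j + 1) with h0 | h1
  · rw [h0, mul_zero, add_zero]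
    have hne : d i (j + 1) ≠ 1 := by omega
    have e : T (j + 1) (pf d i (j + 1)) = T (j + 1) (up0 j (pf d i j)) :=
      hT.ext _ _ _ (fun k hk => pf_up0 d hz i j hne k hk)
    rw [e]
    refine hT.s0 j _ hj (ok_pf d i j) ?_
    intro hj9 h2
    unfold pf at h2
    rw [if_neg (by omega), st_two] at h2
    obtain ⟨h3, -, h4, h5, h6⟩ := h2
    have ha := hdom (j + 1) (by omega) (by omega)
    unfold a at ha
    have e1 : d (i - 1) (j + 1) = 0 := (hb _ _).resolve_right h3
    have e2 : d (i - 1) j = 0 := (hb _ _).resolve_right h4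
    have e3 : d (i - 1) (j + 2) = 0 := (hb _ _).resolve_right h5
    have e4 : d (i - 1 - 1) (j + 1) = 0 := (hb _ _).resolve_right h6
    have e5 : (i - 1 + 1) = i := by ring
    have e6 : ((j : ℤ) + 1 - 1) = j := by ring
    have e7 : ((j : ℤ) + 1 + 1) = j + 2 := by ring
    rw [e5, e6, e7, e1, e2, e3, e4, h0] at ha
    omega
  · rw [h1, mul_one]
    have e : T (j + 1) (pf d i (j + 1)) = T (j + 1) (up1 j (pf d i j)) :=
      hT.ext _ _ _ (fun k _ => pf_up1 d i j h1 k)
    rw [e]
    exact hT.s1 j _ hj (ok_pf d i j)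

theorem sideGs : SideProp Gs := by
  intro d hb hz
  have hT := tabProp
  refine ⟨?_, ?_⟩
  · intro i
    have h := hT.bd (pf d (i + 1) 0) (ok_pf d (i + 1) 0)
    have e : Side.T 0 (pf d (i + 1) 0) = Side.T 0 (st d i) := by
      apply hT.ext
      intro k _
      rw [pf_zero]
      congr 1
      ring
    rw [e] at h
    exact h
  · intro i hdom
    have step := T_step hT d hb hz i hdom
    have chain : ∀ n : ℕ, n ≤ 11 → Side.T n (pf d i n) ≤
        Side.T 0 (pf d i 0) + ∑ j ∈ Finset.range n, cw j * d i (j + 1) := by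
      intro n
      induction n with
      | zero => intro _; simp
      | succ n ih =>
        intro hn
        rw [Finset.sum_range_succ]
        have h1 := ih (by omega)
        have h2 := step n (by omega)
        linarith
    have h := chain 11 le_rfl
    have e1 : Side.T 11 (pf d i 11) = Side.T 0 (st d i) + 11 := by
      rw [hT.wrap]
      congr 1
      exact hT.ext _ _ _ (fun k hk => pf_last d i k hk)
    have e2 : Side.T 0 (pf d i 0) = Side.T 0 (st d (i - 1)) :=
      hT.ext _ _ _ (fun k _ => pf_zero d i k)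
    rw [e1, e2, ← cwid_eq] at h
    unfold sg Gs
    linarith

/-- In a tight row every cell is tight. -/
theorem tight_step (d : ℤ → ℤ → ℤ) (hb : Bin d) (hz : ∀ i j, j ≤ 0 → d i j = 0) (i : ℤ)
    (hdom : ∀ j, 1 ≤ j → j ≤ 10 → 1 ≤ a d (i - 1) j) (ht : sg Gs d i = 0)
    (j : ℕ) (hj : j ≤ 10) :
    Side.T (j + 1) (pf d i (j + 1)) = Side.T j (pf d i j) + cw j * d i (j + 1) := by
  have hT := tabProp
  have step := T_step hT d hb hz i hdom
  have key : ∀ n : ℕ, ∑ j ∈ Finset.range n, (Side.T j (pf d i j) + cw j * d i (j + 1)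
      - Side.T (j + 1) (pf d i (j + 1))) = Side.T 0 (pf d i 0) +
      ∑ j ∈ Finset.range n, cw j * d i (j + 1) - Side.T n (pf d i n) := by
    intro n
    induction n with
    | zero => simp
    | succ n ih =>
      rw [Finset.sum_range_succ, ih, Finset.sum_range_succ]
      ring
  have e1 : Side.T 11 (pf d i 11) = Side.T 0 (st d i) + 11 := by
    rw [hT.wrap]
    congr 1
    exact hT.ext _ _ _ (fun k hk => pf_last d i k hk)
  have e2 : Side.T 0 (pf d i 0) = Side.T 0 (st d (i - 1)) :=
    hT.ext _ _ _ (fun k _ => pf_zero d i k)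
  have h0 : ∑ j ∈ Finset.range 11, (Side.T j (pf d i j) + cw j * d i (j + 1)
      - Side.T (j + 1) (pf d i (j + 1))) = 0 := by
    rw [key 11, e1, e2, ← cwid_eq]
    unfold sg Gs at ht
    linarith
  have h1 := (Finset.sum_eq_zero_iff_of_nonneg (fun j hj => by
    have := step j (by have := Finset.mem_range.1 hj; omega)
    linarith)).1 h0 j (Finset.mem_range.2 (by omega))
  linarith

end PatGap
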