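import Pool.Agent.H.MP_b28609_co.Gap.Ex.Dead

/-!
# MP_b28609_co, exact theorem: lists of profiles, slope 2
-/

set_option autoImplicit false
set_option maxRecDepth 100000

namespace PatGap

open Side

namespace Ex

/-- Profiles of the rows of phase 4, 3 rows before the end. -/
def l2_3 : List ℕ :=
  [0, 2, 6, 18, 24, 54, 56, 60, 72, 162, 164, 168, 180, 216, 218, 1458, 1460, 1464, 1476, 1482, 1512
    , 1530, 2274, 2683, 2685, 2733, 39366, 39368, 39372, 39384, 39390, 39420, 39422, 39426, 39438, 39528
    , 39530, 39534, 39546, 39582, 39584, 39628, 39638, 39669, 40104, 40105, 40106, 40107, 40108, 40114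
    , 40115, 40119, 40124, 40128, 40133, 40134, 40150, 40152, 40155, 40167, 40168, 40169, 40173, 40177
    , 40178, 40179, 40182, 40184, 40186, 40187, 40196, 40200, 40258, 40259, 40260, 40261, 40265, 40266
    , 40268, 40269, 40275, 40276, 40277, 40281, 40312, 40313, 40342, 40358, 40362, 40393, 40824, 40826
    , 40830, 40842, 40848, 40878, 40896, 41563, 41564, 41581, 41582, 41586, 41589, 41591, 41635, 41636
    , 41637, 41642, 41644, 41645, 41653, 41654, 41658, 41660, 41663, 41667, 41716, 41718, 41719, 41724
    , 41725, 41726, 41727, 41728, 41734, 41735, 41739, 41770, 41771, 41772, 41775, 41787, 41788, 41789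
    , 41798, 41799, 41802, 41807, 41822, 41851, 41853, 41870, 42042, 42048, 42049, 42050, 42067, 42069
    , 42074, 42077, 42094, 42204, 42212, 42258, 42294]

/-- Profiles of the rows of phase 3, 4 rows before the end. -/
def l2_4 : List ℕ :=
  [59811, 59960, 61269, 61407, 61409, 61453, 61455, 63456, 63505, 63513, 63522, 63524, 63531, 63537
    , 63597, 63668, 63669, 63670, 63672, 63676, 63677, 63678, 63685, 63686, 63690, 63692, 63693, 63694
    , 63695, 63696, 63699, 63701, 63704, 63721, 63722, 63765, 63767, 63936, 63942, 63946, 63948, 64986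
    , 68125, 68134, 68149, 68152, 68158, 68160, 68161, 68781, 68782, 68800, 68806, 68808, 68809, 68854
    , 68860, 68862, 68863, 68878, 68881, 68887, 68889, 68890]

/-- Profiles of the rows of phase 2, 5 rows before the end. -/
def l2_5 : List ℕ :=
  [6591, 6643, 6662, 6815, 7056, 7058, 7059, 7074, 7075, 7076, 7077, 7080, 7082, 7084, 7086, 7102, 7104
    , 7105, 7119, 7212, 7213, 7293, 7345, 7348, 7364, 7368, 7455, 7456, 7463, 7471, 7557, 7588, 8049]

/-- Profiles of the rows of phase 1, 6 rows before the end. -/
def l2_6 : List ℕ :=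
  [0, 18, 486, 504, 1458, 1476, 13122, 13140, 13608, 13626, 13854, 13857, 13860, 13862, 13880, 13884
    , 13906, 13907, 13908, 13909, 13911, 13925, 13929, 13936, 13956, 14016, 14154, 14580, 14598]

/-- Profiles of the rows of phase 0, 7 rows before the end. -/
def l2_7 : List ℕ :=
  [21174, 21222, 21223, 21225, 21228, 21230, 21232, 21233, 21234, 21240, 21241, 21255, 21259, 21637
    , 22225, 22234, 22711, 22720, 22954, 22963, 28786, 28795, 29272, 29281, 29515, 29524]

/-- Profiles of the rows of phase 4, 8 rows before the end. -/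
def l2_8 : List ℕ :=
  [41563, 41582, 41654, 41719, 41724, 41725, 41726, 41728, 41735, 41739, 41770, 41789, 41851]

/-- Profiles of the rows of phase 3, 9 rows before the end. -/
def l2_9 : List ℕ :=
  [63668, 63669, 63677, 63685, 63686, 63692, 63694, 63696, 63701, 63767]

/-- Profiles of the rows of phase 2, 10 rows before the end. -/
def l2_10 : List ℕ :=
  [6591, 7074, 7076, 7077, 7080, 7086, 7212]

/-- Profiles of the rows of phase 1, 11 rows before the end. -/
def l2_11 : List ℕ :=
  [13854, 13857, 13860, 13884, 13906, 13908, 13909, 13911, 13929, 14154]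

/-- Profiles of the rows of phase 0, 12 rows before the end. -/
def l2_12 : List ℕ :=
  [21222, 21223, 21225, 21228, 21230, 21232, 21233, 21241, 21255, 21259, 21637]

end Ex

end PatGap
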