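import Pool.Agent.H.MP_b28609_co.Gap.Ex.L2

/-!
# MP_b28609_co, exact theorem: checks of the lists, slope 2
-/

set_option autoImplicit false
set_option maxRecDepth 100000

namespace PatGap

open Side

namespace Ex

theorem c2_9 : rowk (bet 2 4) 11 (fin 2 3 l2_9) (vec l2_8) = true := by decide +kernel

theorem c2_10 : rowk (bet 2 3) 11 (fin 2 2 l2_10) (vec l2_9) = true := by decide +kernel

theorem c2_11 : rowk (bet 2 2) 11 (fin 2 1 l2_11) (vec l2_10) = true := by decide +kernel

theorem c2_12 : rowk (bet 2 1) 11 (fin 2 0 l2_12) (vec l2_11) = true := by decide +kernel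

end Ex

end PatGap
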