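import Pool.Agent.H.MP_b28609_co.Gap.Ex.Dead

/-!
# MP_b28609_co, exact theorem: lists of profiles, slope 3
-/

set_option autoImplicit false
set_option maxRecDepth 100000

namespace PatGap

open Side

namespace Ex

/-- Profiles of the rows of phase 4, 3 rows before the end. -/
def l3_3 : List ℕ :=
  [0, 2, 6, 18, 24, 54, 56, 60, 162, 164, 168, 180, 216, 218, 1458, 1460, 1464, 1476, 1482, 2274, 2683
    , 2685, 2733, 39366, 39368, 39372, 39384, 39390, 39420, 39422, 39426, 39528, 39530, 39534, 39546
    , 39582, 39584, 39628, 39638, 39669, 40104, 40105, 40106, 40107, 40108, 40114, 40115, 40119, 40124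
    , 40128, 40133, 40134, 40150, 40152, 40155, 40167, 40168, 40169, 40173, 40177, 40178, 40179, 40182
    , 40184, 40186, 40187, 40196, 40200, 40258, 40259, 40260, 40261, 40265, 40266, 40268, 40269, 40275
    , 40276, 40277, 40281, 40312, 40313, 40342, 40358, 40362, 40393, 40824, 40826, 40830, 40842, 40848
    , 41563, 41564, 41581, 41582, 41586, 41635, 41636, 41637, 41642, 41644, 41645, 41653, 41654, 41658
    , 41660, 41663, 41716, 41718, 41719, 41724, 41725, 41726, 41727, 41728, 41734, 41735, 41739, 41770
    , 41771, 41772, 41775, 41787, 41788, 41789, 41798, 41799, 41802, 41807, 41822, 41851, 41853, 41870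
    , 42042, 42048, 42049, 42050, 42067, 42069, 42074, 42077, 42094, 42204, 42212, 42258, 42294]

/-- Profiles of the rows of phase 3, 4 rows before the end. -/
def l3_4 : List ℕ :=
  [0, 2, 6, 18, 54, 56, 60, 72, 162, 164, 168, 180, 486, 492, 504, 4374, 4376, 4380, 4392, 4428, 4430
    , 4434, 4446, 4536, 4538, 4542, 4554, 4860, 4866, 4878, 6643, 6644, 6646, 6648, 6652, 6662, 6670
    , 6671, 6815, 8028, 8031, 8038, 8047, 8048, 8049, 8050, 8052, 8054, 8055, 8058, 8076, 8097, 8103
    , 8104, 8111, 8118, 8119, 8124, 8126, 8128, 8130, 8184, 8190, 8191, 8193, 8201, 8514, 8516, 8533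
    , 8540, 8777, 9100, 9103, 9109, 9111, 9112, 9244, 9291, 9732, 9733, 9751, 9757, 9759, 9760, 9811
    , 9813, 9814, 9829, 9832, 9838, 9840, 9841]

/-- Profiles of the rows of phase 2, 5 rows before the end. -/
def l3_5 : List ℕ :=
  [59867, 59948, 59960, 72261, 72270, 72417, 72418, 72423, 72433, 72434, 72438, 72444, 72447, 72468
    , 72469, 72470, 72471, 72474, 72476, 72496, 72501, 72524, 72935, 73072, 73073, 73074, 73119, 76632
    , 76646, 76845]

/-- Profiles of the rows of phase 1, 6 rows before the end. -/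
def l3_6 : List ℕ :=
  [0, 2, 6, 18, 20, 24, 54, 486, 492, 1458, 1460, 1464, 1476, 1478, 1482, 1512, 2274, 2679, 2682, 2683
    , 2684, 2685, 2686, 2692, 2706, 2728, 2733, 8049, 8055, 8190]

/-- Profiles of the rows of phase 0, 7 rows before the end. -/
def l3_7 : List ℕ :=
  [24139, 24141, 24147, 24148, 24149, 24156, 24157, 24158, 24162, 24167, 24175, 24229, 28768, 28783
    , 28785, 28786, 28792, 28794, 28795, 29278, 29281, 29497, 29512, 29514, 29515, 29521, 29523, 29524]

/-- Profiles of the rows of phase 4, 8 rows before the end. -/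
def l3_8 : List ℕ :=
  [40124, 40177, 40258, 40259, 40260, 40261, 40268, 40275, 40276, 40277, 40358]

/-- Profiles of the rows of phase 3, 9 rows before the end. -/
def l3_9 : List ℕ :=
  [8048, 8049, 8050, 8052, 8054, 8055, 8058, 8076, 8190]

/-- Profiles of the rows of phase 2, 10 rows before the end. -/
def l3_10 : List ℕ :=
  [72417, 72423, 72433, 72444, 72468, 72469, 72471, 72474, 72476, 72501]

/-- Profiles of the rows of phase 1, 11 rows before the end. -/
def l3_11 : List ℕ :=
  [2274, 2679, 2682, 2683, 2684, 2686, 2692, 2706, 2733]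

/-- Profiles of the rows of phase 0, 12 rows before the end. -/
def l3_12 : List ℕ :=
  [24139, 24141, 24147, 24148, 24156, 24157, 24158, 24167, 24175, 24229]

end Ex

end PatGap
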