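import Pool.Agent.H.MP_b28609_co.Gap.Ex.L3

/-!
# MP_b28609_co, exact theorem: checks of the lists, slope 3
-/

set_option autoImplicit false
set_option maxRecDepth 100000

namespace PatGap

open Side

namespace Ex

theorem c3_3 : rowk (bet 3 2) 11 (fun Y => hz (tabG 11 + Y) && rowk (bet 3 1) 11 (fun Y =>
    hz (tabG 11 + Y) && rowk (bet 3 0) 11 (fin 3 4 l3_3) Y) Y) Ua = true := by decide +kernel

theorem c3_4 : rowk (bet 3 4) 11 (fin 3 3 l3_4) (vec l3_3) = true := by decide +kernel

end Ex

end PatGap
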