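import Pool.Agent.H.MP_b28609_co.Gap.Ex.L3

/-!
# MP_b28609_co, exact theorem: checks of the lists, slope 3
-/

set_option autoImplicit false
set_option maxRecDepth 100000

namespace PatGap

open Side

namespace Ex

theorem c3_9 : rowk (bet 3 4) 11 (fin 3 3 l3_9) (vec l3_8) = true := by decide +kernel

theorem c3_10 : rowk (bet 3 3) 11 (fin 3 2 l3_10) (vec l3_9) = true := by decide +kernel

theorem c3_11 : rowk (bet 3 2) 11 (fin 3 1 l3_11) (vec l3_10) = true := by decide +kernel

theorem c3_12 : rowk (bet 3 1) 11 (fin 3 0 l3_12) (vec l3_11) = true := by decide +kernel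

end Ex

end PatGap
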