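import Pool.Agent.H.MP_b28609_co.Gap.Ex.Alive
import Pool.Agent.H.MP_b28609_co.Gap.Ex.L2a
import Pool.Agent.H.MP_b28609_co.Gap.Ex.L2b
import Pool.Agent.H.MP_b28609_co.Gap.Ex.L2c
import Pool.Agent.H.MP_b28609_co.Gap.Ex.L3a
import Pool.Agent.H.MP_b28609_co.Gap.Ex.L3b
import Pool.Agent.H.MP_b28609_co.Gap.Ex.L3c

/-!
# MP_b28609_co, exact theorem: the profiles with a tight future of 12 rows
-/

set_option autoImplicit false
set_option maxRecDepth 100000

namespace PatGap

open Side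

namespace Ex

theorem z2_3 : (hz (vec l2_3) && hz (tabG 11 + vec l2_3)) = true := by decide +kernel

theorem z2_4 : (hz (vec l2_4) && hz (tabG 11 + vec l2_4)) = true := by decide +kernel

theorem z2_5 : (hz (vec l2_5) && hz (tabG 11 + vec l2_5)) = true := by decide +kernel

theorem z2_6 : (hz (vec l2_6) && hz (tabG 11 + vec l2_6)) = true := by decide +kernel

theorem z2_7 : (hz (vec l2_7) && hz (tabG 11 + vec l2_7)) = true := by decide +kernel

theorem z2_8 : (hz (vec l2_8) && hz (tabG 11 + vec l2_8)) = true := by decide +kernel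

theorem z2_9 : (hz (vec l2_9) && hz (tabG 11 + vec l2_9)) = true := by decide +kernel

theorem z2_10 : (hz (vec l2_10) && hz (tabG 11 + vec l2_10)) = true := by decide +kernel

theorem z2_11 : (hz (vec l2_11) && hz (tabG 11 + vec l2_11)) = true := by decide +kernel

theorem alive2 (d : ℤ → ℤ → ℤ) (hb : Bin d) (hz0 : ∀ i j, j ≤ 0 → d i j = 0) (e : ℤ)
    (hdom : ∀ l j, e - 13 ≤ l → l ≤ e → 1 ≤ j → j ≤ 10 → 1 ≤ a d l j)
    (ht : ∀ l, e - 13 ≤ l → l ≤ e → sg Gs d l = 0)
    (hr : ∀ k : ℕ, k ≤ 12 → Row d 2 ((17 - k) % 5) (e - k)) :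
    code (st d (e - 8)) 11 ∈ l2_8 ∧ code (st d (e - 9)) 11 ∈ l2_9 ∧ code (st d (e - 10)) 11 ∈ l2_10 ∧
      code (st d (e - 11)) 11 ∈ l2_11 ∧ code (st d (e - 12)) 11 ∈ l2_12 := by
  have r0 : Row d 2 2 e := by
    have := hr 0 (by omega)
    rwa [Nat.cast_zero, sub_zero] at this
  have r1 : Row d 2 1 (e - 1) := hr 1 (by omega)
  have r2 : Row d 2 0 (e - 2) := hr 2 (by omega)
  have r3 : Row d 2 4 (e - 3) := hr 3 (by omega)
  have r4 : Row d 2 3 (e - 4) := hr 4 (by omega)
  have r5 : Row d 2 2 (e - 5) := hr 5 (by omega)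
  have r6 : Row d 2 1 (e - 6) := hr 6 (by omega)
  have r7 : Row d 2 0 (e - 7) := hr 7 (by omega)
  have r8 : Row d 2 4 (e - 8) := hr 8 (by omega)
  have r9 : Row d 2 3 (e - 9) := hr 9 (by omega)
  have r10 : Row d 2 2 (e - 10) := hr 10 (by omega)
  have r11 : Row d 2 1 (e - 11) := hr 11 (by omega)
  have r12 : Row d 2 0 (e - 12) := hr 12 (by omega)
  have m3 : code (st d (e - 3)) 11 ∈ l2_3 := rows3_back 2 2 1 0 4 l2_3 c2_3 d hb hz0 e
    (fun l j h1 h2 => hdom l j (by omega) (by omega)) (fun l h1 h2 => ht l (by omega) (by omega)) r0 r1 r2 r3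
  have m4 : code (st d (e - 4)) 11 ∈ l2_4 := by
    have z := z2_3
    rw [Bool.and_eq_true] at z
    have e1 : e - 3 - 1 = e - 4 := by ring
    have h := row_back 2 4 3 l2_4 l2_3 z.1 z.2 c2_4 d hb hz0 (e - 3)
      (fun j h1 h2 => hdom _ j (by omega) (by omega) h1 h2) (ht _ (by omega) (by omega)) r3
      (by rw [e1]; exact r4) m3
    rwa [e1] at h
  have m5 : code (st d (e - 5)) 11 ∈ l2_5 := by
    have z := z2_4
    rw [Bool.and_eq_true] at z
    have e1 : e - 4 - 1 = e - 5 := by ring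
    have h := row_back 2 3 2 l2_5 l2_4 z.1 z.2 c2_5 d hb hz0 (e - 4)
      (fun j h1 h2 => hdom _ j (by omega) (by omega) h1 h2) (ht _ (by omega) (by omega)) r4
      (by rw [e1]; exact r5) m4
    rwa [e1] at h
  have m6 : code (st d (e - 6)) 11 ∈ l2_6 := by
    have z := z2_5
    rw [Bool.and_eq_true] at z
    have e1 : e - 5 - 1 = e - 6 := by ring
    have h := row_back 2 2 1 l2_6 l2_5 z.1 z.2 c2_6 d hb hz0 (e - 5)
      (fun j h1 h2 => hdom _ j (by omega) (by omega) h1 h2) (ht _ (by omega) (by omega)) r5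
      (by rw [e1]; exact r6) m5
    rwa [e1] at h
  have m7 : code (st d (e - 7)) 11 ∈ l2_7 := by
    have z := z2_6
    rw [Bool.and_eq_true] at z
    have e1 : e - 6 - 1 = e - 7 := by ring
    have h := row_back 2 1 0 l2_7 l2_6 z.1 z.2 c2_7 d hb hz0 (e - 6)
      (fun j h1 h2 => hdom _ j (by omega) (by omega) h1 h2) (ht _ (by omega) (by omega)) r6
      (by rw [e1]; exact r7) m6
    rwa [e1] at h
  have m8 : code (st d (e - 8)) 11 ∈ l2_8 := by
    have z := z2_7
    rw [Bool.and_eq_true] at z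
    have e1 : e - 7 - 1 = e - 8 := by ring
    have h := row_back 2 0 4 l2_8 l2_7 z.1 z.2 c2_8 d hb hz0 (e - 7)
      (fun j h1 h2 => hdom _ j (by omega) (by omega) h1 h2) (ht _ (by omega) (by omega)) r7
      (by rw [e1]; exact r8) m7
    rwa [e1] at h
  have m9 : code (st d (e - 9)) 11 ∈ l2_9 := by
    have z := z2_8
    rw [Bool.and_eq_true] at z
    have e1 : e - 8 - 1 = e - 9 := by ring
    have h := row_back 2 4 3 l2_9 l2_8 z.1 z.2 c2_9 d hb hz0 (e - 8)
      (fun j h1 h2 => hdom _ j (by omega) (by omega) h1 h2) (ht _ (by omega) (by omega)) r8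
      (by rw [e1]; exact r9) m8
    rwa [e1] at h
  have m10 : code (st d (e - 10)) 11 ∈ l2_10 := by
    have z := z2_9
    rw [Bool.and_eq_true] at z
    have e1 : e - 9 - 1 = e - 10 := by ring
    have h := row_back 2 3 2 l2_10 l2_9 z.1 z.2 c2_10 d hb hz0 (e - 9)
      (fun j h1 h2 => hdom _ j (by omega) (by omega) h1 h2) (ht _ (by omega) (by omega)) r9
      (by rw [e1]; exact r10) m9
    rwa [e1] at h
  have m11 : code (st d (e - 11)) 11 ∈ l2_11 := by
    have z := z2_10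
    rw [Bool.and_eq_true] at z
    have e1 : e - 10 - 1 = e - 11 := by ring
    have h := row_back 2 2 1 l2_11 l2_10 z.1 z.2 c2_11 d hb hz0 (e - 10)
      (fun j h1 h2 => hdom _ j (by omega) (by omega) h1 h2) (ht _ (by omega) (by omega)) r10
      (by rw [e1]; exact r11) m10
    rwa [e1] at h
  have m12 : code (st d (e - 12)) 11 ∈ l2_12 := by
    have z := z2_11
    rw [Bool.and_eq_true] at z
    have e1 : e - 11 - 1 = e - 12 := by ring
    have h := row_back 2 1 0 l2_12 l2_11 z.1 z.2 c2_12 d hb hz0 (e - 11)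
      (fun j h1 h2 => hdom _ j (by omega) (by omega) h1 h2) (ht _ (by omega) (by omega)) r11
      (by rw [e1]; exact r12) m11
    rwa [e1] at h
  exact ⟨m8, m9, m10, m11, m12⟩

theorem z3_3 : (hz (vec l3_3) && hz (tabG 11 + vec l3_3)) = true := by decide +kernel

theorem z3_4 : (hz (vec l3_4) && hz (tabG 11 + vec l3_4)) = true := by decide +kernel

theorem z3_5 : (hz (vec l3_5) && hz (tabG 11 + vec l3_5)) = true := by decide +kernel

theorem z3_6 : (hz (vec l3_6) && hz (tabG 11 + vec l3_6)) = true := by decide +kernel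

theorem z3_7 : (hz (vec l3_7) && hz (tabG 11 + vec l3_7)) = true := by decide +kernel

theorem z3_8 : (hz (vec l3_8) && hz (tabG 11 + vec l3_8)) = true := by decide +kernel

theorem z3_9 : (hz (vec l3_9) && hz (tabG 11 + vec l3_9)) = true := by decide +kernel

theorem z3_10 : (hz (vec l3_10) && hz (tabG 11 + vec l3_10)) = true := by decide +kernel

theorem z3_11 : (hz (vec l3_11) && hz (tabG 11 + vec l3_11)) = true := by decide +kernel

theorem alive3 (d : ℤ → ℤ → ℤ) (hb : Bin d) (hz0 : ∀ i j, j ≤ 0 → d i j = 0) (e : ℤ)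
    (hdom : ∀ l j, e - 13 ≤ l → l ≤ e → 1 ≤ j → j ≤ 10 → 1 ≤ a d l j)
    (ht : ∀ l, e - 13 ≤ l → l ≤ e → sg Gs d l = 0)
    (hr : ∀ k : ℕ, k ≤ 12 → Row d 3 ((17 - k) % 5) (e - k)) :
    code (st d (e - 8)) 11 ∈ l3_8 ∧ code (st d (e - 9)) 11 ∈ l3_9 ∧ code (st d (e - 10)) 11 ∈ l3_10 ∧
      code (st d (e - 11)) 11 ∈ l3_11 ∧ code (st d (e - 12)) 11 ∈ l3_12 := by
  have r0 : Row d 3 2 e := by
    have := hr 0 (by omega)
    rwa [Nat.cast_zero, sub_zero] at this
  have r1 : Row d 3 1 (e - 1) := hr 1 (by omega)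
  have r2 : Row d 3 0 (e - 2) := hr 2 (by omega)
  have r3 : Row d 3 4 (e - 3) := hr 3 (by omega)
  have r4 : Row d 3 3 (e - 4) := hr 4 (by omega)
  have r5 : Row d 3 2 (e - 5) := hr 5 (by omega)
  have r6 : Row d 3 1 (e - 6) := hr 6 (by omega)
  have r7 : Row d 3 0 (e - 7) := hr 7 (by omega)
  have r8 : Row d 3 4 (e - 8) := hr 8 (by omega)
  have r9 : Row d 3 3 (e - 9) := hr 9 (by omega)
  have r10 : Row d 3 2 (e - 10) := hr 10 (by omega)
  have r11 : Row d 3 1 (e - 11) := hr 11 (by omega)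
  have r12 : Row d 3 0 (e - 12) := hr 12 (by omega)
  have m3 : code (st d (e - 3)) 11 ∈ l3_3 := rows3_back 3 2 1 0 4 l3_3 c3_3 d hb hz0 e
    (fun l j h1 h2 => hdom l j (by omega) (by omega)) (fun l h1 h2 => ht l (by omega) (by omega)) r0 r1 r2 r3
  have m4 : code (st d (e - 4)) 11 ∈ l3_4 := by
    have z := z3_3
    rw [Bool.and_eq_true] at z
    have e1 : e - 3 - 1 = e - 4 := by ring
    have h := row_back 3 4 3 l3_4 l3_3 z.1 z.2 c3_4 d hb hz0 (e - 3)
      (fun j h1 h2 => hdom _ j (by omega) (by omega) h1 h2) (ht _ (by omega) (by omega)) r3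
      (by rw [e1]; exact r4) m3
    rwa [e1] at h
  have m5 : code (st d (e - 5)) 11 ∈ l3_5 := by
    have z := z3_4
    rw [Bool.and_eq_true] at z
    have e1 : e - 4 - 1 = e - 5 := by ring
    have h := row_back 3 3 2 l3_5 l3_4 z.1 z.2 c3_5 d hb hz0 (e - 4)
      (fun j h1 h2 => hdom _ j (by omega) (by omega) h1 h2) (ht _ (by omega) (by omega)) r4
      (by rw [e1]; exact r5) m4
    rwa [e1] at h
  have m6 : code (st d (e - 6)) 11 ∈ l3_6 := by
    have z := z3_5
    rw [Bool.and_eq_true] at z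
    have e1 : e - 5 - 1 = e - 6 := by ring
    have h := row_back 3 2 1 l3_6 l3_5 z.1 z.2 c3_6 d hb hz0 (e - 5)
      (fun j h1 h2 => hdom _ j (by omega) (by omega) h1 h2) (ht _ (by omega) (by omega)) r5
      (by rw [e1]; exact r6) m5
    rwa [e1] at h
  have m7 : code (st d (e - 7)) 11 ∈ l3_7 := by
    have z := z3_6
    rw [Bool.and_eq_true] at z
    have e1 : e - 6 - 1 = e - 7 := by ring
    have h := row_back 3 1 0 l3_7 l3_6 z.1 z.2 c3_7 d hb hz0 (e - 6)
      (fun j h1 h2 => hdom _ j (by omega) (by omega) h1 h2) (ht _ (by omega) (by omega)) r6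
      (by rw [e1]; exact r7) m6
    rwa [e1] at h
  have m8 : code (st d (e - 8)) 11 ∈ l3_8 := by
    have z := z3_7
    rw [Bool.and_eq_true] at z
    have e1 : e - 7 - 1 = e - 8 := by ring
    have h := row_back 3 0 4 l3_8 l3_7 z.1 z.2 c3_8 d hb hz0 (e - 7)
      (fun j h1 h2 => hdom _ j (by omega) (by omega) h1 h2) (ht _ (by omega) (by omega)) r7
      (by rw [e1]; exact r8) m7
    rwa [e1] at h
  have m9 : code (st d (e - 9)) 11 ∈ l3_9 := by
    have z := z3_8
    rw [Bool.and_eq_true] at z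
    have e1 : e - 8 - 1 = e - 9 := by ring
    have h := row_back 3 4 3 l3_9 l3_8 z.1 z.2 c3_9 d hb hz0 (e - 8)
      (fun j h1 h2 => hdom _ j (by omega) (by omega) h1 h2) (ht _ (by omega) (by omega)) r8
      (by rw [e1]; exact r9) m8
    rwa [e1] at h
  have m10 : code (st d (e - 10)) 11 ∈ l3_10 := by
    have z := z3_9
    rw [Bool.and_eq_true] at z
    have e1 : e - 9 - 1 = e - 10 := by ring
    have h := row_back 3 3 2 l3_10 l3_9 z.1 z.2 c3_10 d hb hz0 (e - 9)
      (fun j h1 h2 => hdom _ j (by omega) (by omega) h1 h2) (ht _ (by omega) (by omega)) r9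
      (by rw [e1]; exact r10) m9
    rwa [e1] at h
  have m11 : code (st d (e - 11)) 11 ∈ l3_11 := by
    have z := z3_10
    rw [Bool.and_eq_true] at z
    have e1 : e - 10 - 1 = e - 11 := by ring
    have h := row_back 3 2 1 l3_11 l3_10 z.1 z.2 c3_11 d hb hz0 (e - 10)
      (fun j h1 h2 => hdom _ j (by omega) (by omega) h1 h2) (ht _ (by omega) (by omega)) r10
      (by rw [e1]; exact r11) m10
    rwa [e1] at h
  have m12 : code (st d (e - 12)) 11 ∈ l3_12 := by
    have z := z3_11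
    rw [Bool.and_eq_true] at z
    have e1 : e - 11 - 1 = e - 12 := by ring
    have h := row_back 3 1 0 l3_12 l3_11 z.1 z.2 c3_12 d hb hz0 (e - 11)
      (fun j h1 h2 => hdom _ j (by omega) (by omega) h1 h2) (ht _ (by omega) (by omega)) r11
      (by rw [e1]; exact r12) m11
    rwa [e1] at h
  exact ⟨m8, m9, m10, m11, m12⟩

end Ex

end PatGap
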