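import Pool.Agent.H.MP_b28609_co.Gap.Ex.Asmb
import Pool.Agent.H.MP_b28609_co.Gap.Ex.ExAsm
import Pool.Agent.H.MP_b28609_co.Gap.Ex.ExBack
import Pool.Agent.H.MP_b28609_co.Gap.Ex.ExBand
import Pool.Agent.H.MP_b28609_co.Gap.Ex.ExClean
import Pool.Agent.H.MP_b28609_co.Gap.Ex.ExCnt
import Pool.Agent.H.MP_b28609_co.Gap.Ex.ExDom
import Pool.Agent.H.MP_b28609_co.Gap.Ex.ExSide
import Pool.Agent.H.MP_b28609_co.Gap.Ex.Gs
import Pool.Agent.H.MP_b28609_co.Gap.Band
import Pool.Agent.H.MP_b28609_co.Gap.RigL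
import Pool.Agent.H.MP_b28609_co.Gap.RigG
import Pool.Agent.H.MP_b28609_co.Gap.Disp
import Pool.Agent.H.MP_b28609_co.Gap.FluxA
import Pool.Agent.H.MP_b28609_co.Gap.FluxC
import Pool.Agent.H.MP_b28609_co.Gap.FluxD

/-!
# MP_b28609_co, exact theorem, lower bound
-/

set_option autoImplicit false

namespace PatGap

open PatDom

/-- The lower bound for long grids, given the strip module. -/
theorem low_of (hL : ExStripStmt) (m n : ℕ) (hm : 60 ≤ m) (hn : 480 * m + 122180 ≤ n) :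
    dnum (grid m (n + 1)) ≤ pnum (grid m n) + 2 :=
  exLow (exClean sideGs exAsm)
    (exBand sideGs (band (rigG rigL) disp mvInv (fluxD fluxA fluxB fluxC)) mvInv) mvInv exSide hL
    exDom exCnt exBack m n hm hn

end PatGap
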