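import Pool.Agent.H.MP_b28609_co.Gap.Ex.P22
import Pool.Agent.H.MP_b28609_co.Gap.Ex.P23
import Pool.Agent.H.MP_b28609_co.Gap.Ex.P24
import Pool.Agent.H.MP_b28609_co.Gap.Ex.P25
import Pool.Agent.H.MP_b28609_co.Gap.Ex.P26

/-!
# MP_b28609_co: the upper bound for all large grids

For `m, n ≥ 22` the `m × n` grid has a patrolling dominating set with at most
`(m + 2)(n + 3) / 5 - 6` vertices (rounded down).
-/

set_option autoImplicit false

namespace PatDom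

theorem pat_all : ∀ r < 5, ∀ s < 5, ∃ (a b : ℕ) (L K : List ℕ), patB (22 + r) (22 + s) a b L K = true := by
  intro r hr s hs
  interval_cases r <;> interval_cases s
  · exact ⟨_, _, _, _, pat2222⟩
  · exact ⟨_, _, _, _, pat2223⟩
  · exact ⟨_, _, _, _, pat2224⟩
  · exact ⟨_, _, _, _, pat2225⟩
  · exact ⟨_, _, _, _, pat2226⟩
  · exact ⟨_, _, _, _, pat2322⟩
  · exact ⟨_, _, _, _, pat2323⟩
  · exact ⟨_, _, _, _, pat2324⟩
  · exact ⟨_, _, _, _, pat2325⟩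
  · exact ⟨_, _, _, _, pat2326⟩
  · exact ⟨_, _, _, _, pat2422⟩
  · exact ⟨_, _, _, _, pat2423⟩
  · exact ⟨_, _, _, _, pat2424⟩
  · exact ⟨_, _, _, _, pat2425⟩
  · exact ⟨_, _, _, _, pat2426⟩
  · exact ⟨_, _, _, _, pat2522⟩
  · exact ⟨_, _, _, _, pat2523⟩
  · exact ⟨_, _, _, _, pat2524⟩
  · exact ⟨_, _, _, _, pat2525⟩
  · exact ⟨_, _, _, _, pat2526⟩
  · exact ⟨_, _, _, _, pat2622⟩
  · exact ⟨_, _, _, _, pat2623⟩
  · exact ⟨_, _, _, _, pat2624⟩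
  · exact ⟨_, _, _, _, pat2625⟩
  · exact ⟨_, _, _, _, pat2626⟩

theorem exUp22 (m n : ℕ) (hm : 22 ≤ m) (hn : 22 ≤ n) :
    pnum (grid m n) + 6 ≤ (m + 2) * (n + 3) / 5 := by
  obtain ⟨a, b, L, K, h⟩ := pat_all ((m - 22) % 5) (Nat.mod_lt _ (by decide)) ((n - 22) % 5)
    (Nat.mod_lt _ (by decide))
  have h1 := pat_up h ((m - 22) / 5) ((n - 22) / 5)
  have e1 : 22 + (m - 22) % 5 + 5 * ((m - 22) / 5) = m := by omega
  have e2 : 22 + (n - 22) % 5 + 5 * ((n - 22) / 5) = n := by omega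
  rw [e1, e2] at h1
  exact h1

theorem exUp : ∀ m n : ℕ, 24 ≤ m → 24 ≤ n → pnum (grid m n) + 6 ≤ (m + 2) * (n + 3) / 5 :=
  fun m n hm hn => exUp22 m n (by omega) (by omega)

end PatDom
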