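import Pool.Agent.H.MP_b28609_co.Gap.Ex.Main
import Pool.Agent.H.MP_b28609_co.Gap.Ex.ExStrip
import Pool.Agent.H.MP_b28609_co.Gap.Ex.Up

/-!
# MP_b28609_co, exact theorem for long grids
-/

set_option autoImplicit false

namespace PatGap

open PatDom

/-- The upper bound for all grids with both sides at least `22`, the lower bound for long grids, and
the exact value. -/
theorem exact :
    (∀ m n : ℕ, 22 ≤ m → 22 ≤ n → pnum (grid m n) + 6 ≤ (m + 2) * (n + 3) / 5) ∧
    (∀ m n : ℕ, 60 ≤ m → 480 * m + 122180 ≤ n →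
      dnum (grid m (n + 1)) ≤ pnum (grid m n) + 2 ∧
      (dnum (grid m (n + 1)) = (m + 2) * (n + 3) / 5 - 4 →
        pnum (grid m n) = (m + 2) * (n + 3) / 5 - 6)) := by
  refine ⟨exUp22, ?_⟩
  intro m n hm hn
  have h1 := low_of exStrip m n hm hn
  have h2 := exUp22 m n (by omega) (by omega)
  exact ⟨h1, fun h => by omega⟩

end PatGap
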