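import Pool.Agent.H.MP_b28609_co.Gap.Ex.Lists
import Pool.Agent.H.MP_b28609_co.V2.Low

/-!
# MP_b28609_co, exact theorem: search for a good row, definitions and checks
-/

set_option autoImplicit false
set_option maxRecDepth 100000

namespace PatGap

open Side

namespace Ex

open PatDom.V2 (allSub allSub_sound)

/-- Row data: guards, undominated cells, potential, weight. -/
abbrev Ent := ℕ × ℕ × ℕ × ℕ

/-- Rows: guards, undominated cells, potential, weight; slope 2. -/
def pl2 (φ : ℕ) : List Ent :=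
  if φ = 0 then
    [(528, 64, 14, 9), (529, 64, 14, 14), (530, 64, 14, 14), (528, 66, 14, 9), (528, 67, 9, 9),
      (533, 64, 19, 19), (532, 65, 14, 14), (529, 68, 14, 14), (536, 66, 14, 14),
      (541, 64, 19, 24), (517, 96, 14, 14)]
  else if φ = 1 then
    [(66, 256, 13, 10), (64, 258, 13, 5), (68, 256, 13, 10), (72, 258, 13, 10),
      (65, 264, 13, 10), (66, 264, 13, 10), (67, 264, 13, 15), (64, 266, 13, 5),
      (64, 270, 8, 5), (96, 266, 13, 10)]
  else if φ = 2 then
    [(266, 0, 17, 15), (264, 32, 12, 10), (264, 33, 12, 10), (266, 32, 17, 15),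
      (264, 34, 12, 10), (270, 32, 17, 20), (258, 48, 12, 10)]
  else if φ = 3 then
    [(1056, 129, 12, 6), (1058, 128, 12, 11), (1060, 129, 12, 11), (1057, 132, 12, 11),
      (1056, 133, 12, 6), (1056, 135, 7, 6), (1065, 128, 17, 16), (1066, 128, 17, 16),
      (1064, 131, 12, 11), (1072, 133, 12, 11)]
  else 
    [(133, 512, 16, 15), (136, 513, 11, 10), (144, 517, 11, 10), (131, 528, 16, 15),
      (132, 528, 11, 10), (133, 528, 16, 15), (132, 529, 11, 10), (135, 528, 16, 20),
      (128, 533, 11, 5), (128, 534, 11, 5), (129, 536, 11, 10), (128, 541, 6, 5),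
      (161, 520, 16, 15)]

/-- Rows: guards, undominated cells, potential, weight; slope 3. -/
def pl3 (φ : ℕ) : List Ent :=
  if φ = 0 then
    [(529, 128, 16, 14), (530, 128, 16, 14), (532, 128, 16, 14), (533, 128, 16, 19),
      (528, 132, 16, 9), (529, 132, 16, 14), (528, 133, 11, 9), (536, 129, 16, 14),
      (541, 128, 21, 24), (517, 144, 16, 14)]
  else if φ = 1 then
    [(144, 2, 15, 10), (128, 34, 15, 5), (132, 32, 15, 10), (133, 32, 15, 15),
      (132, 33, 15, 10), (135, 32, 20, 20), (129, 36, 15, 10), (136, 34, 15, 10),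
      (128, 42, 10, 5)]
  else if φ = 2 then
    [(1058, 256, 15, 11), (1060, 256, 15, 11), (1057, 260, 12, 11), (1066, 256, 15, 16),
      (1056, 264, 15, 6), (1057, 264, 15, 11), (1058, 264, 15, 11), (1056, 266, 10, 6),
      (1056, 267, 10, 6), (1072, 258, 15, 11)]
  else if φ = 3 then
    [(264, 65, 14, 10), (266, 64, 14, 15), (267, 64, 19, 20), (264, 66, 14, 10),
      (264, 67, 14, 10), (268, 64, 16, 15), (270, 64, 19, 20), (258, 72, 14, 10),
      (260, 80, 11, 10)]
  else 
    [(72, 513, 13, 10), (81, 512, 15, 15), (65, 528, 15, 10), (64, 529, 13, 5),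
      (66, 528, 13, 10), (67, 528, 18, 15), (68, 529, 13, 10), (64, 532, 13, 5),
      (65, 532, 13, 10), (64, 533, 8, 5), (96, 517, 13, 10)]

/-- Mask of a property. -/
def bm (P : ℕ → Bool) (n : ℕ) : ℕ :=
  Nat.rec (motive := fun _ => ℕ) 0 (fun k M => M ||| cond (P k) (2 ^ k) 0) n

/-- Mask of the cells with digit `v`. -/
def dmask (v x : ℕ) : ℕ := bm (fun k => Nat.beq (x / 3 ^ k % 3) v) 11

/-- Number of bits. -/
def pop (M : ℕ) : ℕ := Nat.rec (motive := fun _ => ℕ) 0 (fun k c => c + (M >>> k) % 2) 11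

/-- Weight of a row. -/
def cst (M : ℕ) : ℕ := Nat.rec (motive := fun _ => ℕ) 0 (fun k c => c + cn k * ((M >>> k) % 2)) 11

/-- Data of a profile. -/
def ent (x : ℕ) : Ent := (dmask 1 x, dmask 2 x, ln tab0 x, cst (dmask 1 x))

/-- Equality test. -/
def eqE (a b : Ent) : Bool :=
  Nat.beq a.1 b.1 && (Nat.beq a.2.1 b.2.1 && (Nat.beq a.2.2.1 b.2.2.1 && Nat.beq a.2.2.2 b.2.2.2))

/-- All profiles of the list are in the table. -/
def inP (L : List ℕ) (P : List Ent) : Bool := L.all fun x => P.any fun e => eqE e (ent x)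

/-- Subset test. -/
def sub (a b : ℕ) : Bool := Nat.beq (a &&& b) a

/-- Cells next to guards, and guards. -/
def nbm (M : ℕ) : ℕ := M ||| (M <<< 1) ||| (M >>> 1)

/-- Row `y` after row `x`. -/
def stepok (x y : Ent) : Bool :=
  sub x.2.1 y.1 && (Nat.beq y.2.1 (1023 ^^^ (1023 &&& (nbm y.1 ||| x.1))) &&
    Nat.beq (x.2.2.1 + y.2.2.2) (11 + y.2.2.1))

/-- Gluing test. -/
def gd (x y t : Ent) (V R L V2 : ℕ) : Bool :=
  sub t.2.1 y.1 && (sub (1023 &&& x.1) (t.1 ||| nbm y.1) &&
    Nat.ble (pop V + pop R + pop L + pop V2) 1)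

/-- All continuations of `n` rows meet a good row. -/
def srch (P : ℕ → List Ent) (n : ℕ) : ℕ → Ent → Ent → ℕ → ℕ → Bool :=
  Nat.rec (motive := fun _ => ℕ → Ent → Ent → ℕ → ℕ → Bool) (fun _ _ _ _ _ => false)
    (fun _ ih φ x z U V =>
      (P ((φ + 1) % 5)).all fun y => !(stepok x y && sub V y.1) ||
      (P φ).all fun t => !(stepok z t && sub U t.1) ||
      allSub 10 (1023 &&& (y.1 ^^^ V)) 0 fun R =>
        !(sub (R <<< 1) (t.1 ^^^ U)) ||
        allSub 10 (1023 &&& (y.1 ^^^ V ^^^ R)) 0 fun L =>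
          !(Nat.beq (L % 2) 0 && (sub (L >>> 1) (t.1 ^^^ U ^^^ (R <<< 1)) &&
            Nat.beq ((t.1 ^^^ U ^^^ (R <<< 1) ^^^ (L >>> 1)) &&& 1024) 0)) ||
          (gd x y t V R L (t.1 ^^^ U ^^^ (R <<< 1) ^^^ (L >>> 1)) ||
            ih ((φ + 1) % 5) y t (y.1 ^^^ V ^^^ R ^^^ L) (t.1 ^^^ U ^^^ (R <<< 1) ^^^ (L >>> 1)))) n

/-- All starts. -/
def init (P : ℕ → List Ent) (n φ : ℕ) : Bool :=
  (P φ).all fun x => (P ((φ + 4) % 5)).all fun z =>
    allSub 10 (1023 &&& x.1) 0 fun U => allSub 10 (1023 &&& z.1) 0 fun V =>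
      srch P n φ x z (U ||| (x.1 &&& 1024)) V

theorem in2_0 : inP l2_12 (pl2 0) = true := by decide +kernel
theorem in2_1 : inP l2_11 (pl2 1) = true := by decide +kernel
theorem in2_2 : inP l2_10 (pl2 2) = true := by decide +kernel
theorem in2_3 : inP l2_9 (pl2 3) = true := by decide +kernel
theorem in2_4 : inP l2_8 (pl2 4) = true := by decide +kernel
theorem in3_0 : inP l3_12 (pl3 0) = true := by decide +kernel
theorem in3_1 : inP l3_11 (pl3 1) = true := by decide +kernel
theorem in3_2 : inP l3_10 (pl3 2) = true := by decide +kernel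
theorem in3_3 : inP l3_9 (pl3 3) = true := by decide +kernel
theorem in3_4 : inP l3_8 (pl3 4) = true := by decide +kernel

theorem init2 : init pl2 10 2 = true := by decide +kernel

theorem init3 : init pl3 10 2 = true := by decide +kernel

end Ex

end PatGap
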