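import Pool.Agent.H.MP_b28609_co.Gap.Ex.Pair

/-!
# MP_b28609_co, exact theorem: search for a good row, soundness
-/

set_option autoImplicit false
set_option maxRecDepth 100000

namespace PatGap

open Side

namespace Ex

open PatDom.V2 (allSub allSub_sound)

theorem bm_succ (P : ℕ → Bool) (n : ℕ) : bm P (n + 1) = bm P n ||| cond (P n) (2 ^ n) 0 := rfl

theorem bm_testBit (P : ℕ → Bool) (n k : ℕ) : (bm P n).testBit k = (decide (k < n) && P k) := by
  induction n with
  | zero => simp [bm]
  | succ n ih =>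
    rw [bm_succ, Nat.testBit_or, ih]
    by_cases h : k = n
    · subst h
      cases hP : P k <;> simp
    · cases hP : P n
      · simp only [cond_false, Nat.zero_testBit, Bool.or_false]
        congr 1
        rw [decide_eq_decide]
        omega
      · have h2 : ¬ n = k := fun h' => h h'.symm
        simp only [cond_true, Nat.testBit_two_pow, h2, decide_false, Bool.or_false]
        congr 1
        rw [decide_eq_decide]
        omega

theorem bm_congr (P Q : ℕ → Bool) (n : ℕ) (h : ∀ k, k < n → P k = Q k) : bm P n = bm Q n := by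
  apply Nat.eq_of_testBit_eq
  intro k
  rw [bm_testBit, bm_testBit]
  by_cases hk : k < n
  · rw [h k hk]
  · simp [hk]

theorem code_digit (p : ℕ → ℕ) (n : ℕ) (hp : ∀ k, k < n → p k ≤ 2) (k : ℕ) (hk : k < n) :
    code p n / 3 ^ k % 3 = p k := by
  induction n with
  | zero => omega
  | succ n ih =>
    rw [code_succ]
    have hlt := code_lt p n fun l hl => hp l (by omega)
    by_cases h : k = n
    · subst h
      rw [Nat.add_mul_div_right _ _ (by positivity), Nat.div_eq_of_lt hlt, zero_add]
      exact Nat.mod_eq_of_lt (by have := hp k (by omega); omega)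
    · have e : p n * 3 ^ n = 3 ^ k * (3 * (p n * 3 ^ (n - k - 1))) := by
        have : 3 ^ n = 3 ^ k * (3 * 3 ^ (n - k - 1)) := by
          rw [← pow_succ', ← pow_add]
          congr 1
          omega
        rw [this]
        ring
      rw [e, Nat.add_mul_div_left _ _ (by positivity), Nat.add_mul_mod_self_left]
      exact ih (fun l hl => hp l (by omega)) (by omega)

theorem dmask_code (v : ℕ) (p : ℕ → ℕ) (hp : ∀ k, k < 11 → p k ≤ 2) :
    dmask v (code p 11) = bm (fun k => decide (p k = v)) 11 := by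
  unfold dmask
  apply bm_congr
  intro k hk
  rw [beqd, code_digit p 11 hp k hk]

/-- Guards of the row. -/
noncomputable def om (d : ℤ → ℤ → ℤ) (i : ℤ) : ℕ := bm (fun k => decide (d i (k + 1) = 1)) 11

/-- Undominated cells of the row. -/
noncomputable def wm (d : ℤ → ℤ → ℤ) (i : ℤ) : ℕ := bm (fun k => decide (st d i k = 2)) 11

/-- Data of the row. -/
noncomputable def dt (d : ℤ → ℤ → ℤ) (i : ℤ) : Ent :=
  (om d i, wm d i, ln tab0 (code (st d i) 11), cst (om d i))

theorem ent_code (d : ℤ → ℤ → ℤ) (i : ℤ) : ent (code (st d i) 11) = dt d i := by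
  have hp : ∀ k, k < 11 → st d i k ≤ 2 := fun k _ => st_le d i k
  have e : dmask 1 (code (st d i) 11) = om d i := by
    rw [dmask_code 1 _ hp]
    apply bm_congr
    intro k _
    rw [decide_eq_decide]
    exact st_one d i k
  unfold ent dt
  rw [e, dmask_code 2 _ hp]
  rfl

theorem eqE_eq (a b : Ent) (h : eqE a b = true) : a = b := by
  unfold eqE at h
  simp only [Bool.and_eq_true] at h
  obtain ⟨h1, h2, h3, h4⟩ := h
  have e1 := Nat.eq_of_beq_eq_true h1
  have e2 := Nat.eq_of_beq_eq_true h2
  have e3 := Nat.eq_of_beq_eq_true h3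
  have e4 := Nat.eq_of_beq_eq_true h4
  exact Prod.ext e1 (Prod.ext e2 (Prod.ext e3 e4))

theorem inP_sound (L : List ℕ) (P : List Ent) (h : inP L P = true) (d : ℤ → ℤ → ℤ) (i : ℤ)
    (hm : code (st d i) 11 ∈ L) : dt d i ∈ P := by
  have h1 := (List.all_eq_true.mp h) _ hm
  rw [List.any_eq_true] at h1
  obtain ⟨e, he, h2⟩ := h1
  rw [ent_code] at h2
  rw [← eqE_eq _ _ h2]
  exact he

theorem sub_iff (a b : ℕ) : sub a b = true ↔ ∀ k, a.testBit k = true → b.testBit k = true := by
  unfold sub
  constructor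
  · intro h k hk
    have h1 := congrArg (fun z => z.testBit k) (Nat.eq_of_beq_eq_true h)
    simp only [Nat.testBit_and, hk, Bool.true_and] at h1
    exact h1
  · intro h
    rw [beqd, decide_eq_true_eq]
    apply Nat.eq_of_testBit_eq
    intro k
    rw [Nat.testBit_and]
    cases hk : a.testBit k
    · rfl
    · rw [h k hk]
      rfl

theorem pop_eq (M : ℕ) : pop M = ∑ k ∈ Finset.range 11, (M >>> k) % 2 := by
  have h : ∀ n, (Nat.rec (motive := fun _ => ℕ) 0 (fun k c => c + (M >>> k) % 2) n : ℕ) =
      ∑ k ∈ Finset.range n, (M >>> k) % 2 := by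
    intro n
    induction n with
    | zero => rfl
    | succ n ih => rw [Finset.sum_range_succ, ← ih]
  exact h 11

theorem cst_eq (M : ℕ) : cst M = ∑ k ∈ Finset.range 11, cn k * ((M >>> k) % 2) := by
  have h : ∀ n, (Nat.rec (motive := fun _ => ℕ) 0 (fun k c => c + cn k * ((M >>> k) % 2)) n : ℕ) =
      ∑ k ∈ Finset.range n, cn k * ((M >>> k) % 2) := by
    intro n
    induction n with
    | zero => rfl
    | succ n ih => rw [Finset.sum_range_succ, ← ih]
  exact h 11

theorem bit_bm (P : ℕ → Bool) (k : ℕ) (hk : k < 11) :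
    (bm P 11 >>> k) % 2 = if P k = true then 1 else 0 := by
  have h : (bm P 11).testBit k = P k := by
    rw [bm_testBit]
    simp [hk]
  rw [Nat.testBit_eq_decide_div_mod_eq, ← Nat.shiftRight_eq_div_pow] at h
  by_cases hP : P k = true
  · rw [if_pos hP]
    rw [hP] at h
    exact of_decide_eq_true h
  · rw [if_neg hP]
    have hP' : P k = false := by simpa using hP
    rw [hP'] at h
    have := of_decide_eq_false h
    omega

theorem pop_bm (P : ℕ → Bool) : pop (bm P 11) = ∑ k ∈ Finset.range 11, if P k = true then 1 else 0 := by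
  rw [pop_eq]
  exact Finset.sum_congr rfl fun k hk => bit_bm P k (Finset.mem_range.1 hk)

theorem cst_om (d : ℤ → ℤ → ℤ) (hb : Bin d) (i : ℤ) : (cst (om d i) : ℤ) = cwid d 10 i := by
  rw [cwid_eq, cst_eq]
  push_cast
  apply Finset.sum_congr rfl
  intro k hk
  have h := bit_bm (fun k => decide (d i (k + 1) = 1)) k (Finset.mem_range.1 hk)
  have h2 : (((om d i >>> k) % 2 : ℕ) : ℤ) = d i (k + 1) := by
    unfold om
    rw [h]
    rcases hb i (k + 1) with h0 | h1
    · rw [if_neg (by simp [h0]), h0]
      rfl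
    · rw [if_pos (by simp [h1]), h1]
      rfl
  rw [cw_cn, ← h2]
  push_cast
  rfl

theorem nbm_testBit (M k : ℕ) : (nbm M).testBit k = (M.testBit k || (decide (1 ≤ k) && M.testBit (k - 1)) ||
    M.testBit (k + 1)) := by
  unfold nbm
  rw [Nat.testBit_or, Nat.testBit_or, Nat.testBit_shiftLeft, Nat.testBit_shiftRight, add_comm 1 k]

theorem bit1023 (k : ℕ) : (1023 : ℕ).testBit k = decide (k < 10) := by
  have := Nat.testBit_two_pow_sub_one 10 k
  exact this

theorem om_bit (d : ℤ → ℤ → ℤ) (i : ℤ) (k : ℕ) :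
    (om d i).testBit k = (decide (k < 11) && decide (d i (k + 1) = 1)) := bm_testBit _ _ _

theorem wm_bit (d : ℤ → ℤ → ℤ) (i : ℤ) (k : ℕ) :
    (wm d i).testBit k = (decide (k < 11) && decide (st d i k = 2)) := bm_testBit _ _ _

theorem stepok_dt (d : ℤ → ℤ → ℤ) (hb : Bin d) (hz : ∀ i j, j ≤ 0 → d i j = 0) (i : ℤ)
    (hdom : ∀ j, 1 ≤ j → j ≤ 10 → 1 ≤ a d i j) (ht : sg Gs d (i + 1) = 0) :
    stepok (dt d i) (dt d (i + 1)) = true := by
  unfold stepok dt
  rw [Bool.and_eq_true, Bool.and_eq_true]
  refine ⟨?_, ?_, ?_⟩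
  · show sub (wm d i) (om d (i + 1)) = true
    rw [sub_iff]
    intro k hk
    rw [wm_bit, Bool.and_eq_true, decide_eq_true_eq, decide_eq_true_eq] at hk
    obtain ⟨h1, h2⟩ := hk
    rw [st_two] at h2
    obtain ⟨h3, h9, h4, h5, h6⟩ := h2
    rw [om_bit, Bool.and_eq_true, decide_eq_true_eq, decide_eq_true_eq]
    refine ⟨h1, ?_⟩
    have ha := hdom (k + 1) (by omega) (by omega)
    unfold a at ha
    rw [show ((k : ℤ) + 1 - 1) = k by ring, show ((k : ℤ) + 1 + 1) = k + 2 by ring] at ha
    have e1 : d i (k + 1) = 0 := (hb _ _).resolve_right h3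
    have e2 : d i k = 0 := (hb _ _).resolve_right h4
    have e3 : d i (k + 2) = 0 := (hb _ _).resolve_right h5
    have e4 : d (i - 1) (k + 1) = 0 := (hb _ _).resolve_right h6
    rw [e1, e2, e3, e4] at ha
    rcases hb (i + 1) (k + 1) with h | h
    · omega
    · exact h
  · show Nat.beq (wm d (i + 1)) (1023 ^^^ (1023 &&& (nbm (om d (i + 1)) ||| om d i))) = true
    rw [beqd, decide_eq_true_eq]
    apply Nat.eq_of_testBit_eq
    intro k
    rw [wm_bit, Nat.testBit_xor, Nat.testBit_and, Nat.testBit_or, nbm_testBit, bit1023, om_bit, om_bit,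
      om_bit, om_bit]
    by_cases hk : k < 10
    · have hk1 : k < 11 := by omega
      have hk2 : k - 1 < 11 := by omega
      have hk3 : k + 1 < 11 := by omega
      simp only [hk, hk1, hk2, hk3, decide_true, Bool.true_and]
      have c1 : (((k + 1 : ℕ) : ℤ) + 1) = k + 2 := by push_cast; ring
      rw [c1]
      have hst := st_two d (i + 1) k
      rw [show i + 1 - 1 = i by ring] at hst
      have h9 : k ≤ 9 := by omega
      have hk0 : (decide (1 ≤ k) && decide (d (i + 1) (((k - 1 : ℕ) : ℤ) + 1) = 1)) =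
          decide (d (i + 1) k = 1) := by
        by_cases h0 : 1 ≤ k
        · have e : (((k - 1 : ℕ) : ℤ) + 1) = k := by omega
          rw [e]
          simp [h0]
        · have e : k = 0 := by omega
          subst e
          have := hz (i + 1) 0 le_rfl
          simp [this]
      rw [hk0]
      by_cases a1 : d (i + 1) (k + 1) = 1 <;> by_cases a2 : d (i + 1) k = 1 <;>
        by_cases a3 : d (i + 1) (k + 2) = 1 <;> by_cases a4 : d i (k + 1) = 1 <;>
        simp [hst, a1, a2, a3, a4, h9]
    · have h9 : ¬ k ≤ 9 := by omega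
      have hst : ¬ st d (i + 1) k = 2 := by
        rw [st_two]
        rintro ⟨-, h, -⟩
        exact h9 h
      simp [hk, hst]
  · show Nat.beq (ln tab0 (code (st d i) 11) + cst (om d (i + 1))) (11 + ln tab0 (code (st d (i + 1)) 11)) = true
    rw [beqd, decide_eq_true_eq]
    unfold sg Gs at ht
    rw [show i + 1 - 1 = i by ring, T_lt 0 (by omega), T_lt 0 (by omega), tabF_0, ← cst_om d hb] at ht
    omega

end Ex

end PatGap
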