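import Pool.Agent.H.MP_b28609_co.Gap.Ex.PairS

/-!
# MP_b28609_co, exact theorem: search for a good row, motions
-/

set_option autoImplicit false
set_option maxRecDepth 100000
set_option linter.unusedTactic false
set_option linter.unreachableTactic false

namespace PatGap

open Side

namespace Ex

open PatDom.V2 (allSub allSub_sound)

/-- Guards of the row `i` that move down. -/
noncomputable def Um (d : ℤ → ℤ → ℤ) (f : ℤ × ℤ → ℤ × ℤ) (i : ℤ) : ℕ :=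
  bm (fun k => decide (d i (k + 1) = 1 ∧ f (i, (k : ℤ) + 1) = (i + 1, (k : ℤ) + 1))) 11

/-- Cells of the row `i` reached from below. -/
noncomputable def Vm (d : ℤ → ℤ → ℤ) (f : ℤ × ℤ → ℤ × ℤ) (i : ℤ) : ℕ :=
  bm (fun k => decide (d (i + 1) (k + 1) = 1 ∧ f (i + 1, (k : ℤ) + 1) = (i, (k : ℤ) + 1))) 11

/-- Guards of the row `i` that move to the right. -/
noncomputable def Rm (d : ℤ → ℤ → ℤ) (f : ℤ × ℤ → ℤ × ℤ) (i : ℤ) : ℕ :=
  bm (fun k => decide (d i (k + 1) = 1 ∧ f (i, (k : ℤ) + 1) = (i, (k : ℤ) + 2))) 11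

/-- Guards of the row `i` that move to the left. -/
noncomputable def Lm (d : ℤ → ℤ → ℤ) (f : ℤ × ℤ → ℤ × ℤ) (i : ℤ) : ℕ :=
  bm (fun k => decide (d i (k + 1) = 1 ∧ f (i, (k : ℤ) + 1) = (i, (k : ℤ)))) 11

/-- Facts on the motion near the row `i + 1`. -/
structure Mot (d d' : ℤ → ℤ → ℤ) (f : ℤ × ℤ → ℤ × ℤ) (i : ℤ) : Prop where
  bin : Bin d
  bin' : Bin d'
  mv : Mv d d' f
  zero : ∀ i j, j ≤ 0 → d i j = 0
  zero' : ∀ i j, j ≤ 0 → d' i j = 0
  down : ∀ l j, i ≤ l → l ≤ i + 2 → 11 ≤ j → j ≤ 12 → d l j = 1 → f (l, j) = (l + 1, j)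

theorem four {d d' : ℤ → ℤ → ℤ} {f : ℤ × ℤ → ℤ × ℤ} (h : Mv d d' f) (i j : ℤ) (hd : d i j = 1) :
    f (i, j) = (i + 1, j) ∨ f (i, j) = (i - 1, j) ∨ f (i, j) = (i, j + 1) ∨ f (i, j) = (i, j - 1) := by
  rcases h.nb (i, j) hd with ⟨h1, h2 | h2⟩ | ⟨h1, h2 | h2⟩
  · exact Or.inr (Or.inr (Or.inl (Prod.ext h1 h2)))
  · exact Or.inr (Or.inr (Or.inr (Prod.ext h1 h2)))
  · exact Or.inl (Prod.ext h2 h1)
  · exact Or.inr (Or.inl (Prod.ext h2 h1))

theorem U_eq {d d' : ℤ → ℤ → ℤ} {f : ℤ × ℤ → ℤ × ℤ} {i : ℤ} (h : Mot d d' f i) :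
    om d (i + 1) ^^^ Vm d f i ^^^ Rm d f (i + 1) ^^^ Lm d f (i + 1) = Um d f (i + 1) := by
  apply Nat.eq_of_testBit_eq
  intro k
  rw [Nat.testBit_xor, Nat.testBit_xor, Nat.testBit_xor, om_bit]
  unfold Vm Rm Lm Um
  rw [bm_testBit, bm_testBit, bm_testBit, bm_testBit]
  by_cases hk : k < 11
  · simp only [hk, decide_true, Bool.true_and]
    by_cases hd : d (i + 1) (k + 1) = 1
    · simp only [hd, true_and]
      have e1 : i + 1 - 1 = i := by ring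
      have e2 : (k : ℤ) + 1 + 1 = k + 2 := by ring
      have e3 : (k : ℤ) + 1 - 1 = k := by ring
      rcases four h.mv (i + 1) (k + 1) hd with h1 | h1 | h1 | h1
      · have n1 : ¬ (i + 1 + 1 = i) := by omega
        rw [h1]
        simp [n1]
      · rw [h1, e1]
        simp
        try omega
      · rw [h1, e2]
        simp
      · rw [h1, e3]
        simp
    · simp [hd]
  · simp [hk]

theorem xor4 (D A B C E : Prop) [Decidable D] [Decidable A] [Decidable B] [Decidable C]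
    [Decidable E] (h : D ↔ (A ∨ B ∨ C ∨ E)) (n1 : ¬ (A ∧ B)) (n2 : ¬ (A ∧ C)) (n3 : ¬ (A ∧ E))
    (n4 : ¬ (B ∧ C)) (n5 : ¬ (B ∧ E)) (n6 : ¬ (C ∧ E)) :
    (decide D ^^ decide A ^^ decide B ^^ decide C) = decide E := by
  by_cases a1 : A <;> by_cases a2 : B <;> by_cases a3 : C <;> by_cases a4 : E <;> simp_all

theorem src_unique {d d' : ℤ → ℤ → ℤ} {f : ℤ × ℤ → ℤ × ℤ} (h : Mv d d' f) (v w : ℤ × ℤ)
    (hv : d v.1 v.2 = 1) (hw : d w.1 w.2 = 1) (e : f v = f w) : v = w := h.inj v w hv hw e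

theorem V_eq {d d' : ℤ → ℤ → ℤ} {f : ℤ × ℤ → ℤ × ℤ} {i : ℤ} (h : Mot d d' f i) :
    om d' (i + 1) ^^^ Um d f i ^^^ (Rm d f (i + 1) <<< 1) ^^^ (Lm d f (i + 1) >>> 1) = Vm d f (i + 1) := by
  apply Nat.eq_of_testBit_eq
  intro k
  rw [Nat.testBit_xor, Nat.testBit_xor, Nat.testBit_xor, om_bit, Nat.testBit_shiftLeft,
    Nat.testBit_shiftRight]
  unfold Vm Rm Lm Um
  rw [bm_testBit, bm_testBit, bm_testBit, bm_testBit]
  -- the four sources of the cell (i + 1, k + 1)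
  have s1 : (d i (k + 1) = 1 ∧ f (i, (k : ℤ) + 1) = (i + 1, (k : ℤ) + 1)) → d' (i + 1) (k + 1) = 1 := by
    rintro ⟨h1, h2⟩
    have := h.mv.mem (i, k + 1) h1
    rwa [h2] at this
  by_cases hk : k < 11
  · simp only [hk, decide_true, Bool.true_and]
    have hL : (decide (1 + k < 11) && decide (d (i + 1) (((1 + k : ℕ) : ℤ) + 1) = 1 ∧
        f (i + 1, ((1 + k : ℕ) : ℤ) + 1) = (i + 1, ((1 + k : ℕ) : ℤ)))) =
        decide (d (i + 1) ((k : ℤ) + 2) = 1 ∧ f (i + 1, (k : ℤ) + 2) = (i + 1, (k : ℤ) + 1)) := by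
      have e1 : (((1 + k : ℕ) : ℤ) + 1) = k + 2 := by push_cast; ring
      have e2 : ((1 + k : ℕ) : ℤ) = k + 1 := by push_cast; ring
      rw [e1, e2]
      by_cases h10 : 1 + k < 11
      · simp [h10]
      · have hk10 : k = 10 := by omega
        subst hk10
        have : ¬ (d (i + 1) (((10 : ℕ) : ℤ) + 2) = 1 ∧ f (i + 1, ((10 : ℕ) : ℤ) + 2) = (i + 1, ((10 : ℕ) : ℤ) + 1)) := by
          rintro ⟨h1, h2⟩
          have h3 := h.down (i + 1) (((10 : ℕ) : ℤ) + 2) (by omega) (by omega) (by norm_num) (by norm_num) h1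
          rw [h3, Prod.mk.injEq] at h2
          omega
        rw [decide_eq_false this]
        simp
    rw [hL]
    have hR : (decide (k ≥ 1) && (decide (k - 1 < 11) && decide (d (i + 1) (((k - 1 : ℕ) : ℤ) + 1) = 1 ∧
        f (i + 1, ((k - 1 : ℕ) : ℤ) + 1) = (i + 1, ((k - 1 : ℕ) : ℤ) + 2)))) =
        decide (d (i + 1) (k : ℤ) = 1 ∧ f (i + 1, (k : ℤ)) = (i + 1, (k : ℤ) + 1)) := by
      by_cases h0 : k ≥ 1
      · have e1 : (((k - 1 : ℕ) : ℤ) + 1) = k := by omega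
        have e2 : (((k - 1 : ℕ) : ℤ) + 2) = k + 1 := by omega
        have e3 : k - 1 < 11 := by omega
        rw [e1, e2]
        simp [h0, e3]
      · have hk0 : k = 0 := by omega
        subst hk0
        have : ¬ (d (i + 1) ((0 : ℕ) : ℤ) = 1 ∧ f (i + 1, ((0 : ℕ) : ℤ)) = (i + 1, ((0 : ℕ) : ℤ) + 1)) := by
          rintro ⟨h1, -⟩
          rw [h.zero _ _ (by simp)] at h1
          omega
        rw [decide_eq_false this]
        simp
    rw [hR]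
    have nAB : ¬ ((d i (k + 1) = 1 ∧ f (i, (k : ℤ) + 1) = (i + 1, (k : ℤ) + 1)) ∧ (d (i + 1) (k : ℤ) = 1 ∧ f (i + 1, (k : ℤ)) = (i + 1, (k : ℤ) + 1))) := by
      rintro ⟨a1, b1⟩
      have := h.mv.inj (i, k + 1) (i + 1, k) a1.1 b1.1 (a1.2.trans b1.2.symm)
      rw [Prod.mk.injEq] at this
      omega
    have nAC : ¬ ((d i (k + 1) = 1 ∧ f (i, (k : ℤ) + 1) = (i + 1, (k : ℤ) + 1)) ∧ (d (i + 1) ((k : ℤ) + 2) = 1 ∧ f (i + 1, (k : ℤ) + 2) = (i + 1, (k : ℤ) + 1))) := by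
      rintro ⟨a1, b1⟩
      have := h.mv.inj (i, k + 1) (i + 1, k + 2) a1.1 b1.1 (a1.2.trans b1.2.symm)
      rw [Prod.mk.injEq] at this
      omega
    have nAE : ¬ ((d i (k + 1) = 1 ∧ f (i, (k : ℤ) + 1) = (i + 1, (k : ℤ) + 1)) ∧ (d (i + 1 + 1) (k + 1) = 1 ∧ f (i + 1 + 1, (k : ℤ) + 1) = (i + 1, (k : ℤ) + 1))) := by
      rintro ⟨a1, b1⟩
      have := h.mv.inj (i, k + 1) (i + 1 + 1, k + 1) a1.1 b1.1 (a1.2.trans b1.2.symm)
      rw [Prod.mk.injEq] at this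
      omega
    have nBC : ¬ ((d (i + 1) (k : ℤ) = 1 ∧ f (i + 1, (k : ℤ)) = (i + 1, (k : ℤ) + 1)) ∧ (d (i + 1) ((k : ℤ) + 2) = 1 ∧ f (i + 1, (k : ℤ) + 2) = (i + 1, (k : ℤ) + 1))) := by
      rintro ⟨a1, b1⟩
      have := h.mv.inj (i + 1, k) (i + 1, k + 2) a1.1 b1.1 (a1.2.trans b1.2.symm)
      rw [Prod.mk.injEq] at this
      omega
    have nBE : ¬ ((d (i + 1) (k : ℤ) = 1 ∧ f (i + 1, (k : ℤ)) = (i + 1, (k : ℤ) + 1)) ∧ (d (i + 1 + 1) (k + 1) = 1 ∧ f (i + 1 + 1, (k : ℤ) + 1) = (i + 1, (k : ℤ) + 1))) := by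
      rintro ⟨a1, b1⟩
      have := h.mv.inj (i + 1, k) (i + 1 + 1, k + 1) a1.1 b1.1 (a1.2.trans b1.2.symm)
      rw [Prod.mk.injEq] at this
      omega
    have nCE : ¬ ((d (i + 1) ((k : ℤ) + 2) = 1 ∧ f (i + 1, (k : ℤ) + 2) = (i + 1, (k : ℤ) + 1)) ∧ (d (i + 1 + 1) (k + 1) = 1 ∧ f (i + 1 + 1, (k : ℤ) + 1) = (i + 1, (k : ℤ) + 1))) := by
      rintro ⟨a1, b1⟩
      have := h.mv.inj (i + 1, k + 2) (i + 1 + 1, k + 1) a1.1 b1.1 (a1.2.trans b1.2.symm)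
      rw [Prod.mk.injEq] at this
      omega
    have hall : d' (i + 1) (k + 1) = 1 ↔ ((d i (k + 1) = 1 ∧ f (i, (k : ℤ) + 1) = (i + 1, (k : ℤ) + 1)) ∨ (d (i + 1) (k : ℤ) = 1 ∧ f (i + 1, (k : ℤ)) = (i + 1, (k : ℤ) + 1)) ∨ (d (i + 1) ((k : ℤ) + 2) = 1 ∧ f (i + 1, (k : ℤ) + 2) = (i + 1, (k : ℤ) + 1)) ∨ (d (i + 1 + 1) (k + 1) = 1 ∧ f (i + 1 + 1, (k : ℤ) + 1) = (i + 1, (k : ℤ) + 1))) := by
      constructor
      · intro hd'
        obtain ⟨v, hv, hfv⟩ := h.mv.surj (i + 1, k + 1) hd'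
        have hn := four h.mv v.1 v.2 hv
        have ev : (v.1, v.2) = v := rfl
        rw [ev, hfv] at hn
        simp only [Prod.mk.injEq] at hn
        rcases hn with ⟨h1, h2⟩ | ⟨h1, h2⟩ | ⟨h1, h2⟩ | ⟨h1, h2⟩
        · left
          have e : v = (i, (k : ℤ) + 1) := Prod.ext (by simp only; omega) (by simp only; omega)
          rw [e] at hv hfv
          exact ⟨hv, hfv⟩
        · right; right; right
          have e : v = (i + 1 + 1, (k : ℤ) + 1) := Prod.ext (by simp only; omega) (by simp only; omega)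
          rw [e] at hv hfv
          exact ⟨hv, hfv⟩
        · right; left
          have e : v = (i + 1, (k : ℤ)) := Prod.ext (by simp only; omega) (by simp only; omega)
          rw [e] at hv hfv
          exact ⟨hv, hfv⟩
        · right; right; left
          have e : v = (i + 1, (k : ℤ) + 2) := Prod.ext (by simp only; omega) (by simp only; omega)
          rw [e] at hv hfv
          exact ⟨hv, hfv⟩
      · rintro (h1 | h1 | h1 | h1)
        · exact s1 h1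
        · have := h.mv.mem (i + 1, k) h1.1
          rwa [h1.2] at this
        · have := h.mv.mem (i + 1, k + 2) h1.1
          rwa [h1.2] at this
        · have := h.mv.mem (i + 1 + 1, k + 1) h1.1
          rwa [h1.2] at this
    exact xor4 _ _ _ _ _ hall nAB nAC nAE nBC nBE nCE
  · have hk1 : ¬ 1 + k < 11 := by omega
    simp only [hk, hk1, decide_false, Bool.false_and]
    by_cases h11 : k = 11
    · subst h11
      have : ¬ (d (i + 1) (((11 - 1 : ℕ) : ℤ) + 1) = 1 ∧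
          f (i + 1, ((11 - 1 : ℕ) : ℤ) + 1) = (i + 1, ((11 - 1 : ℕ) : ℤ) + 2)) := by
        rintro ⟨h1, h2⟩
        have h3 := h.down (i + 1) (((11 - 1 : ℕ) : ℤ) + 1) (by omega) (by omega) (by norm_num) (by norm_num) h1
        rw [h3, Prod.mk.injEq] at h2
        omega
      rw [decide_eq_false this]
      simp
    · have hk2 : ¬ k - 1 < 11 := by omega
      simp [hk2]

end Ex

end PatGap
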