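import Pool.Agent.H.MP_b28609_co.Gap.Ex.PairT

/-!
# MP_b28609_co, exact theorem: search for a good row, conclusion
-/

set_option autoImplicit false
set_option maxRecDepth 100000

namespace PatGap

open Side

namespace Ex

open PatDom.V2 (allSub allSub_sound)

theorem Um_bit (d : ℤ → ℤ → ℤ) (f : ℤ × ℤ → ℤ × ℤ) (i : ℤ) (k : ℕ) : (Um d f i).testBit k =
    (decide (k < 11) && decide (d i (k + 1) = 1 ∧ f (i, (k : ℤ) + 1) = (i + 1, (k : ℤ) + 1))) :=
  bm_testBit _ _ _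

theorem Vm_bit (d : ℤ → ℤ → ℤ) (f : ℤ × ℤ → ℤ × ℤ) (i : ℤ) (k : ℕ) : (Vm d f i).testBit k =
    (decide (k < 11) && decide (d (i + 1) (k + 1) = 1 ∧ f (i + 1, (k : ℤ) + 1) = (i, (k : ℤ) + 1))) :=
  bm_testBit _ _ _

theorem Rm_bit (d : ℤ → ℤ → ℤ) (f : ℤ × ℤ → ℤ × ℤ) (i : ℤ) (k : ℕ) : (Rm d f i).testBit k =
    (decide (k < 11) && decide (d i (k + 1) = 1 ∧ f (i, (k : ℤ) + 1) = (i, (k : ℤ) + 2))) :=
  bm_testBit _ _ _

theorem Lm_bit (d : ℤ → ℤ → ℤ) (f : ℤ × ℤ → ℤ × ℤ) (i : ℤ) (k : ℕ) : (Lm d f i).testBit k =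
    (decide (k < 11) && decide (d i (k + 1) = 1 ∧ f (i, (k : ℤ) + 1) = (i, (k : ℤ)))) :=
  bm_testBit _ _ _

/-- Facts for the step from the row `i` to the row `i + 1`. -/
structure Fac (d d' : ℤ → ℤ → ℤ) (f : ℤ × ℤ → ℤ × ℤ) (i : ℤ) : Prop where
  mot : Mot d d' f i
  dom : ∀ j, 1 ≤ j → j ≤ 10 → 1 ≤ a d i j
  dom1 : ∀ j, 1 ≤ j → j ≤ 10 → 1 ≤ a d (i + 1) j
  dom' : ∀ j, 1 ≤ j → j ≤ 10 → 1 ≤ a d' i j
  tight : sg Gs d (i + 1) = 0
  tight' : sg Gs d' (i + 1) = 0

variable {d d' : ℤ → ℤ → ℤ} {f : ℤ × ℤ → ℤ × ℤ} {i : ℤ}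

theorem R_lt10 (h : Fac d d' f i) (k : ℕ) (hk : (Rm d f (i + 1)).testBit k = true) :
    k < 10 ∧ d (i + 1) (k + 1) = 1 ∧ f (i + 1, (k : ℤ) + 1) = (i + 1, (k : ℤ) + 2) := by
  rw [Rm_bit, Bool.and_eq_true, decide_eq_true_eq, decide_eq_true_eq] at hk
  obtain ⟨h1, h2, h3⟩ := hk
  refine ⟨?_, h2, h3⟩
  by_contra hc
  have h10 : k = 10 := by omega
  subst h10
  have h4 := h.mot.down (i + 1) (((10 : ℕ) : ℤ) + 1) (by omega) (by omega) (by norm_num) (by norm_num) h2
  rw [h3, Prod.mk.injEq] at h4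
  omega

theorem L_lt10 (h : Fac d d' f i) (k : ℕ) (hk : (Lm d f (i + 1)).testBit k = true) :
    k < 10 ∧ d (i + 1) (k + 1) = 1 ∧ f (i + 1, (k : ℤ) + 1) = (i + 1, (k : ℤ)) := by
  rw [Lm_bit, Bool.and_eq_true, decide_eq_true_eq, decide_eq_true_eq] at hk
  obtain ⟨h1, h2, h3⟩ := hk
  refine ⟨?_, h2, h3⟩
  by_contra hc
  have h10 : k = 10 := by omega
  subst h10
  have h4 := h.mot.down (i + 1) (((10 : ℕ) : ℤ) + 1) (by omega) (by omega) (by norm_num) (by norm_num) h2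
  rw [h3, Prod.mk.injEq] at h4
  omega

theorem lt_of_bits (x n : ℕ) (h : ∀ k, x.testBit k = true → k < n) : x < 2 ^ n := by
  apply Nat.lt_pow_two_of_testBit
  intro k hk
  cases hx : x.testBit k
  · rfl
  · have := h k hx
    omega

theorem R_sub (h : Fac d d' f i) (k : ℕ) (hk : (Rm d f (i + 1)).testBit k = true) :
    (1023 &&& (om d (i + 1) ^^^ Vm d f i)).testBit k = true := by
  obtain ⟨h1, h2, h3⟩ := R_lt10 h k hk
  have h4 : k < 11 := by omega
  rw [Nat.testBit_and, Nat.testBit_xor, bit1023, om_bit, Vm_bit]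
  have n1 : ¬ (i + 1 = i) := by omega
  simp [h1, h4, h2, h3, n1]

theorem L_sub (h : Fac d d' f i) (k : ℕ) (hk : (Lm d f (i + 1)).testBit k = true) :
    (1023 &&& (om d (i + 1) ^^^ Vm d f i ^^^ Rm d f (i + 1))).testBit k = true := by
  obtain ⟨h1, h2, h3⟩ := L_lt10 h k hk
  have h4 : k < 11 := by omega
  rw [Nat.testBit_and, Nat.testBit_xor, Nat.testBit_xor, bit1023, om_bit, Vm_bit, Rm_bit]
  have n1 : ¬ (i + 1 = i) := by omega
  simp [h1, h4, h2, h3, n1]

theorem R_shift (h : Fac d d' f i) :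
    sub (Rm d f (i + 1) <<< 1) (om d' (i + 1) ^^^ Um d f i) = true := by
  rw [sub_iff]
  intro k hk
  rw [Nat.testBit_shiftLeft, Bool.and_eq_true, decide_eq_true_eq] at hk
  obtain ⟨hk1, hk2⟩ := hk
  obtain ⟨h1, h2, h3⟩ := R_lt10 h (k - 1) hk2
  have e1 : (((k - 1 : ℕ) : ℤ) + 1) = k := by omega
  have e2 : (((k - 1 : ℕ) : ℤ) + 2) = k + 1 := by omega
  rw [e1] at h2 h3
  rw [e2] at h3
  have hd' : d' (i + 1) (k + 1) = 1 := by
    have := h.mot.mv.mem (i + 1, k) h2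
    rwa [h3] at this
  have hk11 : k < 11 := by omega
  have nU : ¬ (d i (k + 1) = 1 ∧ f (i, (k : ℤ) + 1) = (i + 1, (k : ℤ) + 1)) := by
    rintro ⟨a1, a2⟩
    have := h.mot.mv.inj (i, k + 1) (i + 1, k) a1 h2 (a2.trans h3.symm)
    rw [Prod.mk.injEq] at this
    omega
  rw [Nat.testBit_xor, om_bit, Um_bit, decide_eq_false nU]
  simp [hk11, hd']

theorem L_zero (h : Fac d d' f i) : Lm d f (i + 1) % 2 = 0 := by
  have h1 : (Lm d f (i + 1)).testBit 0 = false := by
    cases hx : (Lm d f (i + 1)).testBit 0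
    · rfl
    · obtain ⟨-, h2, h3⟩ := L_lt10 h 0 hx
      have := h.mot.mv.mem (i + 1, ((0 : ℕ) : ℤ) + 1) h2
      rw [h3] at this
      simp only at this
      rw [h.mot.zero' _ _ (by simp)] at this
      omega
  rw [Nat.testBit_zero] at h1
  have := of_decide_eq_false h1
  omega

theorem L_shift (h : Fac d d' f i) :
    sub (Lm d f (i + 1) >>> 1) (om d' (i + 1) ^^^ Um d f i ^^^ (Rm d f (i + 1) <<< 1)) = true := by
  rw [sub_iff]
  intro k hk
  rw [Nat.testBit_shiftRight] at hk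
  obtain ⟨h1, h2, h3⟩ := L_lt10 h (1 + k) hk
  have e1 : (((1 + k : ℕ) : ℤ) + 1) = k + 2 := by push_cast; ring
  have e2 : ((1 + k : ℕ) : ℤ) = k + 1 := by push_cast; ring
  rw [e1] at h2 h3
  rw [e2] at h3
  have hd' : d' (i + 1) (k + 1) = 1 := by
    have := h.mot.mv.mem (i + 1, k + 2) h2
    rwa [h3] at this
  have hk11 : k < 11 := by omega
  have nU : ¬ (d i (k + 1) = 1 ∧ f (i, (k : ℤ) + 1) = (i + 1, (k : ℤ) + 1)) := by
    rintro ⟨a1, a2⟩
    have := h.mot.mv.inj (i, k + 1) (i + 1, k + 2) a1 h2 (a2.trans h3.symm)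
    rw [Prod.mk.injEq] at this
    omega
  have nR : (Rm d f (i + 1) <<< 1).testBit k = false := by
    cases hx : (Rm d f (i + 1) <<< 1).testBit k
    · rfl
    · rw [Nat.testBit_shiftLeft, Bool.and_eq_true, decide_eq_true_eq] at hx
      obtain ⟨hk1, hk2⟩ := hx
      obtain ⟨-, b2, b3⟩ := R_lt10 h (k - 1) hk2
      have e3 : (((k - 1 : ℕ) : ℤ) + 1) = k := by omega
      have e4 : (((k - 1 : ℕ) : ℤ) + 2) = k + 1 := by omega
      rw [e3] at b2 b3
      rw [e4] at b3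
      have := h.mot.mv.inj (i + 1, k) (i + 1, k + 2) b2 h2 (b3.trans h3.symm)
      rw [Prod.mk.injEq] at this
      omega
  rw [Nat.testBit_xor, Nat.testBit_xor, nR, om_bit, Um_bit, decide_eq_false nU]
  simp [hk11, hd']

theorem V2_zero (h : Fac d d' f i) : Vm d f (i + 1) &&& 1024 = 0 := by
  apply Nat.eq_of_testBit_eq
  intro k
  have e : (1024 : ℕ).testBit k = decide (10 = k) := by
    rw [show (1024 : ℕ) = 2 ^ 10 from rfl, Nat.testBit_two_pow]
  rw [Nat.testBit_and, e, Vm_bit, Nat.zero_testBit]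
  by_cases hk : 10 = k
  · subst hk
    have : ¬ (d (i + 1 + 1) (((10 : ℕ) : ℤ) + 1) = 1 ∧
        f (i + 1 + 1, ((10 : ℕ) : ℤ) + 1) = (i + 1, ((10 : ℕ) : ℤ) + 1)) := by
      rintro ⟨a1, a2⟩
      have h4 := h.mot.down (i + 1 + 1) (((10 : ℕ) : ℤ) + 1) (by omega) (by omega) (by norm_num)
        (by norm_num) a1
      rw [a2, Prod.mk.injEq] at h4
      omega
    rw [decide_eq_false this]
    simp
  · simp [hk]

theorem V_sub (h : Fac d d' f i) : sub (Vm d f i) (om d (i + 1)) = true := by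
  rw [sub_iff]
  intro k hk
  rw [Vm_bit, Bool.and_eq_true, decide_eq_true_eq, decide_eq_true_eq] at hk
  rw [om_bit, Bool.and_eq_true, decide_eq_true_eq, decide_eq_true_eq]
  exact ⟨hk.1, hk.2.1⟩

theorem U_sub (h : Fac d d' f i) : sub (Um d f i) (om d' (i + 1)) = true := by
  rw [sub_iff]
  intro k hk
  rw [Um_bit, Bool.and_eq_true, decide_eq_true_eq, decide_eq_true_eq] at hk
  obtain ⟨h1, h2, h3⟩ := hk
  rw [om_bit, Bool.and_eq_true, decide_eq_true_eq, decide_eq_true_eq]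
  refine ⟨h1, ?_⟩
  have := h.mot.mv.mem (i, k + 1) h2
  rwa [h3] at this

theorem icc10 : Finset.Icc (1 : ℤ) 10 = {1, 2, 3, 4, 5, 6, 7, 8, 9, 10} := by decide

theorem sum_icc10 (g : ℤ → ℤ) : ∑ j ∈ Finset.Icc (1 : ℤ) 10, g j = ∑ k ∈ Finset.range 10, g (k + 1) := by
  rw [icc10]
  simp [Finset.sum_range_succ]
  ring

theorem gd_sound (h : Fac d d' f i) (hg : gd (dt d i) (dt d (i + 1)) (dt d' (i + 1)) (Vm d f i)
    (Rm d f (i + 1)) (Lm d f (i + 1)) (Vm d f (i + 1)) = true) : GoodRow d d' f i := by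
  unfold gd dt at hg
  rw [Bool.and_eq_true, Bool.and_eq_true] at hg
  obtain ⟨g1, g2, g3⟩ := hg
  have g1' : sub (wm d' (i + 1)) (om d (i + 1)) = true := g1
  have g2' : sub (1023 &&& om d i) (om d' (i + 1) ||| nbm (om d (i + 1))) = true := g2
  have g3' := Nat.le_of_ble_eq_true g3
  rw [sub_iff] at g1' g2'
  have hb := h.mot.bin
  have hb' := h.mot.bin'
  have nn : ∀ x y, 0 ≤ d x y := fun x y => by rcases hb x y with e | e <;> omega
  have nn' : ∀ x y, 0 ≤ d' x y := fun x y => by rcases hb' x y with e | e <;> omega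
  refine ⟨?_, ?_, ?_⟩
  · intro j h1 h2
    obtain ⟨k, rfl⟩ : ∃ k : ℕ, j = (k : ℤ) + 1 := ⟨(j - 1).toNat, by omega⟩
    by_contra hc
    have hk : k < 11 := by omega
    have m1 := nn' i (k + 1)
    have m2 := nn' (i + 1) (k + 1)
    have m3 := nn' (i + 1) ((k : ℤ) + 1 - 1)
    have m4 := nn' (i + 1) ((k : ℤ) + 1 + 1)
    have m5 := nn (i + 1) (k + 1)
    rw [show (k : ℤ) + 1 - 1 = k by ring] at *
    rw [show (k : ℤ) + 1 + 1 = k + 2 by ring] at *
    have hst : st d' (i + 1) k = 2 := by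
      rw [st_two, show i + 1 - 1 = i by ring]
      exact ⟨by omega, by omega, by omega, by omega, by omega⟩
    have h3 := g1' k (by rw [wm_bit]; simp [hk, hst])
    rw [om_bit, Bool.and_eq_true, decide_eq_true_eq, decide_eq_true_eq] at h3
    omega
  · intro j h1 h2
    obtain ⟨k, rfl⟩ : ∃ k : ℕ, j = (k : ℤ) + 1 := ⟨(j - 1).toNat, by omega⟩
    have hk : k < 11 := by omega
    have hk10 : k < 10 := by omega
    have ha := h.dom1 (k + 1) (by omega) (by omega)
    unfold a at ha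
    have m1 := nn' (i + 1) (k + 1)
    have m2 := nn (i + 1) (k + 1)
    have m3 := nn (i + 1) ((k : ℤ) + 1 - 1)
    have m4 := nn (i + 1) ((k : ℤ) + 1 + 1)
    have m5 := nn (i + 2) (k + 1)
    rw [show i + 1 - 1 = i by ring, show i + 1 + 1 = i + 2 by ring] at ha
    rcases hb i (k + 1) with e | e
    · rw [e] at ha
      omega
    · have h3 := g2' k (by
        rw [Nat.testBit_and, bit1023, om_bit]
        simp [hk, hk10, e])
      rw [Nat.testBit_or, nbm_testBit, om_bit, om_bit, om_bit, om_bit] at h3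
      simp only [Bool.or_eq_true, Bool.and_eq_true, decide_eq_true_eq] at h3
      rcases h3 with h3 | ((h3 | h3) | h3)
      · omega
      · omega
      · have e1 : (((k - 1 : ℕ) : ℤ) + 1) = (k : ℤ) + 1 - 1 := by omega
        rw [e1] at h3
        omega
      · have e1 : (((k + 1 : ℕ) : ℤ) + 1) = (k : ℤ) + 1 + 1 := by push_cast; ring
        rw [e1] at h3
        omega
  · rw [sum_icc10]
    have key : ∀ k ∈ Finset.range 10, ((if d (i + 1) (k + 1) = 1 ∧ (f (i + 1, (k : ℤ) + 1)).1 ≤ i + 1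
        then (1 : ℤ) else 0) + (if d (i + 2) (k + 1) = 1 ∧ (f (i + 2, (k : ℤ) + 1)).1 ≤ i + 1
        then (1 : ℤ) else 0)) ≤
        (((if decide (d (i + 1) (k + 1) = 1 ∧ f (i + 1, (k : ℤ) + 1) = (i, (k : ℤ) + 1)) = true then 1 else 0) +
        (if decide (d (i + 1) (k + 1) = 1 ∧ f (i + 1, (k : ℤ) + 1) = (i + 1, (k : ℤ) + 2)) = true then 1 else 0) +
        (if decide (d (i + 1) (k + 1) = 1 ∧ f (i + 1, (k : ℤ) + 1) = (i + 1, (k : ℤ))) = true then 1 else 0) +
        (if decide (d (i + 1 + 1) (k + 1) = 1 ∧ f (i + 1 + 1, (k : ℤ) + 1) = (i + 1, (k : ℤ) + 1)) = true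
          then 1 else 0) : ℕ) : ℤ) := by
      intro k _
      have p1 : (if d (i + 1) (k + 1) = 1 ∧ (f (i + 1, (k : ℤ) + 1)).1 ≤ i + 1 then (1 : ℤ) else 0) ≤
          (((if decide (d (i + 1) (k + 1) = 1 ∧ f (i + 1, (k : ℤ) + 1) = (i, (k : ℤ) + 1)) = true then 1 else 0) +
          (if decide (d (i + 1) (k + 1) = 1 ∧ f (i + 1, (k : ℤ) + 1) = (i + 1, (k : ℤ) + 2)) = true then 1 else 0) +
          (if decide (d (i + 1) (k + 1) = 1 ∧ f (i + 1, (k : ℤ) + 1) = (i + 1, (k : ℤ))) = true then 1 else 0) : ℕ) : ℤ) := by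
        by_cases hd : d (i + 1) (k + 1) = 1
        · rcases four h.mot.mv (i + 1) (k + 1) hd with e | e | e | e
          · rw [e]
            simp [hd]
            try omega
          · rw [show i + 1 - 1 = i by ring] at e
            rw [e]
            simp [hd]
            try omega
          · rw [show (k : ℤ) + 1 + 1 = k + 2 by ring] at e
            rw [e]
            simp [hd]
            try omega
          · rw [show (k : ℤ) + 1 - 1 = k by ring] at e
            rw [e]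
            simp [hd]
            try omega
        · simp [hd]
      have p2 : (if d (i + 2) (k + 1) = 1 ∧ (f (i + 2, (k : ℤ) + 1)).1 ≤ i + 1 then (1 : ℤ) else 0) ≤
          ((if decide (d (i + 1 + 1) (k + 1) = 1 ∧ f (i + 1 + 1, (k : ℤ) + 1) = (i + 1, (k : ℤ) + 1)) = true
            then 1 else 0 : ℕ) : ℤ) := by
        rw [show i + 1 + 1 = i + 2 by ring]
        by_cases hd : d (i + 2) (k + 1) = 1
        · rcases four h.mot.mv (i + 2) (k + 1) hd with e | e | e | e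
          · rw [e]
            simp [hd]
            try omega
          · rw [show i + 2 - 1 = i + 1 by ring] at e
            rw [e]
            simp [hd]
            try omega
          · rw [e]
            simp [hd]
            try omega
          · rw [e]
            simp [hd]
            try omega
        · simp [hd]
      have p3 := add_le_add p1 p2
      push_cast at p3 ⊢
      linarith
    refine le_trans (Finset.sum_le_sum key) ?_
    have q : (∑ k ∈ Finset.range 10,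
        ((if decide (d (i + 1) (k + 1) = 1 ∧ f (i + 1, (k : ℤ) + 1) = (i, (k : ℤ) + 1)) = true then 1 else 0) +
        (if decide (d (i + 1) (k + 1) = 1 ∧ f (i + 1, (k : ℤ) + 1) = (i + 1, (k : ℤ) + 2)) = true then 1 else 0) +
        (if decide (d (i + 1) (k + 1) = 1 ∧ f (i + 1, (k : ℤ) + 1) = (i + 1, (k : ℤ))) = true then 1 else 0) +
        (if decide (d (i + 1 + 1) (k + 1) = 1 ∧ f (i + 1 + 1, (k : ℤ) + 1) = (i + 1, (k : ℤ) + 1)) = true
          then 1 else 0)) : ℕ) ≤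
        pop (Vm d f i) + pop (Rm d f (i + 1)) + pop (Lm d f (i + 1)) + pop (Vm d f (i + 1)) := by
      unfold Vm Rm Lm
      rw [pop_bm, pop_bm, pop_bm, pop_bm, ← Finset.sum_add_distrib, ← Finset.sum_add_distrib,
        ← Finset.sum_add_distrib, Finset.sum_range_succ _ 10]
      exact Nat.le_add_right _ _
    have q2 := le_trans q g3'
    exact_mod_cast q2

theorem srch_sound (P : ℕ → List Ent) (n : ℕ) : ∀ (φ : ℕ) (i : ℤ), φ < 5 →
    (∀ k : ℕ, k < n → Fac d d' f (i + k)) →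
    (∀ k : ℕ, k ≤ n → dt d (i + k) ∈ P ((φ + k) % 5) ∧ dt d' (i + k) ∈ P ((φ + k + 4) % 5)) →
    srch P n φ (dt d i) (dt d' i) (Um d f i) (Vm d f i) = true →
    ∃ b, i ≤ b ∧ b < i + n ∧ GoodRow d d' f b := by
  induction n with
  | zero =>
    intro φ i _ _ _ h
    have h' : false = true := h
    cases h'
  | succ n ih =>
    intro φ i hφ hF hP h
    have hf : Fac d d' f i := by
      have := hF 0 (by omega)
      rwa [Nat.cast_zero, add_zero] at this
    have hP1 := hP 1 (by omega)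
    rw [Nat.cast_one, show (φ + 1 + 4) % 5 = φ by omega] at hP1
    have h' : ((P ((φ + 1) % 5)).all fun y => !(stepok (dt d i) y && sub (Vm d f i) y.1) ||
      (P φ).all fun t => !(stepok (dt d' i) t && sub (Um d f i) t.1) ||
      allSub 10 (1023 &&& (y.1 ^^^ Vm d f i)) 0 fun R =>
        !(sub (R <<< 1) (t.1 ^^^ Um d f i)) ||
        allSub 10 (1023 &&& (y.1 ^^^ Vm d f i ^^^ R)) 0 fun L =>
          !(Nat.beq (L % 2) 0 && (sub (L >>> 1) (t.1 ^^^ Um d f i ^^^ (R <<< 1)) &&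
            Nat.beq ((t.1 ^^^ Um d f i ^^^ (R <<< 1) ^^^ (L >>> 1)) &&& 1024) 0)) ||
          (gd (dt d i) y t (Vm d f i) R L (t.1 ^^^ Um d f i ^^^ (R <<< 1) ^^^ (L >>> 1)) ||
            srch P n ((φ + 1) % 5) y t (y.1 ^^^ Vm d f i ^^^ R ^^^ L)
              (t.1 ^^^ Um d f i ^^^ (R <<< 1) ^^^ (L >>> 1)))) = true := h
    have s1 := stepok_dt d hf.mot.bin hf.mot.zero i hf.dom hf.tight
    have s2 := stepok_dt d' hf.mot.bin' hf.mot.zero' i hf.dom' hf.tight'
    have v1 := V_sub hf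
    have u1 := U_sub hf
    have h1 := (List.all_eq_true.mp h') _ hP1.1
    change (!(stepok (dt d i) (dt d (i + 1)) && sub (Vm d f i) (om d (i + 1))) || _) = true at h1
    rw [s1, v1, Bool.and_self, Bool.not_true, Bool.false_or] at h1
    have h2 := (List.all_eq_true.mp h1) _ hP1.2
    change (!(stepok (dt d' i) (dt d' (i + 1)) && sub (Um d f i) (om d' (i + 1))) || _) = true at h2
    rw [s2, u1, Bool.and_self, Bool.not_true, Bool.false_or] at h2
    have h3 := allSub_sound _ _ _ _ h2 (Rm d f (i + 1)) (lt_of_bits _ _ fun k hk => (R_lt10 hf k hk).1)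
      (R_sub hf)
    rw [Nat.zero_or] at h3
    change (!(sub (Rm d f (i + 1) <<< 1) (om d' (i + 1) ^^^ Um d f i)) || _) = true at h3
    rw [R_shift hf, Bool.not_true, Bool.false_or] at h3
    have h4 := allSub_sound _ _ _ _ h3 (Lm d f (i + 1)) (lt_of_bits _ _ fun k hk => (L_lt10 hf k hk).1)
      (L_sub hf)
    rw [Nat.zero_or] at h4
    change (!(Nat.beq (Lm d f (i + 1) % 2) 0 && (sub (Lm d f (i + 1) >>> 1)
      (om d' (i + 1) ^^^ Um d f i ^^^ (Rm d f (i + 1) <<< 1)) &&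
      Nat.beq ((om d' (i + 1) ^^^ Um d f i ^^^ (Rm d f (i + 1) <<< 1) ^^^ (Lm d f (i + 1) >>> 1)) &&& 1024) 0)) ||
      (gd (dt d i) (dt d (i + 1)) (dt d' (i + 1)) (Vm d f i) (Rm d f (i + 1)) (Lm d f (i + 1))
        (om d' (i + 1) ^^^ Um d f i ^^^ (Rm d f (i + 1) <<< 1) ^^^ (Lm d f (i + 1) >>> 1)) ||
        srch P n ((φ + 1) % 5) (dt d (i + 1)) (dt d' (i + 1))
          (om d (i + 1) ^^^ Vm d f i ^^^ Rm d f (i + 1) ^^^ Lm d f (i + 1))
          (om d' (i + 1) ^^^ Um d f i ^^^ (Rm d f (i + 1) <<< 1) ^^^ (Lm d f (i + 1) >>> 1)))) = true at h4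
    rw [V_eq hf.mot, U_eq hf.mot, L_shift hf, L_zero hf, V2_zero hf] at h4
    have h5 : (gd (dt d i) (dt d (i + 1)) (dt d' (i + 1)) (Vm d f i) (Rm d f (i + 1)) (Lm d f (i + 1))
        (Vm d f (i + 1)) || srch P n ((φ + 1) % 5) (dt d (i + 1)) (dt d' (i + 1)) (Um d f (i + 1))
          (Vm d f (i + 1))) = true := h4
    rw [Bool.or_eq_true] at h5
    rcases h5 with h5 | h5
    · exact ⟨i, le_rfl, by push_cast; omega, gd_sound hf h5⟩
    · obtain ⟨b, hb1, hb2, hb3⟩ := ih ((φ + 1) % 5) (i + 1) (by omega)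
        (fun k hk => by
          have := hF (k + 1) (by omega)
          rwa [Nat.cast_add, Nat.cast_one, show i + ((k : ℤ) + 1) = i + 1 + k by ring] at this)
        (fun k hk => by
          have := hP (k + 1) (by omega)
          rwa [Nat.cast_add, Nat.cast_one, show i + ((k : ℤ) + 1) = i + 1 + k by ring,
            show (φ + (k + 1)) % 5 = ((φ + 1) % 5 + k) % 5 by omega,
            show (φ + (k + 1) + 4) % 5 = ((φ + 1) % 5 + k + 4) % 5 by omega] at this)
        h5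
      exact ⟨b, by omega, by push_cast; omega, hb3⟩

end Ex

end PatGap
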