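import Pool.Agent.H.MP_b28609_co.Gap.Ex.PrDef

/-!
# MP_b28609_co, exact theorem: masks
-/

set_option autoImplicit false

namespace PatGap.Pr

/-- The mask of a predicate on `0, ..., 9`. -/
noncomputable def ob (P : ℕ → Prop) : ℕ :=
  open Classical in Nat.ofBits fun k : Fin 10 => decide (P k)

theorem ob_tb (P : ℕ → Prop) (k : ℕ) : (ob P).testBit k = true ↔ k < 10 ∧ P k := by
  unfold ob
  by_cases h : k < 10
  · rw [Nat.testBit_ofBits_lt _ _ h]
    simp [h]
  · rw [Nat.testBit_ofBits_ge _ _ (by omega)]
    simp [h]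

theorem sb_iff (x y : ℕ) : sb x y = true ↔ ∀ k, x.testBit k = true → y.testBit k = true := by
  unfold sb
  rw [Nat.beq_eq]
  change x &&& y = x ↔ _
  constructor
  · intro h k hk
    have h1 : (x &&& y).testBit k = true := by rw [h]; exact hk
    rw [Nat.testBit_and, Bool.and_eq_true] at h1
    exact h1.2
  · intro h
    apply Nat.eq_of_testBit_eq
    intro k
    rw [Nat.testBit_and]
    cases hk : x.testBit k
    · rfl
    · rw [h k hk]
      rfl

theorem nbm_tb (x k : ℕ) : (nbm x).testBit k = true ↔
    (1 ≤ k ∧ x.testBit (k - 1) = true) ∨ x.testBit (k + 1) = true := by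
  unfold nbm
  change (x <<< 1 ||| x >>> 1).testBit k = true ↔ _
  rw [Nat.testBit_or, Nat.testBit_shiftLeft, Nat.testBit_shiftRight, Bool.or_eq_true,
    Bool.and_eq_true, decide_eq_true_eq, Nat.add_comm 1 k]

theorem xor_tb (x y k : ℕ) (h : y.testBit k = true → x.testBit k = true) :
    (Nat.xor x y).testBit k = true ↔ x.testBit k = true ∧ ¬ y.testBit k = true := by
  change (x ^^^ y).testBit k = true ↔ _
  rw [Nat.testBit_xor]
  cases hx : x.testBit k <;> cases hy : y.testBit k <;> simp_all

theorem pop_eq (x : ℕ) : pop x = ∑ k ∈ Finset.range 10, (x.testBit k).toNat := by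
  simp only [Finset.sum_range_succ, Finset.sum_range_zero, Nat.toNat_testBit]
  norm_num [pop]

theorem pop_ob (P : ℕ → Prop) [DecidablePred P] :
    pop (ob P) = ∑ k ∈ Finset.range 10, if P k then 1 else 0 := by
  rw [pop_eq]
  refine Finset.sum_congr rfl fun k hk => ?_
  have h := ob_tb P k
  rw [Finset.mem_range] at hk
  by_cases hp : P k
  · rw [if_pos hp, h.2 ⟨hk, hp⟩]
    rfl
  · rw [if_neg hp]
    cases hb : (ob P).testBit k
    · rfl
    · exact absurd (h.1 hb).2 hp

theorem subm_mem (n : ℕ) : ∀ x y : ℕ, x < 2 ^ n →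
    (∀ k, x.testBit k = true → y.testBit k = true) → x ∈ subm n y := by
  induction n with
  | zero =>
    intro x y hx _
    have : x = 0 := by simpa using hx
    subst this
    simp [subm]
  | succ n ih =>
    intro x y hx h
    have e : subm (n + 1) y = if Nat.testBit y n then
        (subm n y) ++ (subm n y).map (fun x => 2 ^ n + x) else subm n y := rfl
    rw [e]
    rcases Nat.lt_or_ge x (2 ^ n) with h1 | h1
    · have h2 := ih x y h1 h
      split_ifs
      · exact List.mem_append_left _ h2
      · exact h2
    · have hb : x.testBit n = true := by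
        obtain ⟨z, rfl⟩ := Nat.exists_eq_add_of_le h1
        have hz : z < 2 ^ n := by
          rw [pow_succ] at hx
          omega
        rw [Nat.testBit_two_pow_add_eq, Nat.testBit_lt_two_pow hz]
        rfl
      rw [if_pos (h n hb)]
      obtain ⟨z, rfl⟩ := Nat.exists_eq_add_of_le h1
      have hz : z < 2 ^ n := by
        rw [pow_succ] at hx
        omega
      refine List.mem_append_right _ (List.mem_map.2 ⟨z, ih z y hz ?_, rfl⟩)
      intro k hk
      apply h
      have hkn : k < n := by
        by_contra hc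
        have h3 : z < 2 ^ k := lt_of_lt_of_le hz (Nat.pow_le_pow_right (by norm_num) (by omega))
        rw [Nat.testBit_lt_two_pow h3] at hk
        cases hk
      rw [Nat.testBit_two_pow_add_gt hkn]
      exact hk

theorem ob_lt (P : ℕ → Prop) : ob P < 2 ^ 10 := by
  unfold ob
  exact Nat.ofBits_lt_two_pow _

end PatGap.Pr
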