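import Pool.Agent.H.MP_b28609_co.Gap.Ex.PrDef

/-!
# MP_b28609_co, exact theorem: the finite check
-/

set_option autoImplicit false

namespace PatGap.Pr

theorem ck2_0 : ini 2 cr2 0 = true := by decide +kernel
theorem ck2_1 : ini 2 cr2 1 = true := by decide +kernel
theorem ck2_2 : ini 2 cr2 2 = true := by decide +kernel
theorem ck2_3 : ini 2 cr2 3 = true := by decide +kernel
theorem ck2_4 : ini 2 cr2 4 = true := by decide +kernel
theorem ck3_0 : ini 3 cr3 0 = true := by decide +kernel
theorem ck3_1 : ini 3 cr3 1 = true := by decide +kernel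
theorem ck3_2 : ini 3 cr3 2 = true := by decide +kernel
theorem ck3_3 : ini 3 cr3 3 = true := by decide +kernel
theorem ck3_4 : ini 3 cr3 4 = true := by decide +kernel

end PatGap.Pr
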