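import Pool.Agent.H.MP_b28609_co.Gap.Ex.Stmt

/-!
# MP_b28609_co, exact theorem: pairs of rows in a side strip, definitions and the finite check

A row of a strip is a pair of masks with its potential: bit `k` of `g` says that there is a guard in
the column `k + 1`, bit `k` of `q` says that the cell in the column `k + 1` is not dominated by its own
row and the row before.
-/

set_option autoImplicit false

namespace PatGap.Pr

/-- Horizontal neighbours. -/
def nbm (x : ℕ) : ℕ := Nat.lor (Nat.shiftLeft x 1) (Nat.shiftRight x 1)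

/-- Inclusion of masks. -/
def sb (x y : ℕ) : Bool := Nat.beq (Nat.land x y) x

/-- Number of bits below `10`. -/
def pop (x : ℕ) : ℕ :=
  x % 2 + x / 2 % 2 + x / 4 % 2 + x / 8 % 2 + x / 16 % 2 + x / 32 % 2 + x / 64 % 2 +
    x / 128 % 2 + x / 256 % 2 + x / 512 % 2

/-- Submasks. -/
def subm : ℕ → ℕ → List ℕ
  | 0, _ => [0]
  | k + 1, y =>
    if Nat.testBit y k then (subm k y) ++ (subm k y).map (fun x => 2 ^ k + x) else subm k y

/-- Guard in the column `11`, seen in the column `10`. -/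
def tp (s p : ℕ) : ℕ := if (p + s * 11) % 5 = 0 then 512 else 0

/-- Weight of a row: `5` per guard in the columns `1, ..., 9`, `4` in the column `10`, `1` in the
column `11`. -/
def wt (t g : ℕ) : ℕ := 5 * pop g - g / 512 % 2 + t / 512

/-- From a row to the next row. -/
def ps (t : ℕ) (u v : ℕ × ℕ × ℕ) : Bool :=
  sb u.2.1 v.1 && (Nat.beq (v.2.2 + 11) (u.2.2 + wt t v.1) &&
    Nat.beq v.2.1 (Nat.xor 1023 (Nat.land 1023 (Nat.lor (Nat.lor v.1 (nbm v.1)) (Nat.lor u.1 t)))))

/-- The two sets can be glued here. -/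
def good (t : ℕ) (u v : ℕ × ℕ × ℕ) (R W : ℕ) : Bool :=
  sb v.2.1 u.1 && (sb 1023 (Nat.lor (Nat.lor u.1 (nbm u.1)) (Nat.lor t (Nat.lor u.2.1 v.1))) &&
    Nat.ble (pop u.1 + pop W) (pop R + 1))

/-- Horizontal moves. -/
def mvok (g g' R W R2 W2 : ℕ) : Bool :=
  sb (Nat.xor (Nat.xor g W) R2) (nbm (Nat.xor (Nat.xor g' R) W2)) &&
    sb (Nat.xor (Nat.xor g' R) W2) (nbm (Nat.xor (Nat.xor g W) R2))

/-- Next phase. -/
def nx (p : ℕ) : ℕ := (p + 1) % 5

/-- Every path with `k` rows from here has a good row. -/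
def nb (s : ℕ) (cr : ℕ → List (ℕ × ℕ × ℕ)) :
    ℕ → ℕ → ℕ × ℕ × ℕ → ℕ × ℕ × ℕ → ℕ → ℕ → Bool
  | 0, _, _, _, _, _ => false
  | k + 1, p, u, v, R, W =>
    good (tp s p) u v R W ||
      (cr (nx p)).all fun u2 => !(ps (tp s (nx p)) u u2 && sb W u2.1) ||
        (cr p).all fun v2 => !(ps (tp s p) v v2 && sb R v2.1) ||
          (subm 10 (Nat.xor u2.1 W)).all fun R2 => (subm 10 (Nat.xor v2.1 R)).all fun W2 =>
            !(mvok u2.1 v2.1 R W R2 W2) || nb s cr k (nx p) u2 v2 R2 W2

/-- The check for all first rows. -/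
def ini (s : ℕ) (cr : ℕ → List (ℕ × ℕ × ℕ)) (p : ℕ) : Bool :=
  (cr p).all fun u => (cr ((p + 4) % 5)).all fun v => (subm 10 u.1).all fun R =>
    (subm 10 v.1).all fun W => nb s cr 11 p u v R W

/-- Rows of the lists, slope `2`. -/
def cr2 : ℕ → List (ℕ × ℕ × ℕ)
  | 0 => [(528, 64, 14), (529, 64, 14), (530, 64, 14), (528, 66, 14), (528, 67, 9),
      (533, 64, 19), (532, 65, 14), (529, 68, 14), (536, 66, 14), (541, 64, 19), (517, 96, 14)]
  | 1 => [(66, 256, 13), (64, 258, 13), (68, 256, 13), (72, 258, 13), (65, 264, 13),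
      (66, 264, 13), (67, 264, 13), (64, 266, 13), (64, 270, 8), (96, 266, 13)]
  | 2 => [(266, 0, 17), (264, 32, 12), (264, 33, 12), (266, 32, 17), (264, 34, 12),
      (270, 32, 17), (258, 48, 12)]
  | 3 => [(32, 129, 12), (34, 128, 12), (36, 129, 12), (33, 132, 12), (32, 133, 12),
      (32, 135, 7), (41, 128, 17), (42, 128, 17), (40, 131, 12), (48, 133, 12)]
  | _ => [(133, 512, 16), (136, 513, 11), (144, 517, 11), (131, 528, 16), (132, 528, 11),
      (133, 528, 16), (132, 529, 11), (135, 528, 16), (128, 533, 11), (128, 534, 11),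
      (129, 536, 11), (128, 541, 6), (161, 520, 16)]

/-- Rows of the lists, slope `3`. -/
def cr3 : ℕ → List (ℕ × ℕ × ℕ)
  | 0 => [(529, 128, 16), (530, 128, 16), (532, 128, 16), (533, 128, 16), (528, 132, 16),
      (529, 132, 16), (528, 133, 11), (536, 129, 16), (541, 128, 21), (517, 144, 16)]
  | 1 => [(144, 2, 15), (128, 34, 15), (132, 32, 15), (133, 32, 15), (132, 33, 15),
      (135, 32, 20), (129, 36, 15), (136, 34, 15), (128, 42, 10)]
  | 2 => [(34, 256, 15), (36, 256, 15), (33, 260, 12), (42, 256, 15), (32, 264, 15),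
      (33, 264, 15), (34, 264, 15), (32, 266, 10), (32, 267, 10), (48, 258, 15)]
  | 3 => [(264, 65, 14), (266, 64, 14), (267, 64, 19), (264, 66, 14), (264, 67, 14),
      (268, 64, 16), (270, 64, 19), (258, 72, 14), (260, 80, 11)]
  | _ => [(72, 513, 13), (81, 512, 15), (65, 528, 15), (64, 529, 13), (66, 528, 13),
      (67, 528, 18), (68, 529, 13), (64, 532, 13), (65, 532, 13), (64, 533, 8), (96, 517, 13)]

end PatGap.Pr
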