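import Pool.Agent.H.MP_b28609_co.Gap.Ex.PrGood
import Pool.Agent.H.MP_b28609_co.Gap.Ex.PrChk
import Pool.Agent.H.MP_b28609_co.Gap.Ex.Lists

/-!
# MP_b28609_co, exact theorem: the strip module
-/

set_option autoImplicit false
set_option maxRecDepth 100000

noncomputable section

namespace PatGap.Pr

open Side Ex

/-- Mask of the digits equal to `v`. -/
def dg (v : ℕ) : ℕ → ℕ → ℕ
  | 0, _ => 0
  | n + 1, c => dg v n c + (if c / 3 ^ n % 3 = v then 2 ^ n else 0)

theorem dg_succ (v n c : ℕ) :
    dg v (n + 1) c = dg v n c + (if c / 3 ^ n % 3 = v then 2 ^ n else 0) := rfl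

theorem dg_lt (v n c : ℕ) : dg v n c < 2 ^ n := by
  induction n with
  | zero => simp [dg]
  | succ n ih =>
    rw [dg_succ, pow_succ]
    split_ifs <;> omega

theorem dg_tb (v n c j : ℕ) : (dg v n c).testBit j = true ↔ j < n ∧ c / 3 ^ j % 3 = v := by
  induction n with
  | zero => simp [dg]
  | succ n ih =>
    rw [dg_succ]
    split_ifs with h
    · rw [add_comm]
      rcases Nat.lt_trichotomy j n with hj | hj | hj
      · rw [Nat.testBit_two_pow_add_gt hj, ih]
        constructor
        · exact fun h2 => ⟨by omega, h2.2⟩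
        · exact fun h2 => ⟨hj, h2.2⟩
      · subst hj
        rw [Nat.testBit_two_pow_add_eq, Nat.testBit_lt_two_pow (dg_lt v j c)]
        simp [h]
      · have h1 : 2 ^ n + dg v n c < 2 ^ j := by
          have h2 := dg_lt v n c
          have h3 : 2 ^ (n + 1) ≤ 2 ^ j := Nat.pow_le_pow_right (by norm_num) hj
          rw [pow_succ] at h3
          omega
        rw [Nat.testBit_lt_two_pow h1]
        constructor
        · intro h2
          cases h2
        · rintro ⟨h2, -⟩
          omega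
    · rw [add_zero, ih]
      constructor
      · exact fun h2 => ⟨by omega, h2.2⟩
      · rintro ⟨h1, h2⟩
        refine ⟨?_, h2⟩
        by_contra hc
        have : j = n := by omega
        subst this
        exact h h2

theorem code_digit (p : ℕ → ℕ) (n : ℕ) (hp : ∀ k, k < n → p k ≤ 2) (j : ℕ) (hj : j < n) :
    code p n / 3 ^ j % 3 = p j := by
  induction n with
  | zero => omega
  | succ n ih =>
    rw [code_succ]
    rcases Nat.lt_or_ge j n with h | h
    · have h1 := ih (fun k hk => hp k (by omega)) h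
      obtain ⟨t, ht⟩ : ∃ t, n = j + 1 + t := ⟨n - (j + 1), by omega⟩
      have h2 : p n * 3 ^ n = 3 ^ j * (3 * (p n * 3 ^ t)) := by
        rw [ht, pow_add, pow_add]
        ring
      rw [h2, Nat.add_mul_div_left _ _ (by positivity), Nat.add_mul_mod_self_left]
      exact h1
    · have : j = n := by omega
      subst this
      have h1 := code_lt p j fun k hk => hp k (by omega)
      rw [Nat.add_mul_div_right _ _ (by positivity), Nat.div_eq_of_lt h1, zero_add]
      have := hp j (by omega)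
      omega

/-- The entry of a row from the code of its profile. -/
theorem en_code (d : ℤ → ℤ → ℤ) (i : ℤ) : en d i =
    (dg 1 10 (code (st d i) 11), dg 2 10 (code (st d i) 11), ln tab0 (code (st d i) 11)) := by
  have hd : ∀ j, j < 10 → code (st d i) 11 / 3 ^ j % 3 = st d i j := fun j hj =>
    code_digit (st d i) 11 (fun k _ => st_le d i k) j (by omega)
  unfold en
  rw [Prod.mk.injEq, Prod.mk.injEq]
  refine ⟨?_, ?_, ?_⟩
  · apply Nat.eq_of_testBit_eq
    intro k
    rw [Bool.eq_iff_iff, gM_tb, dg_tb]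
    refine and_congr_right fun hk => ?_
    rw [hd k hk, st_one]
  · apply Nat.eq_of_testBit_eq
    intro k
    rw [Bool.eq_iff_iff, qM_tb, dg_tb]
    refine and_congr_right fun hk => ?_
    rw [hd k hk]
  · unfold Gs
    rw [T_lt 0 (by omega), tabF_0]
    rfl

/-- The entry of a code. -/
def dc (x : ℕ) : ℕ × ℕ × ℕ := (dg 1 10 x, dg 2 10 x, ln tab0 x)

theorem d2_0 : ∀ x ∈ l2_12, dc x ∈ cr2 0 := by decide +kernel
theorem d2_1 : ∀ x ∈ l2_11, dc x ∈ cr2 1 := by decide +kernel
theorem d2_2 : ∀ x ∈ l2_10, dc x ∈ cr2 2 := by decide +kernel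
theorem d2_3 : ∀ x ∈ l2_9, dc x ∈ cr2 3 := by decide +kernel
theorem d2_4 : ∀ x ∈ l2_8, dc x ∈ cr2 4 := by decide +kernel
theorem d3_0 : ∀ x ∈ l3_12, dc x ∈ cr3 0 := by decide +kernel
theorem d3_1 : ∀ x ∈ l3_11, dc x ∈ cr3 1 := by decide +kernel
theorem d3_2 : ∀ x ∈ l3_10, dc x ∈ cr3 2 := by decide +kernel
theorem d3_3 : ∀ x ∈ l3_9, dc x ∈ cr3 3 := by decide +kernel
theorem d3_4 : ∀ x ∈ l3_8, dc x ∈ cr3 4 := by decide +kernel

theorem mem2 (d : ℤ → ℤ → ℤ) (c r : ℤ) (hb : Bin d) (hz : ∀ i j, j ≤ 0 → d i j = 0)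
    (hdom : ∀ i j, r ≤ i → i ≤ r + 60 → 1 ≤ j → j ≤ 10 → 1 ≤ a d i j)
    (ht : ∀ i, r ≤ i → i ≤ r + 60 → sg Gs d i = 0) (hl : Lat d 2 c r (r + 60) 10 13)
    (c0 : 0 ≤ c) (c4 : c ≤ 4) (i : ℤ) (h1 : r + 5 ≤ i) (h2 : i ≤ r + 48) :
    en d i ∈ cr2 ((i - c) % 5).toNat := by
  obtain ⟨p, hp⟩ : ∃ p : ℕ, p = ((i - c) % 5).toNat := ⟨_, rfl⟩
  rw [← hp]
  have hp5 : p < 5 := by omega
  have key := alive2 d hb hz (i + 12 - p)
    (fun l j g1 g2 g3 g4 => hdom l j (by omega) (by omega) g3 g4)
    (fun l g1 g2 => ht l (by omega) (by omega)) (by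
      intro k hk
      have g1 := hl (i + 12 - p - k) 10 (by omega) (by omega) (by omega) (by omega)
      have g2 := hl (i + 12 - p - k) 11 (by omega) (by omega) (by omega) (by omega)
      refine ⟨g1.trans ?_, g2.trans ?_⟩ <;> omega)
  obtain ⟨k8, k9, k10, k11, k12⟩ := key
  rw [en_code]
  change dc (code (st d i) 11) ∈ cr2 p
  rcases (show p = 0 ∨ p = 1 ∨ p = 2 ∨ p = 3 ∨ p = 4 by omega) with e | e | e | e | e
  · subst e
    rw [show i + 12 - ((0 : ℕ) : ℤ) - 12 = i by push_cast; ring] at k12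
    exact d2_0 _ k12
  · subst e
    rw [show i + 12 - ((1 : ℕ) : ℤ) - 11 = i by push_cast; ring] at k11
    exact d2_1 _ k11
  · subst e
    rw [show i + 12 - ((2 : ℕ) : ℤ) - 10 = i by push_cast; ring] at k10
    exact d2_2 _ k10
  · subst e
    rw [show i + 12 - ((3 : ℕ) : ℤ) - 9 = i by push_cast; ring] at k9
    exact d2_3 _ k9
  · subst e
    rw [show i + 12 - ((4 : ℕ) : ℤ) - 8 = i by push_cast; ring] at k8
    exact d2_4 _ k8

theorem mem3 (d : ℤ → ℤ → ℤ) (c r : ℤ) (hb : Bin d) (hz : ∀ i j, j ≤ 0 → d i j = 0)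
    (hdom : ∀ i j, r ≤ i → i ≤ r + 60 → 1 ≤ j → j ≤ 10 → 1 ≤ a d i j)
    (ht : ∀ i, r ≤ i → i ≤ r + 60 → sg Gs d i = 0) (hl : Lat d 3 c r (r + 60) 10 13)
    (c0 : 0 ≤ c) (c4 : c ≤ 4) (i : ℤ) (h1 : r + 5 ≤ i) (h2 : i ≤ r + 48) :
    en d i ∈ cr3 ((i - c) % 5).toNat := by
  obtain ⟨p, hp⟩ : ∃ p : ℕ, p = ((i - c) % 5).toNat := ⟨_, rfl⟩
  rw [← hp]
  have hp5 : p < 5 := by omega
  have key := alive3 d hb hz (i + 12 - p)
    (fun l j g1 g2 g3 g4 => hdom l j (by omega) (by omega) g3 g4)
    (fun l g1 g2 => ht l (by omega) (by omega)) (by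
      intro k hk
      have g1 := hl (i + 12 - p - k) 10 (by omega) (by omega) (by omega) (by omega)
      have g2 := hl (i + 12 - p - k) 11 (by omega) (by omega) (by omega) (by omega)
      refine ⟨g1.trans ?_, g2.trans ?_⟩ <;> omega)
  obtain ⟨k8, k9, k10, k11, k12⟩ := key
  rw [en_code]
  change dc (code (st d i) 11) ∈ cr3 p
  rcases (show p = 0 ∨ p = 1 ∨ p = 2 ∨ p = 3 ∨ p = 4 by omega) with e | e | e | e | e
  · subst e
    rw [show i + 12 - ((0 : ℕ) : ℤ) - 12 = i by push_cast; ring] at k12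
    exact d3_0 _ k12
  · subst e
    rw [show i + 12 - ((1 : ℕ) : ℤ) - 11 = i by push_cast; ring] at k11
    exact d3_1 _ k11
  · subst e
    rw [show i + 12 - ((2 : ℕ) : ℤ) - 10 = i by push_cast; ring] at k10
    exact d3_2 _ k10
  · subst e
    rw [show i + 12 - ((3 : ℕ) : ℤ) - 9 = i by push_cast; ring] at k9
    exact d3_3 _ k9
  · subst e
    rw [show i + 12 - ((4 : ℕ) : ℤ) - 8 = i by push_cast; ring] at k8
    exact d3_4 _ k8

theorem ck2 (p : ℕ) (hp : p < 5) : ini 2 cr2 p = true := by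
  rcases (show p = 0 ∨ p = 1 ∨ p = 2 ∨ p = 3 ∨ p = 4 by omega) with e | e | e | e | e <;> subst e
  · exact ck2_0
  · exact ck2_1
  · exact ck2_2
  · exact ck2_3
  · exact ck2_4

theorem ck3 (p : ℕ) (hp : p < 5) : ini 3 cr3 p = true := by
  rcases (show p = 0 ∨ p = 1 ∨ p = 2 ∨ p = 3 ∨ p = 4 by omega) with e | e | e | e | e <;> subst e
  · exact ck3_0
  · exact ck3_1
  · exact ck3_2
  · exact ck3_3
  · exact ck3_4

theorem mo_of (d d' : ℤ → ℤ → ℤ) (f : ℤ × ℤ → ℤ × ℤ) (s c r : ℤ) (h : Strip d d' f s c r 60)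
    (i : ℤ) (h1 : r ≤ i) (h2 : i + 1 ≤ r + 60) : Mo d d' f i where
  mv := h.mv
  zero := fun j hj => h.zero _ j hj
  zero' := fun j hj => h.zero' _ j hj
  down := fun hd => by
    have := h.down (i + 1) 11 (by omega) h2 le_rfl (by omega) hd
    rw [this, show i + 1 + 1 = i + 2 by ring]
  above := fun hd => by
    have e1 := (h.lat' (i + 1) 11 (by omega) h2 (by omega) (by omega)).1 hd
    have c0 := h.c0
    have c4 := h.c4
    have e2 : d i 11 = 1 := (h.lat i 11 h1 (by omega) (by omega) (by omega)).2 (by omega)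
    exact ⟨e2, h.down i 11 h1 (by omega) le_rfl (by omega) e2⟩

theorem exStrip : ExStripStmt := by
  intro d d' f s c r h
  have c0 := h.c0
  have c4 := h.c4
  rcases h.slope with hs | hs
  · have hl := h.lat
    have hl' := h.lat'
    rw [hs] at hl hl'
    obtain ⟨b, b1, b2, b3⟩ := ini_sound 2 cr2 ck2 d d' f c (r + 6)
      { bin := h.bin
        bin' := h.bin'
        zero := h.zero
        zero' := h.zero'
        mv := h.mv
        dom := fun i g1 g2 j g3 g4 => h.dom i j (by omega) (by omega) g3 g4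
        dom' := fun i g1 g2 j g3 g4 => h.dom' i j (by omega) (by omega) g3 g4
        tight := fun i g1 g2 => h.tight i (by omega) (by omega)
        tight' := fun i g1 g2 => h.tight' i (by omega) (by omega)
        top := fun i g1 g2 => (hl i 11 (by omega) (by omega) (by omega) (by omega)).trans
          (by omega)
        top' := fun i g1 g2 => (hl' i 11 (by omega) (by omega) (by omega) (by omega)).trans
          (by omega)
        mem := fun i g1 g2 => mem2 d c r h.bin h.zero h.dom h.tight hl c0 c4 i (by omega)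
          (by omega)
        mem' := fun i g1 g2 => by
          have := mem2 d' ((c + 1) % 5) r h.bin' h.zero' h.dom' h.tight' hl' (by omega) (by omega)
            i (by omega) (by omega)
          rwa [show ((i - (c + 1) % 5) % 5).toNat = ((i - c - 1) % 5).toNat by omega] at this
        mo := fun i g1 g2 => mo_of d d' f s c r h i (by omega) (by omega) }
    exact ⟨b, by omega, by omega, b3⟩
  · have hl := h.lat
    have hl' := h.lat'
    rw [hs] at hl hl'
    obtain ⟨b, b1, b2, b3⟩ := ini_sound 3 cr3 ck3 d d' f c (r + 6)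
      { bin := h.bin
        bin' := h.bin'
        zero := h.zero
        zero' := h.zero'
        mv := h.mv
        dom := fun i g1 g2 j g3 g4 => h.dom i j (by omega) (by omega) g3 g4
        dom' := fun i g1 g2 j g3 g4 => h.dom' i j (by omega) (by omega) g3 g4
        tight := fun i g1 g2 => h.tight i (by omega) (by omega)
        tight' := fun i g1 g2 => h.tight' i (by omega) (by omega)
        top := fun i g1 g2 => (hl i 11 (by omega) (by omega) (by omega) (by omega)).trans
          (by omega)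
        top' := fun i g1 g2 => (hl' i 11 (by omega) (by omega) (by omega) (by omega)).trans
          (by omega)
        mem := fun i g1 g2 => mem3 d c r h.bin h.zero h.dom h.tight hl c0 c4 i (by omega)
          (by omega)
        mem' := fun i g1 g2 => by
          have := mem3 d' ((c + 1) % 5) r h.bin' h.zero' h.dom' h.tight' hl' (by omega) (by omega)
            i (by omega) (by omega)
          rwa [show ((i - (c + 1) % 5) % 5).toNat = ((i - c - 1) % 5).toNat by omega] at this
        mo := fun i g1 g2 => mo_of d d' f s c r h i (by omega) (by omega) }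
    exact ⟨b, by omega, by omega, b3⟩

end PatGap.Pr
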