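import Pool.Agent.H.MP_b28609_co.Gap.Ex.PrMov

/-!
# MP_b28609_co, exact theorem: good rows, soundness of the search
-/

set_option autoImplicit false

noncomputable section

namespace PatGap.Pr

open Side

theorem sum10 (F : ℤ → ℤ) :
    ∑ j ∈ Finset.Icc (1 : ℤ) 10, F j = ∑ k ∈ Finset.range 10, F ((k : ℤ) + 1) := by
  have e : Finset.Icc (1 : ℤ) 10 = {1, 2, 3, 4, 5, 6, 7, 8, 9, 10} := rfl
  rw [e]
  simp [Finset.sum_range_succ]
  ring

theorem good_ok (d d' : ℤ → ℤ → ℤ) (f : ℤ × ℤ → ℤ × ℤ) (hb : Bin d) (hb' : Bin d')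
    (hf : Mv d d' f) (i : ℤ) (s p : ℕ) (hdom : ∀ j, 1 ≤ j → j ≤ 10 → 1 ≤ a d i j)
    (htop : d i 11 = 1 ↔ (p + s * 11) % 5 = 0)
    (h : good (tp s p) (en d i) (en d' i) (rM d f i) (wM d f i) = true) :
    GoodRow d d' f (i - 1) := by
  unfold good at h
  rw [Bool.and_eq_true, Bool.and_eq_true, sb_iff, sb_iff, Nat.ble_eq] at h
  change (∀ k, (qM d' i).testBit k = true → (gM d i).testBit k = true) ∧
    (∀ k, Nat.testBit 1023 k = true → (Nat.lor (Nat.lor (gM d i) (nbm (gM d i)))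
      (Nat.lor (tp s p) (Nat.lor (qM d i) (gM d' i)))).testBit k = true) ∧
    pop (gM d i) + pop (wM d f i) ≤ pop (rM d f i) + 1 at h
  obtain ⟨h1, h2, h3⟩ := h
  have nn : ∀ i j, 0 ≤ d i j := fun i j => by rcases hb i j with e | e <;> omega
  have nn' : ∀ i j, 0 ≤ d' i j := fun i j => by rcases hb' i j with e | e <;> omega
  unfold GoodRow
  rw [show i - 1 + 1 = i by ring, show i - 1 + 2 = i + 1 by ring]
  refine ⟨?_, ?_, ?_⟩
  · intro j hj1 hj2
    obtain ⟨k, rfl⟩ : ∃ k : ℕ, j = (k : ℤ) + 1 := ⟨(j - 1).toNat, by omega⟩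
    have hk : k < 10 := by omega
    have a1 := nn' (i - 1) ((k : ℤ) + 1)
    have a2 := nn' i ((k : ℤ) + 1)
    have a3 := nn' i ((k : ℤ) + 1 - 1)
    have a4 := nn' i ((k : ℤ) + 1 + 1)
    have a5 := nn i ((k : ℤ) + 1)
    by_cases hq : st d' i k = 2
    · have := (gM_tb d i k).1 (h1 k ((qM_tb d' i k).2 ⟨hk, hq⟩))
      omega
    · rw [st_two] at hq
      rw [show (k : ℤ) + 1 - 1 = k by ring, show (k : ℤ) + 1 + 1 = k + 2 by ring] at *
      by_cases e1 : d' i ((k : ℤ) + 1) = 1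
      · omega
      · by_cases e2 : d' i k = 1
        · omega
        · by_cases e3 : d' i ((k : ℤ) + 2) = 1
          · omega
          · by_cases e4 : d' (i - 1) ((k : ℤ) + 1) = 1
            · omega
            · exact absurd ⟨e1, by omega, e2, e3, e4⟩ hq
  · intro j hj1 hj2
    obtain ⟨k, rfl⟩ : ∃ k : ℕ, j = (k : ℤ) + 1 := ⟨(j - 1).toNat, by omega⟩
    have hk : k < 10 := by omega
    have a1 := nn' i ((k : ℤ) + 1)
    have a2 := nn i ((k : ℤ) + 1)
    have a3 := nn i ((k : ℤ) + 1 - 1)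
    have a4 := nn i ((k : ℤ) + 1 + 1)
    have a5 := nn (i + 1) ((k : ℤ) + 1)
    have h5 := h2 k (by
      rw [show 1023 = 2 ^ 10 - 1 by norm_num, Nat.testBit_two_pow_sub_one]
      simpa using hk)
    rw [lor_tb, lor_tb, lor_tb, lor_tb, nbm_tb, gM_tb, gM_tb, gM_tb, gM_tb, tp_tb, qM_tb] at h5
    rw [show (k : ℤ) + 1 - 1 = k by ring, show (k : ℤ) + 1 + 1 = k + 2 by ring] at *
    rcases h5 with (h5 | h5 | h5) | h5 | h5 | h5
    · omega
    · obtain ⟨h6, h7, h8⟩ := h5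
      rw [show ((k - 1 : ℕ) : ℤ) + 1 = k by omega] at h8
      omega
    · obtain ⟨h7, h8⟩ := h5
      rw [show ((k + 1 : ℕ) : ℤ) + 1 = (k : ℤ) + 2 by push_cast; ring] at h8
      omega
    · obtain ⟨h6, h7⟩ := h5
      subst h6
      have h8 := htop.2 h7
      rw [show ((9 : ℕ) : ℤ) + 2 = 11 by norm_num] at *
      omega
    · have := und_next d hb i hdom k hk h5.2
      omega
    · omega
  · classical
    have hg : pop (gM d i) = ∑ k ∈ Finset.range 10, if d i ((k : ℤ) + 1) = 1 then 1 else 0 := by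
      unfold gM
      rw [pop_ob]
    have hw : pop (wM d f i) = ∑ k ∈ Finset.range 10,
        if d (i + 1) ((k : ℤ) + 1) = 1 ∧ f (i + 1, (k : ℤ) + 1) = (i, (k : ℤ) + 1) then 1
          else 0 := by
      unfold wM
      rw [pop_ob]
    have hr : pop (rM d f i) = ∑ k ∈ Finset.range 10,
        if d i ((k : ℤ) + 1) = 1 ∧ f (i, (k : ℤ) + 1) = (i + 1, (k : ℤ) + 1) then 1 else 0 := by
      unfold rM
      rw [pop_ob]
    rw [hg, hw, hr] at h3
    rw [sum10]
    have key : ∑ k ∈ Finset.range 10, ((if d i ((k : ℤ) + 1) = 1 ∧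
        (f (i, (k : ℤ) + 1)).1 ≤ i then (1 : ℤ) else 0) +
        (if d (i + 1) ((k : ℤ) + 1) = 1 ∧ (f (i + 1, (k : ℤ) + 1)).1 ≤ i then (1 : ℤ) else 0)) +
        ∑ k ∈ Finset.range 10, (if d i ((k : ℤ) + 1) = 1 ∧
          f (i, (k : ℤ) + 1) = (i + 1, (k : ℤ) + 1) then (1 : ℤ) else 0) =
        ∑ k ∈ Finset.range 10, (if d i ((k : ℤ) + 1) = 1 then (1 : ℤ) else 0) +
        ∑ k ∈ Finset.range 10, (if d (i + 1) ((k : ℤ) + 1) = 1 ∧
          f (i + 1, (k : ℤ) + 1) = (i, (k : ℤ) + 1) then (1 : ℤ) else 0) := by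
      rw [← Finset.sum_add_distrib, ← Finset.sum_add_distrib]
      refine Finset.sum_congr rfl fun k _ => ?_
      have c1 : d (i + 1) ((k : ℤ) + 1) = 1 ∧ (f (i + 1, (k : ℤ) + 1)).1 ≤ i ↔
          d (i + 1) ((k : ℤ) + 1) = 1 ∧ f (i + 1, (k : ℤ) + 1) = (i, (k : ℤ) + 1) := by
        refine and_congr_right fun hd => ?_
        have hn := hf.nb (i + 1, (k : ℤ) + 1) hd
        unfold Nb at hn
        simp only at hn
        rw [Prod.ext_iff]
        simp only
        omega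
      have c2 : d i ((k : ℤ) + 1) = 1 → ((f (i, (k : ℤ) + 1)).1 ≤ i ↔
          ¬ f (i, (k : ℤ) + 1) = (i + 1, (k : ℤ) + 1)) := by
        intro hd
        have hn := hf.nb (i, (k : ℤ) + 1) hd
        unfold Nb at hn
        simp only at hn
        rw [Prod.ext_iff]
        simp only
        omega
      simp only [c1]
      by_cases e1 : d i ((k : ℤ) + 1) = 1
      · simp only [e1, true_and, c2 e1]
        by_cases e2 : f (i, (k : ℤ) + 1) = (i + 1, (k : ℤ) + 1)
        · simp [e2]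
          ring
        · simp [e2]
      · simp [e1]
    have h4 : (∑ k ∈ Finset.range 10, (if d i ((k : ℤ) + 1) = 1 then (1 : ℤ) else 0)) +
        ∑ k ∈ Finset.range 10, (if d (i + 1) ((k : ℤ) + 1) = 1 ∧
          f (i + 1, (k : ℤ) + 1) = (i, (k : ℤ) + 1) then (1 : ℤ) else 0) ≤
        ∑ k ∈ Finset.range 10, (if d i ((k : ℤ) + 1) = 1 ∧
          f (i, (k : ℤ) + 1) = (i + 1, (k : ℤ) + 1) then (1 : ℤ) else 0) + 1 := by
      exact_mod_cast h3
    linarith

/-- Everything known about the rows `lo, ..., hi`. -/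
structure Ctx (s : ℕ) (cr : ℕ → List (ℕ × ℕ × ℕ)) (d d' : ℤ → ℤ → ℤ) (f : ℤ × ℤ → ℤ × ℤ)
    (c lo hi : ℤ) : Prop where
  bin : Bin d
  bin' : Bin d'
  zero : ∀ i j, j ≤ 0 → d i j = 0
  zero' : ∀ i j, j ≤ 0 → d' i j = 0
  mv : Mv d d' f
  dom : ∀ i, lo ≤ i → i ≤ hi → ∀ j, 1 ≤ j → j ≤ 10 → 1 ≤ a d i j
  dom' : ∀ i, lo ≤ i → i ≤ hi → ∀ j, 1 ≤ j → j ≤ 10 → 1 ≤ a d' i j
  tight : ∀ i, lo ≤ i → i ≤ hi → sg Gs d i = 0
  tight' : ∀ i, lo ≤ i → i ≤ hi → sg Gs d' i = 0
  top : ∀ i, lo ≤ i → i ≤ hi → (d i 11 = 1 ↔ (((i - c) % 5).toNat + s * 11) % 5 = 0)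
  top' : ∀ i, lo ≤ i → i ≤ hi → (d' i 11 = 1 ↔ (((i - c - 1) % 5).toNat + s * 11) % 5 = 0)
  mem : ∀ i, lo ≤ i → i ≤ hi → en d i ∈ cr ((i - c) % 5).toNat
  mem' : ∀ i, lo ≤ i → i ≤ hi → en d' i ∈ cr ((i - c - 1) % 5).toNat
  mo : ∀ i, lo ≤ i → i < hi → Mo d d' f i

theorem or_use {x y : Bool} (h : (!x || y) = true) (hx : x = true) : y = true := by
  rw [hx] at h
  simpa using h

theorem nb_sound (s : ℕ) (cr : ℕ → List (ℕ × ℕ × ℕ)) (d d' : ℤ → ℤ → ℤ) (f : ℤ × ℤ → ℤ × ℤ)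
    (c lo hi : ℤ) (H : Ctx s cr d d' f c lo hi) : ∀ (k : ℕ) (i : ℤ), lo ≤ i → i + k ≤ hi →
    nb s cr k ((i - c) % 5).toNat (en d i) (en d' i) (rM d f i) (wM d f i) = true →
    ∃ b, i - 1 ≤ b ∧ b ≤ i + k ∧ GoodRow d d' f b := by
  intro k
  induction k with
  | zero =>
    intro i _ _ h
    cases h
  | succ k ih =>
    intro i hi1 hi2 h
    push_cast at hi2
    have e : nb s cr (k + 1) ((i - c) % 5).toNat (en d i) (en d' i) (rM d f i) (wM d f i) =
      (good (tp s ((i - c) % 5).toNat) (en d i) (en d' i) (rM d f i) (wM d f i) ||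
      (cr (nx ((i - c) % 5).toNat)).all fun u2 => !(ps (tp s (nx ((i - c) % 5).toNat)) (en d i) u2 &&
          sb (wM d f i) u2.1) ||
        (cr ((i - c) % 5).toNat).all fun v2 => !(ps (tp s ((i - c) % 5).toNat) (en d' i) v2 &&
            sb (rM d f i) v2.1) ||
          (subm 10 (Nat.xor u2.1 (wM d f i))).all fun R2 =>
            (subm 10 (Nat.xor v2.1 (rM d f i))).all fun W2 =>
            !(mvok u2.1 v2.1 (rM d f i) (wM d f i) R2 W2) ||
              nb s cr k (nx ((i - c) % 5).toNat) u2 v2 R2 W2) := rfl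
    rw [e, Bool.or_eq_true] at h
    rcases h with h | h
    · exact ⟨i - 1, le_rfl, by push_cast; omega,
        good_ok d d' f H.bin H.bin' H.mv i s _ (H.dom i hi1 (by omega)) (H.top i hi1 (by omega)) h⟩
    · have en1 : nx ((i - c) % 5).toNat = ((i + 1 - c) % 5).toNat := by
        unfold nx
        omega
      have en2 : ((i + 1 - c - 1) % 5).toNat = ((i - c) % 5).toNat := by
        rw [show i + 1 - c - 1 = i - c by ring]
      rw [List.all_eq_true] at h
      have m1 := H.mem (i + 1) (by omega) (by omega)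
      have m2 := H.mem' (i + 1) (by omega) (by omega)
      rw [en2] at m2
      rw [← en1] at m1
      have t1 := H.top (i + 1) (by omega) (by omega)
      have t2 := H.top' (i + 1) (by omega) (by omega)
      rw [en2] at t2
      rw [← en1] at t1
      have h3 := or_use (h _ m1) (by
        rw [Bool.and_eq_true]
        refine ⟨ps_ok d H.bin H.zero i s _ (H.dom i hi1 (by omega))
          (H.tight (i + 1) (by omega) (by omega)) t1, ?_⟩
        rw [sb_iff]
        exact fun k hk => w_sub d d' f i k hk)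
      rw [List.all_eq_true] at h3
      have h4 := or_use (h3 _ m2) (by
        rw [Bool.and_eq_true]
        refine ⟨ps_ok d' H.bin' H.zero' i s _ (H.dom' i hi1 (by omega))
          (H.tight' (i + 1) (by omega) (by omega)) t2, ?_⟩
        rw [sb_iff]
        exact fun k hk => r_sub' d d' f H.mv i k hk)
      rw [List.all_eq_true] at h4
      have h5 := h4 (rM d f (i + 1)) (subm_mem 10 _ _ (ob_lt _) fun k hk => r2_sub d d' f i k hk)
      rw [List.all_eq_true] at h5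
      have h6 := h5 (wM d f (i + 1)) (subm_mem 10 _ _ (ob_lt _)
        fun k hk => w2_sub d d' f H.mv i k hk)
      have h7 := or_use h6 (mvok_ok d d' f i (H.mo i hi1 (by omega)))
      rw [en1] at h7
      obtain ⟨b, b1, b2, b3⟩ := ih (i + 1) (by omega) (by omega) h7
      exact ⟨b, by omega, by push_cast; omega, b3⟩

/-- From the check of all first rows. -/
theorem ini_sound (s : ℕ) (cr : ℕ → List (ℕ × ℕ × ℕ)) (hck : ∀ p, p < 5 → ini s cr p = true)
    (d d' : ℤ → ℤ → ℤ) (f : ℤ × ℤ → ℤ × ℤ) (c lo : ℤ) (H : Ctx s cr d d' f c lo (lo + 11)) :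
    ∃ b, lo - 1 ≤ b ∧ b ≤ lo + 11 ∧ GoodRow d d' f b := by
  have h := hck ((lo - c) % 5).toNat (by omega)
  unfold ini at h
  rw [List.all_eq_true] at h
  have h1 := h _ (H.mem lo le_rfl (by omega))
  rw [List.all_eq_true] at h1
  have e : (((lo - c) % 5).toNat + 4) % 5 = ((lo - c - 1) % 5).toNat := by omega
  rw [e] at h1
  have h2 := h1 _ (H.mem' lo le_rfl (by omega))
  rw [List.all_eq_true] at h2
  have h3 := h2 (rM d f lo) (subm_mem 10 _ _ (ob_lt _) fun k hk => r_sub d f lo k hk)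
  rw [List.all_eq_true] at h3
  have h4 := h3 (wM d f lo) (subm_mem 10 _ _ (ob_lt _) fun k hk => w_sub' d d' f H.mv lo k hk)
  obtain ⟨b, b1, b2, b3⟩ := nb_sound s cr d d' f c lo (lo + 11) H 11 lo le_rfl
    (by push_cast; omega) h4
  exact ⟨b, b1, by push_cast at b2; omega, b3⟩

end PatGap.Pr
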