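import Pool.Agent.H.MP_b28609_co.Gap.Ex.PrSem

/-!
# MP_b28609_co, exact theorem: the moves between two rows
-/

set_option autoImplicit false

noncomputable section

namespace PatGap.Pr

open Side

/-- Facts about the moves used here, near the row `i + 1`. -/
structure Mo (d d' : ℤ → ℤ → ℤ) (f : ℤ × ℤ → ℤ × ℤ) (i : ℤ) : Prop where
  mv : Mv d d' f
  zero : ∀ j, j ≤ 0 → d (i + 1) j = 0
  zero' : ∀ j, j ≤ 0 → d' (i + 1) j = 0
  down : d (i + 1) 11 = 1 → f (i + 1, 11) = (i + 2, 11)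
  above : d' (i + 1) 11 = 1 → d i 11 = 1 ∧ f (i, 11) = (i + 1, 11)

theorem w_sub (d _d' : ℤ → ℤ → ℤ) (f : ℤ × ℤ → ℤ × ℤ) (i : ℤ) (k : ℕ)
    (h : (wM d f i).testBit k = true) : (gM d (i + 1)).testBit k = true := by
  rw [wM_tb] at h
  rw [gM_tb]
  exact ⟨h.1, h.2.1⟩

theorem w_sub' (d d' : ℤ → ℤ → ℤ) (f : ℤ × ℤ → ℤ × ℤ) (hf : Mv d d' f) (i : ℤ) (k : ℕ)
    (h : (wM d f i).testBit k = true) : (gM d' i).testBit k = true := by
  rw [wM_tb] at h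
  rw [gM_tb]
  have h1 := hf.mem (i + 1, (k : ℤ) + 1) h.2.1
  rw [h.2.2] at h1
  exact ⟨h.1, h1⟩

theorem r_sub (d : ℤ → ℤ → ℤ) (f : ℤ × ℤ → ℤ × ℤ) (i : ℤ) (k : ℕ)
    (h : (rM d f i).testBit k = true) : (gM d i).testBit k = true := by
  rw [rM_tb] at h
  rw [gM_tb]
  exact ⟨h.1, h.2.1⟩

theorem r_sub' (d d' : ℤ → ℤ → ℤ) (f : ℤ × ℤ → ℤ × ℤ) (hf : Mv d d' f) (i : ℤ) (k : ℕ)
    (h : (rM d f i).testBit k = true) : (gM d' (i + 1)).testBit k = true := by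
  rw [rM_tb] at h
  rw [gM_tb]
  have h1 := hf.mem (i, (k : ℤ) + 1) h.2.1
  rw [h.2.2] at h1
  exact ⟨h.1, h1⟩

theorem gw_tb (d d' : ℤ → ℤ → ℤ) (f : ℤ × ℤ → ℤ × ℤ) (i : ℤ) (k : ℕ) :
    (Nat.xor (gM d (i + 1)) (wM d f i)).testBit k = true ↔ k < 10 ∧ d (i + 1) ((k : ℤ) + 1) = 1 ∧
      f (i + 1, (k : ℤ) + 1) ≠ (i, (k : ℤ) + 1) := by
  rw [xor_tb _ _ _ (w_sub d d' f i k), gM_tb, wM_tb]
  tauto

theorem gr_tb (d d' : ℤ → ℤ → ℤ) (f : ℤ × ℤ → ℤ × ℤ) (hf : Mv d d' f) (i : ℤ) (k : ℕ) :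
    (Nat.xor (gM d' (i + 1)) (rM d f i)).testBit k = true ↔
      k < 10 ∧ d' (i + 1) ((k : ℤ) + 1) = 1 ∧
      ¬ (d i ((k : ℤ) + 1) = 1 ∧ f (i, (k : ℤ) + 1) = (i + 1, (k : ℤ) + 1)) := by
  rw [xor_tb _ _ _ (r_sub' d d' f hf i k), gM_tb, rM_tb]
  tauto

theorem r2_sub (d d' : ℤ → ℤ → ℤ) (f : ℤ × ℤ → ℤ × ℤ) (i : ℤ) (k : ℕ)
    (h : (rM d f (i + 1)).testBit k = true) :
    (Nat.xor (gM d (i + 1)) (wM d f i)).testBit k = true := by
  rw [rM_tb] at h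
  rw [gw_tb d d' f]
  refine ⟨h.1, h.2.1, ?_⟩
  rw [h.2.2]
  intro e
  rw [Prod.mk.injEq] at e
  omega

theorem w2_sub (d d' : ℤ → ℤ → ℤ) (f : ℤ × ℤ → ℤ × ℤ) (hf : Mv d d' f) (i : ℤ) (k : ℕ)
    (h : (wM d f (i + 1)).testBit k = true) :
    (Nat.xor (gM d' (i + 1)) (rM d f i)).testBit k = true := by
  have h0 := w_sub' d d' f hf (i + 1) k h
  rw [gM_tb] at h0
  rw [wM_tb] at h
  rw [gr_tb d d' f hf]
  refine ⟨h.1, h0.2, ?_⟩
  rintro ⟨h1, h2⟩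
  have h3 := hf.inj (i, (k : ℤ) + 1) (i + 1 + 1, (k : ℤ) + 1) h1 h.2.1 (by rw [h2, h.2.2])
  rw [Prod.mk.injEq] at h3
  omega

/-- Bits of the horizontally moving guards. -/
theorem a_tb (d d' : ℤ → ℤ → ℤ) (f : ℤ × ℤ → ℤ × ℤ) (i : ℤ) (k : ℕ) :
    (Nat.xor (Nat.xor (gM d (i + 1)) (wM d f i)) (rM d f (i + 1))).testBit k = true ↔
      k < 10 ∧ d (i + 1) ((k : ℤ) + 1) = 1 ∧ f (i + 1, (k : ℤ) + 1) ≠ (i, (k : ℤ) + 1) ∧
      f (i + 1, (k : ℤ) + 1) ≠ (i + 2, (k : ℤ) + 1) := by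
  rw [xor_tb _ _ _ (r2_sub d d' f i k), gw_tb d d' f, rM_tb, show i + 1 + 1 = i + 2 by ring]
  tauto

/-- Bits of the guards of the second set that come from a horizontal neighbour. -/
theorem b_tb (d d' : ℤ → ℤ → ℤ) (f : ℤ × ℤ → ℤ × ℤ) (hf : Mv d d' f) (i : ℤ) (k : ℕ) :
    (Nat.xor (Nat.xor (gM d' (i + 1)) (rM d f i)) (wM d f (i + 1))).testBit k = true ↔
      k < 10 ∧ d' (i + 1) ((k : ℤ) + 1) = 1 ∧
      ¬ (d i ((k : ℤ) + 1) = 1 ∧ f (i, (k : ℤ) + 1) = (i + 1, (k : ℤ) + 1)) ∧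
      ¬ (d (i + 2) ((k : ℤ) + 1) = 1 ∧ f (i + 2, (k : ℤ) + 1) = (i + 1, (k : ℤ) + 1)) := by
  rw [xor_tb _ _ _ (w2_sub d d' f hf i k), gr_tb d d' f hf, wM_tb, show i + 1 + 1 = i + 2 by ring]
  tauto

/-- A target that comes from the horizontal neighbour `v` is not served vertically. -/
theorem b_of (d d' : ℤ → ℤ → ℤ) (f : ℤ × ℤ → ℤ × ℤ) (hf : Mv d d' f) (i j : ℤ) (k : ℕ)
    (hk : k < 10) (h1 : d (i + 1) j = 1) (h2 : f (i + 1, j) = (i + 1, (k : ℤ) + 1)) :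
    (Nat.xor (Nat.xor (gM d' (i + 1)) (rM d f i)) (wM d f (i + 1))).testBit k = true := by
  rw [b_tb d d' f hf]
  have h3 := hf.mem (i + 1, j) h1
  rw [h2] at h3
  refine ⟨hk, h3, ?_, ?_⟩
  · rintro ⟨h4, h5⟩
    have h6 := hf.inj (i, (k : ℤ) + 1) (i + 1, j) h4 h1 (by rw [h5, h2])
    rw [Prod.mk.injEq] at h6
    omega
  · rintro ⟨h4, h5⟩
    have h6 := hf.inj (i + 2, (k : ℤ) + 1) (i + 1, j) h4 h1 (by rw [h5, h2])
    rw [Prod.mk.injEq] at h6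
    omega

theorem mvok_ok (d d' : ℤ → ℤ → ℤ) (f : ℤ × ℤ → ℤ × ℤ) (i : ℤ) (h : Mo d d' f i) :
    mvok (gM d (i + 1)) (gM d' (i + 1)) (rM d f i) (wM d f i) (rM d f (i + 1))
      (wM d f (i + 1)) = true := by
  have hf := h.mv
  unfold mvok
  rw [Bool.and_eq_true, sb_iff, sb_iff]
  constructor
  · intro k hk
    rw [a_tb d d' f] at hk
    obtain ⟨hk, h1, h2, h3⟩ := hk
    rw [nbm_tb]
    have hn := hf.nb (i + 1, (k : ℤ) + 1) h1
    obtain ⟨w1, w2, hw⟩ : ∃ w1 w2, f (i + 1, (k : ℤ) + 1) = (w1, w2) := ⟨_, _, rfl⟩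
    rw [hw] at h2 h3 hn
    have hm := hf.mem (i + 1, (k : ℤ) + 1) h1
    rw [hw] at hm
    unfold Nb at hn
    simp only at hn hm
    rw [Ne, Prod.mk.injEq] at h2 h3
    have hw1 : w1 = i + 1 := by omega
    subst hw1
    rcases (show w2 = (k : ℤ) + 2 ∨ w2 = k by omega) with e | e
    · subst e
      right
      have hk9 : k ≠ 9 := by
        intro e9
        subst e9
        have e2 : ((9 : ℕ) : ℤ) + 2 = 11 := by norm_num
        rw [e2] at hm hw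
        obtain ⟨h5, h6⟩ := h.above hm
        have h7 := hf.inj (i, 11) (i + 1, ((9 : ℕ) : ℤ) + 1) h5 h1 (by rw [h6, hw])
        rw [Prod.mk.injEq] at h7
        omega
      refine b_of d d' f hf i ((k : ℤ) + 1) (k + 1) (by omega) h1 ?_
      rw [hw, Prod.mk.injEq]
      constructor
      · rfl
      · push_cast
        ring
    · subst e
      have hk0 : 1 ≤ k := by
        by_contra hc
        have : k = 0 := by omega
        subst this
        have := h.zero' ((0 : ℕ) : ℤ) (by norm_num)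
        omega
      left
      refine ⟨hk0, b_of d d' f hf i ((k : ℤ) + 1) (k - 1) (by omega) h1 ?_⟩
      rw [hw, Prod.mk.injEq]
      constructor
      · rfl
      · omega
  · intro k hk
    rw [b_tb d d' f hf] at hk
    obtain ⟨hk, h1, h2, h3⟩ := hk
    rw [nbm_tb]
    obtain ⟨⟨v1, v2⟩, hv, hfv⟩ := hf.surj (i + 1, (k : ℤ) + 1) h1
    have hn := hf.nb (v1, v2) hv
    rw [hfv] at hn
    unfold Nb at hn
    simp only at hn hv
    have hv1 : v1 = i + 1 := by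
      by_contra hc
      have hv2 : v2 = (k : ℤ) + 1 := by omega
      subst hv2
      rcases (show v1 = i ∨ v1 = i + 2 by omega) with e | e
      · subst e
        exact h2 ⟨hv, hfv⟩
      · subst e
        exact h3 ⟨hv, hfv⟩
    subst hv1
    rcases (show v2 = (k : ℤ) + 2 ∨ v2 = k by omega) with e | e
    · subst e
      right
      have hk9 : k ≠ 9 := by
        intro e9
        subst e9
        have e2 : ((9 : ℕ) : ℤ) + 2 = 11 := by norm_num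
        rw [e2] at hv hfv
        have h6 := h.down hv
        rw [hfv, Prod.mk.injEq] at h6
        omega
      rw [a_tb d d' f, show ((k + 1 : ℕ) : ℤ) + 1 = (k : ℤ) + 2 by push_cast; ring, hfv]
      refine ⟨by omega, hv, ?_, ?_⟩
      · intro e
        rw [Prod.mk.injEq] at e
        omega
      · intro e
        rw [Prod.mk.injEq] at e
        omega
    · subst e
      have hk0 : 1 ≤ k := by
        by_contra hc
        have : k = 0 := by omega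
        subst this
        have := h.zero ((0 : ℕ) : ℤ) (by norm_num)
        omega
      left
      refine ⟨hk0, ?_⟩
      rw [a_tb d d' f, show ((k - 1 : ℕ) : ℤ) + 1 = (k : ℤ) by omega, hfv]
      refine ⟨by omega, hv, ?_, ?_⟩
      · intro e
        rw [Prod.mk.injEq] at e
        omega
      · intro e
        rw [Prod.mk.injEq] at e
        omega

end PatGap.Pr
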