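import Pool.Agent.H.MP_b28609_co.Gap.Ex.PrBit
import Pool.Agent.H.MP_b28609_co.Gap.Ex.Gs

/-!
# MP_b28609_co, exact theorem: the masks of two sets of guards
-/

set_option autoImplicit false

noncomputable section

namespace PatGap.Pr

open Side

/-- Guards of the row `i` in the columns `1, ..., 10`. -/
def gM (d : ℤ → ℤ → ℤ) (i : ℤ) : ℕ := ob fun k => d i ((k : ℤ) + 1) = 1

/-- Cells of the row `i` not dominated by the rows `i` and `i - 1`. -/
def qM (d : ℤ → ℤ → ℤ) (i : ℤ) : ℕ := ob fun k => st d i k = 2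

/-- Guards of the row `i` moving to the row `i + 1`. -/
def rM (d : ℤ → ℤ → ℤ) (f : ℤ × ℤ → ℤ × ℤ) (i : ℤ) : ℕ :=
  ob fun k => d i ((k : ℤ) + 1) = 1 ∧ f (i, (k : ℤ) + 1) = (i + 1, (k : ℤ) + 1)

/-- Guards of the row `i + 1` moving to the row `i`. -/
def wM (d : ℤ → ℤ → ℤ) (f : ℤ × ℤ → ℤ × ℤ) (i : ℤ) : ℕ :=
  ob fun k => d (i + 1) ((k : ℤ) + 1) = 1 ∧ f (i + 1, (k : ℤ) + 1) = (i, (k : ℤ) + 1)

/-- The entry of the row `i`. -/
def en (d : ℤ → ℤ → ℤ) (i : ℤ) : ℕ × ℕ × ℕ := (gM d i, qM d i, (Gs d i).toNat)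

theorem tp_tb (s p k : ℕ) : (tp s p).testBit k = true ↔ k = 9 ∧ (p + s * 11) % 5 = 0 := by
  unfold tp
  split_ifs with h
  · rw [show 512 = 2 ^ 9 by norm_num, Nat.testBit_two_pow]
    simp only [decide_eq_true_eq, h, and_true]
    omega
  · simp [h]

theorem x1023_tb (X k : ℕ) : (Nat.xor 1023 (Nat.land 1023 X)).testBit k = true ↔
    k < 10 ∧ ¬ X.testBit k = true := by
  have h0 : ∀ k, Nat.testBit 1023 k = decide (k < 10) := fun k => by
    rw [show 1023 = 2 ^ 10 - 1 by norm_num, Nat.testBit_two_pow_sub_one]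
  change (1023 ^^^ (1023 &&& X)).testBit k = true ↔ _
  rw [Nat.testBit_xor, Nat.testBit_and, h0]
  by_cases hk : k < 10 <;> cases hX : X.testBit k <;> simp [hk]

theorem lor_tb (x y k : ℕ) : (Nat.lor x y).testBit k = true ↔
    x.testBit k = true ∨ y.testBit k = true := by
  change (x ||| y).testBit k = true ↔ _
  rw [Nat.testBit_or, Bool.or_eq_true]

theorem gM_tb (d : ℤ → ℤ → ℤ) (i : ℤ) (k : ℕ) :
    (gM d i).testBit k = true ↔ k < 10 ∧ d i ((k : ℤ) + 1) = 1 := ob_tb _ k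

theorem qM_tb (d : ℤ → ℤ → ℤ) (i : ℤ) (k : ℕ) :
    (qM d i).testBit k = true ↔ k < 10 ∧ st d i k = 2 := ob_tb _ k

theorem rM_tb (d : ℤ → ℤ → ℤ) (f : ℤ × ℤ → ℤ × ℤ) (i : ℤ) (k : ℕ) :
    (rM d f i).testBit k = true ↔ k < 10 ∧ d i ((k : ℤ) + 1) = 1 ∧
      f (i, (k : ℤ) + 1) = (i + 1, (k : ℤ) + 1) := ob_tb _ k

theorem wM_tb (d : ℤ → ℤ → ℤ) (f : ℤ × ℤ → ℤ × ℤ) (i : ℤ) (k : ℕ) :
    (wM d f i).testBit k = true ↔ k < 10 ∧ d (i + 1) ((k : ℤ) + 1) = 1 ∧
      f (i + 1, (k : ℤ) + 1) = (i, (k : ℤ) + 1) := ob_tb _ k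

/-- A cell that is not dominated so far has a guard in the next row. -/
theorem und_next (d : ℤ → ℤ → ℤ) (hb : Bin d) (i : ℤ)
    (hdom : ∀ j, 1 ≤ j → j ≤ 10 → 1 ≤ a d i j) (k : ℕ) (hk : k < 10) (h : st d i k = 2) :
    d (i + 1) ((k : ℤ) + 1) = 1 := by
  rw [st_two] at h
  obtain ⟨h1, -, h2, h3, h4⟩ := h
  have hd := hdom ((k : ℤ) + 1) (by omega) (by omega)
  rw [a, show (k : ℤ) + 1 - 1 = k by ring, show (k : ℤ) + 1 + 1 = k + 2 by ring] at hd
  rcases hb i ((k : ℤ) + 1) with e1 | e1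
  · rcases hb (i - 1) ((k : ℤ) + 1) with e2 | e2
    · rcases hb i k with e3 | e3
      · rcases hb i ((k : ℤ) + 2) with e4 | e4
        · rcases hb (i + 1) ((k : ℤ) + 1) with e5 | e5
          · omega
          · exact e5
        · exact absurd e4 h3
      · exact absurd e3 h2
    · exact absurd e2 h4
  · exact absurd e1 h1

theorem ps_ok (d : ℤ → ℤ → ℤ) (hb : Bin d) (hz : ∀ i j, j ≤ 0 → d i j = 0) (i : ℤ) (s p : ℕ)
    (hdom : ∀ j, 1 ≤ j → j ≤ 10 → 1 ≤ a d i j) (ht : sg Gs d (i + 1) = 0)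
    (htop : d (i + 1) 11 = 1 ↔ (p + s * 11) % 5 = 0) :
    ps (tp s p) (en d i) (en d (i + 1)) = true := by
  unfold ps
  rw [Bool.and_eq_true, Bool.and_eq_true, Nat.beq_eq, Nat.beq_eq]
  refine ⟨?_, ?_, ?_⟩
  · rw [sb_iff]
    intro k hk
    change (qM d i).testBit k = true at hk
    change (gM d (i + 1)).testBit k = true
    rw [qM_tb] at hk
    rw [gM_tb]
    exact ⟨hk.1, und_next d hb i hdom k hk.1 hk.2⟩
  · change (Gs d (i + 1)).toNat + 11 = (Gs d i).toNat + wt (tp s p) (gM d (i + 1))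
    have g1 := ((sideGs d hb hz).1 i).1
    have g2 := ((sideGs d hb hz).1 (i + 1)).1
    rw [sg, show i + 1 - 1 = i by ring] at ht
    have hw : (wt (tp s p) (gM d (i + 1)) : ℤ) = cwid d 10 (i + 1) := by
      classical
      have hv : ∀ j, (if d (i + 1) j = 1 then 1 else 0 : ℕ) = (d (i + 1) j).toNat := by
        intro j
        rcases hb (i + 1) j with e | e <;> simp [e]
      have hp : pop (gM d (i + 1)) = ∑ k ∈ Finset.range 10, (d (i + 1) ((k : ℤ) + 1)).toNat := by
        unfold gM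
        rw [pop_ob]
        exact Finset.sum_congr rfl fun k _ => hv _
      have h9 : gM d (i + 1) / 512 % 2 = (d (i + 1) 10).toNat := by
        have h := Nat.toNat_testBit (gM d (i + 1)) 9
        rw [show (2 : ℕ) ^ 9 = 512 by norm_num] at h
        rw [← h]
        have h2 := gM_tb d (i + 1) 9
        norm_num at h2
        rcases hb (i + 1) 10 with e | e
        · rw [e] at h2 ⊢
          cases h3 : (gM d (i + 1)).testBit 9
          · rfl
          · exact absurd (h2.1 h3) (by norm_num)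
        · rw [e, h2.2 e]
          rfl
      have h11 : tp s p / 512 = (d (i + 1) 11).toNat := by
        unfold tp
        rcases hb (i + 1) 11 with e | e
        · rw [e] at htop ⊢
          rw [if_neg (fun h => absurd (htop.2 h) (by norm_num))]
          rfl
        · rw [if_pos (htop.1 e), e]
          rfl
      have hnn : ∀ j, 0 ≤ d (i + 1) j := fun j => by
        rcases hb (i + 1) j with e | e <;> omega
      have hle : gM d (i + 1) / 512 % 2 ≤ 5 * pop (gM d (i + 1)) := by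
        rw [h9, hp]
        have h5 : (d (i + 1) (((9 : ℕ) : ℤ) + 1)).toNat ≤
            ∑ k ∈ Finset.range 10, (d (i + 1) ((k : ℤ) + 1)).toNat :=
          Finset.single_le_sum (f := fun k : ℕ => (d (i + 1) ((k : ℤ) + 1)).toNat)
            (fun k _ => Nat.zero_le _) (Finset.mem_range.2 (show 9 < 10 by norm_num))
        rw [show ((9 : ℕ) : ℤ) + 1 = 10 by norm_num] at h5
        exact le_trans h5 (Nat.le_mul_of_pos_left _ (by norm_num))
      unfold wt
      rw [Nat.cast_add, Nat.cast_sub hle, Nat.cast_mul, h9, h11, hp, Nat.cast_sum]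
      have hc : ∀ j, (((d (i + 1) j).toNat : ℕ) : ℤ) = d (i + 1) j := fun j =>
        Int.toNat_of_nonneg (hnn j)
      simp only [hc]
      unfold cwid
      have e3 : Finset.Icc (1 : ℤ) (10 - 1) = {1, 2, 3, 4, 5, 6, 7, 8, 9} := rfl
      rw [e3]
      simp only [Finset.sum_range_succ, Finset.sum_range_zero]
      norm_num
      ring
    omega
  · apply Nat.eq_of_testBit_eq
    intro k
    rw [Bool.eq_iff_iff, x1023_tb]
    change (qM d (i + 1)).testBit k = true ↔ k < 10 ∧ ¬ (Nat.lor (Nat.lor (gM d (i + 1))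
      (nbm (gM d (i + 1)))) (Nat.lor (gM d i) (tp s p))).testBit k = true
    rw [lor_tb, lor_tb, lor_tb, nbm_tb, qM_tb, tp_tb, gM_tb, gM_tb, gM_tb, gM_tb, st_two,
      show i + 1 - 1 = i by ring]
    have z := hz (i + 1) 0 le_rfl
    constructor
    · rintro ⟨hk, h1, -, h2, h3, h4⟩
      refine ⟨hk, ?_⟩
      rintro ((h5 | h5 | h5) | h5 | h5)
      · exact h1 h5.2
      · obtain ⟨h6, h7, h8⟩ := h5
        rw [show ((k - 1 : ℕ) : ℤ) + 1 = k by omega] at h8
        exact h2 h8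
      · obtain ⟨h7, h8⟩ := h5
        rw [show ((k + 1 : ℕ) : ℤ) + 1 = (k : ℤ) + 2 by push_cast; ring] at h8
        exact h3 h8
      · exact h4 h5.2
      · obtain ⟨h6, h7⟩ := h5
        subst h6
        apply h3
        have := htop.2 h7
        norm_num
        exact this
    · rintro ⟨hk, h⟩
      refine ⟨hk, ?_, by omega, ?_, ?_, ?_⟩
      · exact fun e => h (Or.inl (Or.inl ⟨hk, e⟩))
      · intro e
        rcases Nat.eq_zero_or_pos k with h0 | h0
        · subst h0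
          rw [Nat.cast_zero] at e
          rw [e] at z
          norm_num at z
        · refine h (Or.inl (Or.inr (Or.inl ⟨h0, by omega, ?_⟩)))
          rw [show ((k - 1 : ℕ) : ℤ) + 1 = k by omega]
          exact e
      · intro e
        by_cases h9 : k = 9
        · subst h9
          refine h (Or.inr (Or.inr ⟨rfl, htop.1 ?_⟩))
          norm_num at e
          exact e
        · refine h (Or.inl (Or.inr (Or.inr ⟨by omega, ?_⟩)))
          rw [show ((k + 1 : ℕ) : ℤ) + 1 = (k : ℤ) + 2 by push_cast; ring]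
          exact e
      · exact fun e => h (Or.inr (Or.inl ⟨hk, e⟩))

end PatGap.Pr
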