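import Pool.Agent.H.MP_b28609_co.Gap.Side

/-!
# MP_b28609_co, exact theorem: statements

The grid has many rows and few columns.  `d` and `d'` are the two sets of guards.
-/

set_option autoImplicit false

noncomputable section

namespace PatGap

/-- The potential of the side strip, explicit. -/
def Gs (d : ℤ → ℤ → ℤ) (i : ℤ) : ℤ := Side.T 0 (Side.st d i)

/-- The rows `r, ..., r + W` are clean for the left strip: `d` and `d'` are tight, lattices outside the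
strip, the guards there move to the next row. -/
structure Strip (d d' : ℤ → ℤ → ℤ) (f : ℤ × ℤ → ℤ × ℤ) (s c r W : ℤ) : Prop where
  bin : Bin d
  bin' : Bin d'
  mv : Mv d d' f
  zero : ∀ i j, j ≤ 0 → d i j = 0
  zero' : ∀ i j, j ≤ 0 → d' i j = 0
  dom : ∀ i j, r ≤ i → i ≤ r + W → 1 ≤ j → j ≤ 10 → 1 ≤ a d i j
  dom' : ∀ i j, r ≤ i → i ≤ r + W → 1 ≤ j → j ≤ 10 → 1 ≤ a d' i j
  tight : ∀ i, r ≤ i → i ≤ r + W → sg Gs d i = 0
  tight' : ∀ i, r ≤ i → i ≤ r + W → sg Gs d' i = 0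
  slope : s = 2 ∨ s = 3
  lat : Lat d s c r (r + W) 10 13
  lat' : Lat d' s ((c + 1) % 5) r (r + W) 10 13
  c0 : 0 ≤ c
  c4 : c ≤ 4
  down : ∀ i j, r ≤ i → i ≤ r + W → 11 ≤ j → j ≤ 13 → d i j = 1 → f (i, j) = (i + 1, j)

/-- Gluing at the row `b`: rows `≤ b + 1` of `d'`, then the rows `≥ b + 1` of `d`. -/
def GoodRow (d d' : ℤ → ℤ → ℤ) (f : ℤ × ℤ → ℤ × ℤ) (b : ℤ) : Prop :=
  (∀ j, 1 ≤ j → j ≤ 10 → 1 ≤ d' b j + d' (b + 1) j + d' (b + 1) (j - 1) + d' (b + 1) (j + 1)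
    + d (b + 1) j) ∧
  (∀ j, 1 ≤ j → j ≤ 10 → 1 ≤ d' (b + 1) j + d (b + 1) j + d (b + 1) (j - 1) + d (b + 1) (j + 1)
    + d (b + 2) j) ∧
  ∑ j ∈ Finset.Icc (1 : ℤ) 10, ((if d (b + 1) j = 1 ∧ (f (b + 1, j)).1 ≤ b + 1 then (1 : ℤ) else 0) +
    (if d (b + 2) j = 1 ∧ (f (b + 2, j)).1 ≤ b + 1 then (1 : ℤ) else 0)) ≤ 1

/-- Module ExStrip: a clean strip of 60 rows has a good row. -/
def ExStripStmt : Prop :=
  ∀ (d d' : ℤ → ℤ → ℤ) (f : ℤ × ℤ → ℤ × ℤ) (s c r : ℤ), Strip d d' f s c r 60 →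
    ∃ b, r + 2 ≤ b ∧ b + 3 ≤ r + 60 ∧ GoodRow d d' f b

end PatGap
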