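import Pool.Agent.H.MP_b28609_co.Gap.Ex.Stmt
import Pool.Agent.H.MP_b28609_co.Gap.Stmt2
import Pool.Agent.H.MP_b28609_co.Gap.Grid

/-!
# MP_b28609_co, exact theorem, lower bound: statements of the modules

The grid has many rows `m` and few columns `n`.
-/

set_option autoImplicit false

noncomputable section

namespace PatGap

/-- Reflection of the columns, for the motion. -/
def rff (n : ℤ) (f : ℤ × ℤ → ℤ × ℤ) : ℤ × ℤ → ℤ × ℤ :=
  fun v => ((f (v.1, n + 1 - v.2)).1, n + 1 - (f (v.1, n + 1 - v.2)).2)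

/-- In the rows `r + 5, ..., r + 235` both sets are perfect codes in the columns `10, ..., n - 9`, and
the guards there move to the next row. -/
structure Gd (n : ℤ) (d d' : ℤ → ℤ → ℤ) (f : ℤ × ℤ → ℤ × ℤ) (s c r : ℤ) : Prop where
  slope : s = 2 ∨ s = 3
  c0 : 0 ≤ c
  c4 : c ≤ 4
  lat : Lat d s c (r + 5) (r + 235) 10 (n - 9)
  lat' : Lat d' s ((c + 1) % 5) (r + 5) (r + 235) 10 (n - 9)
  down : ∀ i j, r + 6 ≤ i → i ≤ r + 234 → 11 ≤ j → j ≤ n - 10 → d i j = 1 → f (i, j) = (i + 1, j)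

/-- The rows `r + 1, ..., r + 240` are clean on both sides. -/
def Clean2 (n : ℤ) (d : ℤ → ℤ → ℤ) (r : ℤ) : Prop := Clean Gs n d r ∧ Clean Gs n (rf n d) r

/-- Gluing: the rows `≤ b + 1` of `d'`, then the rows `≥ b + 1` of `d`, where `b` is `bL` in the left
half and `bR` in the right half. -/
def gl (n bL bR : ℤ) (d d' : ℤ → ℤ → ℤ) : ℤ → ℤ → ℤ :=
  fun i j => if i ≤ (if 2 * j ≤ n then bL else bR) + 1 then d' i j else d (i - 1) j

/-- Module ExAsm: the assembly inequality with the slacks of the two long sides. -/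
def ExAsmStmt : Prop :=
  ∀ G, SideProp G → ∀ (m n : ℤ) (d : ℤ → ℤ → ℤ), 30 ≤ m → 30 ≤ n → DomG m n d →
    m * n + 2 * (m + n) - 248 + ∑ i ∈ Finset.Icc (11 : ℤ) (m - 10), (sg G d i + sg G (rf n d) i +
      ∑ j ∈ Finset.Icc (11 : ℤ) (n - 10), (a d i j - 1)) ≤ 5 * tot m n d

/-- Module ExClean: existence of clean rows. -/
def ExCleanStmt : Prop :=
  ∀ (m n : ℤ) (d d' : ℤ → ℤ → ℤ), 60 ≤ n → 480 * n + 122180 ≤ m → DomG m n d → DomG m n d' →
    tot m n d = tot m n d' → 5 * tot m n d ≤ (m + 3) * (n + 2) →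
    ∃ r, 10 ≤ r ∧ r + 250 ≤ m ∧ Clean2 n d r ∧ Clean2 n d' r

/-- Module ExBand: in clean rows all guards of the middle move to the next row, for `d` or for
`d'`. -/
def ExBandStmt : Prop :=
  ∀ (m n : ℤ) (d d' : ℤ → ℤ → ℤ) (f : ℤ × ℤ → ℤ × ℤ) (r : ℤ), DomG m n d → DomG m n d' →
    Mv d d' f → 60 ≤ n → 10 ≤ r → r + 250 ≤ m → Clean2 n d r → Clean2 n d' r →
    (∃ s c : ℤ, Gd n d d' f s c r) ∨ ∀ g : ℤ × ℤ → ℤ × ℤ, Mv d' d g → ∃ s c : ℤ, Gd n d' d g s c r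

/-- Module ExSide: the two side strips. -/
def ExSideStmt : Prop :=
  ∀ (m n : ℤ) (d d' : ℤ → ℤ → ℤ) (f : ℤ × ℤ → ℤ × ℤ) (r s c : ℤ), DomG m n d → DomG m n d' →
    Mv d d' f → 60 ≤ n → 10 ≤ r → r + 250 ≤ m → Clean2 n d r → Clean2 n d' r →
    Gd n d d' f s c r →
    Strip d d' f s c (r + 10) 60 ∧
      ∃ c2 : ℤ, Strip (rf n d) (rf n d') (rff n f) (5 - s) c2 (r + 10) 60

/-- Module ExDom: the glued set is dominating. -/
def ExDomStmt : Prop :=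
  ∀ (m n : ℤ) (d d' : ℤ → ℤ → ℤ) (f : ℤ × ℤ → ℤ × ℤ) (r s c bL bR : ℤ), DomG m n d →
    DomG m n d' → Mv d d' f → 60 ≤ n → 10 ≤ r → r + 250 ≤ m → Gd n d d' f s c r →
    r + 12 ≤ bL → bL ≤ r + 100 → r + 12 ≤ bR → bR ≤ r + 100 →
    GoodRow d d' f bL → GoodRow (rf n d) (rf n d') (rff n f) bR →
    DomG (m + 1) n (gl n bL bR d d')

/-- Module ExCnt: the number of guards of the glued set. -/
def ExCntStmt : Prop :=
  ∀ (m n : ℤ) (d d' : ℤ → ℤ → ℤ) (f : ℤ × ℤ → ℤ × ℤ) (r s c bL bR : ℤ), DomG m n d →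
    DomG m n d' → Mv d d' f → 60 ≤ n → 10 ≤ r → r + 250 ≤ m → Gd n d d' f s c r →
    r + 12 ≤ bL → bL ≤ r + 100 → r + 12 ≤ bR → bR ≤ r + 100 →
    GoodRow d d' f bL → GoodRow (rf n d) (rf n d') (rff n f) bR →
    tot (m + 1) n (gl n bL bR d d') ≤ tot m n d + 2

/-- Module ExBack: back to finite sets of vertices. -/
def ExBackStmt : Prop :=
  ∀ (m n : ℕ) (e : ℤ → ℤ → ℤ), DomG m n e →
    ∃ D : Finset (Fin m × Fin n), PatDom.Dom (PatDom.grid m n) D ∧ (D.card : ℤ) = tot m n e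

end PatGap
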