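import Pool.Agent.H.MP_b28609_co.Up

/-!
# MP_b28609_co: patrolling dominating sets of large grids by inserting five rows and five columns

`dig L j i` is the octal digit `i` of the number `j` of the list `L`: the code of the cell in column
`j` and row `i`, as in `Good`.
-/

set_option autoImplicit false

namespace PatDom

def dig (L : List ℕ) (j i : ℕ) : ℕ := (L.getD j 0 / 8 ^ i) % 8

/-- the radius one condition of the cell in column `j`, row `i` -/
def cellB (m n : ℕ) (L K : List ℕ) (j i : ℕ) : Bool :=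
  let x := dig L j i
  if x = 0 then
    (decide (i + 1 < m) && !(decide (dig L j (i + 1) = 0))) ||
    (decide (1 ≤ i) && !(decide (dig L j (i - 1) = 0))) ||
    (decide (j + 1 < n) && !(decide (dig L (j + 1) i = 0))) ||
    (decide (1 ≤ j) && !(decide (dig L (j - 1) i = 0)))
  else if x = 1 then decide (i + 1 < m) && decide (dig K j (i + 1) = 2)
  else if x = 2 then decide (1 ≤ i) && decide (dig K j (i - 1) = 1)
  else if x = 3 then decide (j + 1 < n) && decide (dig K (j + 1) i = 4)
  else if x = 4 then decide (1 ≤ j) && decide (dig K (j - 1) i = 3)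
  else false

def goodB (m n : ℕ) (L K : List ℕ) : Bool :=
  (List.range n).all fun j => (List.range m).all fun i => cellB m n L K j i

theorem good_of_goodB {m n : ℕ} {L K : List ℕ} (h : goodB m n L K = true) :
    Good m n (dig L) (dig K) := by
  have h1 : ∀ j < n, ∀ i < m, cellB m n L K j i = true := by
    intro j hj i hi
    unfold goodB at h
    rw [List.all_eq_true] at h
    have h2 := h j (List.mem_range.2 hj)
    rw [List.all_eq_true] at h2
    exact h2 i (List.mem_range.2 hi)
  refine ⟨?_, ?_, ?_, ?_, ?_, ?_⟩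
  · intro j hj i hi
    have h2 := h1 j hj i hi
    unfold cellB at h2
    by_contra hc
    have e0 : ¬ dig L j i = 0 := by omega
    have e1 : ¬ dig L j i = 1 := by omega
    have e2 : ¬ dig L j i = 2 := by omega
    have e3 : ¬ dig L j i = 3 := by omega
    have e4 : ¬ dig L j i = 4 := by omega
    simp only [e0, e1, e2, e3, e4, if_false] at h2
    exact absurd h2 (by decide)
  · intro j hj i hi hx
    have h2 := h1 j hj i hi
    unfold cellB at h2
    simp only [hx, if_true, if_false, Bool.and_eq_true, decide_eq_true_eq, one_ne_zero] at h2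
    exact h2
  · intro j hj i hi hx
    have h2 := h1 j hj i hi
    unfold cellB at h2
    simp only [hx, if_true, if_false, Bool.and_eq_true, decide_eq_true_eq, OfNat.ofNat_ne_zero,
      OfNat.ofNat_ne_one] at h2
    exact h2
  · intro j hj i hi hx
    have h2 := h1 j hj i hi
    unfold cellB at h2
    have e2 : ¬ (3 : ℕ) = 2 := by decide
    simp only [hx, if_true, if_false, Bool.and_eq_true, decide_eq_true_eq, OfNat.ofNat_ne_zero,
      OfNat.ofNat_ne_one, e2] at h2
    exact h2
  · intro j hj i hi hx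
    have h2 := h1 j hj i hi
    unfold cellB at h2
    have e2 : ¬ (4 : ℕ) = 2 := by decide
    have e3 : ¬ (4 : ℕ) = 3 := by decide
    simp only [hx, if_true, if_false, Bool.and_eq_true, decide_eq_true_eq, OfNat.ofNat_ne_zero,
      OfNat.ofNat_ne_one, e2, e3] at h2
    exact h2
  · intro j hj i hi
    have h2 := h1 j hj i hi
    unfold cellB at h2
    by_cases hx : dig L j i = 0
    · right
      simp only [hx, if_true, Bool.or_eq_true, Bool.and_eq_true, decide_eq_true_eq,
        Bool.not_eq_true', decide_eq_false_iff_not] at h2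
      rcases h2 with ((h3 | h3) | h3) | h3
      · exact Or.inl h3
      · exact Or.inr (Or.inl h3)
      · exact Or.inr (Or.inr (Or.inl h3))
      · exact Or.inr (Or.inr (Or.inr h3))
    · exact Or.inl hx

/-- insertion of `p` copies of the positions `a + 1, ..., a + 5` -/
def ins (a p i : ℕ) : ℕ :=
  if i ≤ a + 5 then i else if i ≤ a + 5 + 5 * p then a + 1 + (i - (a + 1)) % 5 else i - 5 * p

theorem ins_low {a p i : ℕ} (h : i ≤ a + 5) : ins a p i = i := by
  unfold ins
  rw [if_pos h]

theorem ins_mid {a p i : ℕ} (h : a + 5 < i) (h' : i ≤ a + 5 + 5 * p) :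
    ins a p i = a + 1 + (i - (a + 1)) % 5 := by
  unfold ins
  rw [if_neg (by omega), if_pos h']

theorem ins_high {a p i : ℕ} (h : a + 5 + 5 * p < i) : ins a p i = i - 5 * p := by
  unfold ins
  rw [if_neg (by omega), if_neg (by omega)]

theorem ins_lt {m a p i : ℕ} (ha : a + 6 < m) (hi : i < m + 5 * p) : ins a p i < m := by
  unfold ins
  split_ifs
  · omega
  · have := Nat.mod_lt (i - (a + 1)) (show 0 < 5 by decide)
    omega
  · omega

theorem ins_next {m a p i : ℕ} (ha : a + 6 < m) (hi : ins a p i + 1 < m) : i + 1 < m + 5 * p := by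
  unfold ins at hi
  split_ifs at hi
  · omega
  · omega
  · omega

theorem ins_pos {a p i : ℕ} (hi : 1 ≤ ins a p i) : 1 ≤ i := by
  unfold ins at hi
  split_ifs at hi
  · omega
  · omega
  · omega

/-- a function which agrees on the two seams -/
def Seam (a : ℕ) {α : Type*} (F : ℕ → α) : Prop := F a = F (a + 5) ∧ F (a + 1) = F (a + 6)

theorem ins_succ {a p i : ℕ} {α : Type*} {F : ℕ → α} (h : Seam a F) :
    F (ins a p (i + 1)) = F (ins a p i + 1) := by
  rcases Nat.lt_trichotomy i (a + 5) with h1 | h1 | h1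
  · rw [ins_low (show i + 1 ≤ a + 5 by omega), ins_low (show i ≤ a + 5 by omega)]
  · subst h1
    rw [ins_low (le_refl (a + 5))]
    rcases Nat.eq_zero_or_pos p with h2 | h2
    · rw [ins_high (show a + 5 + 5 * p < a + 5 + 1 by omega)]
      subst h2
      rfl
    · rw [ins_mid (show a + 5 < a + 5 + 1 by omega) (show a + 5 + 1 ≤ a + 5 + 5 * p by omega)]
      have e : a + 1 + (a + 5 + 1 - (a + 1)) % 5 = a + 1 := by omega
      rw [e, h.2]
  · rcases Nat.lt_trichotomy i (a + 5 + 5 * p) with h2 | h2 | h2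
    · rw [ins_mid (show a + 5 < i + 1 by omega) (show i + 1 ≤ a + 5 + 5 * p by omega),
        ins_mid h1 (show i ≤ a + 5 + 5 * p by omega)]
      rcases Nat.lt_or_ge ((i - (a + 1)) % 5) 4 with h3 | h3
      · have e : a + 1 + (i + 1 - (a + 1)) % 5 = a + 1 + (i - (a + 1)) % 5 + 1 := by omega
        rw [e]
      · have h4 : (i - (a + 1)) % 5 = 4 := by
          have := Nat.mod_lt (i - (a + 1)) (show 0 < 5 by decide)
          omega
        have e1 : a + 1 + (i + 1 - (a + 1)) % 5 = a + 1 := by omega
        have e2 : a + 1 + (i - (a + 1)) % 5 + 1 = a + 6 := by omega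
        rw [e1, e2, h.2]
    · rw [ins_high (show a + 5 + 5 * p < i + 1 by omega), ins_mid h1 (le_of_eq h2)]
      have e : i + 1 - 5 * p = a + 1 + (i - (a + 1)) % 5 + 1 := by omega
      rw [e]
    · rw [ins_high (show a + 5 + 5 * p < i + 1 by omega), ins_high h2]
      have e : i + 1 - 5 * p = i - 5 * p + 1 := by omega
      rw [e]

theorem ins_pred {a p i : ℕ} {α : Type*} {F : ℕ → α} (h : Seam a F) (hi : 1 ≤ i) :
    F (ins a p (i - 1)) = F (ins a p i - 1) := by
  obtain ⟨k, rfl⟩ : ∃ k, i = k + 1 := ⟨i - 1, by omega⟩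
  rw [Nat.add_sub_cancel]
  rcases Nat.lt_trichotomy k (a + 5) with h1 | h1 | h1
  · rw [ins_low (show k + 1 ≤ a + 5 by omega), ins_low (show k ≤ a + 5 by omega),
      Nat.add_sub_cancel]
  · subst h1
    rw [ins_low (le_refl (a + 5))]
    rcases Nat.eq_zero_or_pos p with h2 | h2
    · rw [ins_high (show a + 5 + 5 * p < a + 5 + 1 by omega)]
      subst h2
      rfl
    · rw [ins_mid (show a + 5 < a + 5 + 1 by omega) (show a + 5 + 1 ≤ a + 5 + 5 * p by omega)]
      have e : a + 1 + (a + 5 + 1 - (a + 1)) % 5 - 1 = a := by omega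
      rw [e, h.1]
  · rcases Nat.lt_trichotomy k (a + 5 + 5 * p) with h2 | h2 | h2
    · rw [ins_mid (show a + 5 < k + 1 by omega) (show k + 1 ≤ a + 5 + 5 * p by omega),
        ins_mid h1 (show k ≤ a + 5 + 5 * p by omega)]
      rcases Nat.lt_or_ge ((k - (a + 1)) % 5) 4 with h3 | h3
      · have e : a + 1 + (k + 1 - (a + 1)) % 5 - 1 = a + 1 + (k - (a + 1)) % 5 := by omega
        rw [e]
      · have h4 : (k - (a + 1)) % 5 = 4 := by
          have := Nat.mod_lt (k - (a + 1)) (show 0 < 5 by decide)
          omega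
        have e1 : a + 1 + (k + 1 - (a + 1)) % 5 - 1 = a := by omega
        have e2 : a + 1 + (k - (a + 1)) % 5 = a + 5 := by omega
        rw [e1, e2, h.1]
    · rw [ins_high (show a + 5 + 5 * p < k + 1 by omega), ins_mid h1 (le_of_eq h2)]
      have e : k + 1 - 5 * p - 1 = a + 1 + (k - (a + 1)) % 5 := by omega
      rw [e]
    · rw [ins_high (show a + 5 + 5 * p < k + 1 by omega), ins_high h2]
      have e : k + 1 - 5 * p - 1 = k - 5 * p := by omega
      rw [e]

theorem sum_split (F : ℕ → ℕ) (n k : ℕ) :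
    ∑ i ∈ Finset.range (n + k), F i =
      ∑ i ∈ Finset.range n, F i + ∑ i ∈ Finset.range k, F (n + i) := by
  induction k with
  | zero => simp
  | succ k ih => rw [← Nat.add_assoc, Finset.sum_range_succ, ih, Finset.sum_range_succ,
      Nat.add_assoc]

theorem ins_sum {m a p : ℕ} (ha : a + 6 < m) (F : ℕ → ℕ) :
    ∑ i ∈ Finset.range (m + 5 * p), F (ins a p i) =
      ∑ i ∈ Finset.range m, F i + p * ∑ i ∈ Finset.range 5, F (a + 1 + i) := by
  have h1 : ∀ q ≤ p, ∑ i ∈ Finset.range (a + 6 + 5 * q), F (ins a p i) =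
      ∑ i ∈ Finset.range (a + 6), F i + q * ∑ i ∈ Finset.range 5, F (a + 1 + i) := by
    intro q
    induction q with
    | zero =>
      intro _
      rw [Nat.mul_zero, Nat.add_zero, Nat.zero_mul, Nat.add_zero]
      refine Finset.sum_congr rfl fun i hi => ?_
      rw [Finset.mem_range] at hi
      rw [ins_low (show i ≤ a + 5 by omega)]
    | succ q ih =>
      intro hq
      have hstep : ∑ i ∈ Finset.range 5, F (ins a p (a + 6 + 5 * q + i)) =
          ∑ i ∈ Finset.range 5, F (a + 1 + i) := by
        refine Finset.sum_congr rfl fun i hi => ?_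
        rw [Finset.mem_range] at hi
        rw [ins_mid (show a + 5 < a + 6 + 5 * q + i by omega)
          (show a + 6 + 5 * q + i ≤ a + 5 + 5 * p by omega)]
        have e : a + 1 + (a + 6 + 5 * q + i - (a + 1)) % 5 = a + 1 + i := by omega
        rw [e]
      rw [show a + 6 + 5 * (q + 1) = a + 6 + 5 * q + 5 by ring,
        sum_split (fun i => F (ins a p i)) (a + 6 + 5 * q) 5, ih (by omega), hstep,
        Nat.succ_mul, ← Nat.add_assoc]
  obtain ⟨t, rfl⟩ : ∃ t, m = a + 6 + t := ⟨m - (a + 6), by omega⟩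
  have hend : ∑ i ∈ Finset.range t, F (ins a p (a + 6 + 5 * p + i)) =
      ∑ i ∈ Finset.range t, F (a + 6 + i) := by
    refine Finset.sum_congr rfl fun i hi => ?_
    rw [ins_high (show a + 5 + 5 * p < a + 6 + 5 * p + i by omega)]
    have e : a + 6 + 5 * p + i - 5 * p = a + 6 + i := by omega
    rw [e]
  rw [show a + 6 + t + 5 * p = a + 6 + 5 * p + t by ring,
    sum_split (fun i => F (ins a p i)) (a + 6 + 5 * p) t, h1 p le_rfl, hend,
    sum_split F (a + 6) t]
  ring

end PatDom
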