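import Pool.Agent.H.MP_b28609_co.Gap.Ex.U0

/-!
# MP_b28609_co: patrolling dominating sets of large grids by insertion, the insertion theorem

A base pattern of an `m × n` grid with seams at the rows `a`, `a + 1`, `a + 5`, `a + 6` and the columns
`b`, `b + 1`, `b + 5`, `b + 6` gives patterns of all `(m + 5 p) × (n + 5 q)` grids.
-/

set_option autoImplicit false

namespace PatDom

/-- the pattern agrees on the seams in rows and columns -/
def Seams (m n a b : ℕ) (f : ℕ → ℕ → ℕ) : Prop :=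
  (∀ j < n, Seam a (f j)) ∧ ∀ i < m, Seam b fun j => f j i

theorem good_ins {m n a b p q : ℕ} {f g : ℕ → ℕ → ℕ} (ha : a + 6 < m) (hb : b + 6 < n)
    (h : Good m n f g) (sf : Seams m n a b f) (sg : Seams m n a b g) :
    Good (m + 5 * p) (n + 5 * q) (fun j i => f (ins b q j) (ins a p i))
      (fun j i => g (ins b q j) (ins a p i)) := by
  refine ⟨?_, ?_, ?_, ?_, ?_, ?_⟩
  · intro j hj i hi
    exact h.f0 _ (ins_lt hb hj) _ (ins_lt ha hi)
  · intro j hj i hi hx
    have hj' := ins_lt hb hj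
    have hi' := ins_lt ha hi
    obtain ⟨h1, h2⟩ := h.f1 _ hj' _ hi' hx
    refine ⟨ins_next ha h1, ?_⟩
    show g (ins b q j) (ins a p (i + 1)) = 2
    rw [ins_succ (sg.1 _ hj'), h2]
  · intro j hj i hi hx
    have hj' := ins_lt hb hj
    have hi' := ins_lt ha hi
    obtain ⟨h1, h2⟩ := h.f2 _ hj' _ hi' hx
    refine ⟨ins_pos h1, ?_⟩
    show g (ins b q j) (ins a p (i - 1)) = 1
    rw [ins_pred (sg.1 _ hj') (ins_pos h1), h2]
  · intro j hj i hi hx
    have hj' := ins_lt hb hj
    have hi' := ins_lt ha hi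
    obtain ⟨h1, h2⟩ := h.f3 _ hj' _ hi' hx
    refine ⟨ins_next hb h1, ?_⟩
    have e := ins_succ (p := q) (i := j) (sg.2 _ hi')
    exact e.trans h2
  · intro j hj i hi hx
    have hj' := ins_lt hb hj
    have hi' := ins_lt ha hi
    obtain ⟨h1, h2⟩ := h.f4 _ hj' _ hi' hx
    refine ⟨ins_pos h1, ?_⟩
    have e := ins_pred (p := q) (i := j) (sg.2 _ hi') (ins_pos h1)
    exact e.trans h2
  · intro j hj i hi
    have hj' := ins_lt hb hj
    have hi' := ins_lt ha hi
    rcases h.fd _ hj' _ hi' with h1 | ⟨h1, h2⟩ | ⟨h1, h2⟩ | ⟨h1, h2⟩ | ⟨h1, h2⟩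
    · exact Or.inl h1
    · refine Or.inr (Or.inl ⟨ins_next ha h1, ?_⟩)
      have e := ins_succ (p := p) (i := i) (sf.1 _ hj')
      intro hz
      exact h2 (e.symm.trans hz)
    · refine Or.inr (Or.inr (Or.inl ⟨ins_pos h1, ?_⟩))
      have e := ins_pred (p := p) (i := i) (sf.1 _ hj') (ins_pos h1)
      intro hz
      exact h2 (e.symm.trans hz)
    · refine Or.inr (Or.inr (Or.inr (Or.inl ⟨ins_next hb h1, ?_⟩)))
      have e := ins_succ (p := q) (i := j) (sf.2 _ hi')
      intro hz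
      exact h2 (e.symm.trans hz)
    · refine Or.inr (Or.inr (Or.inr (Or.inr ⟨ins_pos h1, ?_⟩)))
      have e := ins_pred (p := q) (i := j) (sf.2 _ hi') (ins_pos h1)
      intro hz
      exact h2 (e.symm.trans hz)

/-- sums over initial segments, by recursion -/
def csum (F : ℕ → ℕ) : ℕ → ℕ
  | 0 => 0
  | k + 1 => csum F k + F k

theorem csum_eq (F : ℕ → ℕ) (k : ℕ) : csum F k = ∑ i ∈ Finset.range k, F i := by
  induction k with
  | zero => rfl
  | succ k ih => rw [Finset.sum_range_succ, ← ih]; rfl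

/-- number of guards in the rows `i0, ..., i0 + k - 1` and the columns `j0, ..., j0 + l - 1` -/
def cnt (L : List ℕ) (i0 k j0 l : ℕ) : ℕ :=
  csum (fun j => csum (fun i => if dig L (j0 + j) (i0 + i) = 0 then 0 else 1) k) l

theorem count_ins {m n a b : ℕ} (p q : ℕ) (L : List ℕ) (ha : a + 6 < m) (hb : b + 6 < n) :
    (∑ j ∈ Finset.range (n + 5 * q), ∑ i ∈ Finset.range (m + 5 * p),
      if dig L (ins b q j) (ins a p i) = 0 then 0 else 1) =
      cnt L 0 m 0 n + p * cnt L (a + 1) 5 0 n +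
        q * (cnt L 0 m (b + 1) 5 + p * cnt L (a + 1) 5 (b + 1) 5) := by
  have h1 : ∀ J, (∑ i ∈ Finset.range (m + 5 * p), if dig L J (ins a p i) = 0 then 0 else 1) =
      (∑ i ∈ Finset.range m, if dig L J i = 0 then 0 else 1) +
        p * ∑ i ∈ Finset.range 5, if dig L J (a + 1 + i) = 0 then 0 else 1 := by
    intro J
    exact ins_sum (p := p) ha (fun i => if dig L J i = 0 then 0 else 1)
  have h2 : (∑ j ∈ Finset.range (n + 5 * q), ∑ i ∈ Finset.range (m + 5 * p),
      if dig L (ins b q j) (ins a p i) = 0 then 0 else 1) =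
      ∑ j ∈ Finset.range (n + 5 * q), (fun J => (∑ i ∈ Finset.range m, if dig L J i = 0 then 0 else 1) +
        p * ∑ i ∈ Finset.range 5, if dig L J (a + 1 + i) = 0 then 0 else 1) (ins b q j) := by
    refine Finset.sum_congr rfl fun j _ => ?_
    exact h1 (ins b q j)
  refine h2.trans ((ins_sum (p := q) hb fun J => (∑ i ∈ Finset.range m, if dig L J i = 0 then 0 else 1) +
        p * ∑ i ∈ Finset.range 5, if dig L J (a + 1 + i) = 0 then 0 else 1).trans ?_)
  unfold cnt
  simp only [csum_eq, Nat.zero_add, Finset.sum_add_distrib, Finset.mul_sum]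

/-- check of a base pattern -/
def seamB (m n a b : ℕ) (L : List ℕ) : Bool :=
  ((List.range n).all fun j => decide (dig L j a = dig L j (a + 5)) &&
    decide (dig L j (a + 1) = dig L j (a + 6))) &&
  ((List.range m).all fun i => decide (dig L b i = dig L (b + 5) i) &&
    decide (dig L (b + 1) i = dig L (b + 6) i))

theorem seams_of_seamB {m n a b : ℕ} {L : List ℕ} (h : seamB m n a b L = true) :
    Seams m n a b (dig L) := by
  unfold seamB at h
  rw [Bool.and_eq_true, List.all_eq_true, List.all_eq_true] at h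
  refine ⟨fun j hj => ?_, fun i hi => ?_⟩
  · have h1 := h.1 j (List.mem_range.2 hj)
    rw [Bool.and_eq_true, decide_eq_true_eq, decide_eq_true_eq] at h1
    exact h1
  · have h1 := h.2 i (List.mem_range.2 hi)
    rw [Bool.and_eq_true, decide_eq_true_eq, decide_eq_true_eq] at h1
    exact h1

/-- the full check of a base pattern -/
def patB (m n a b : ℕ) (L K : List ℕ) : Bool :=
  decide (a + 6 < m) && decide (b + 6 < n) && goodB m n L K && goodB m n K L &&
  seamB m n a b L && seamB m n a b K &&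
  decide (cnt L 0 m 0 n + 6 ≤ (m + 2) * (n + 3) / 5) && decide (cnt L (a + 1) 5 0 n ≤ n + 3) &&
  decide (cnt L 0 m (b + 1) 5 ≤ m + 2) && decide (cnt L (a + 1) 5 (b + 1) 5 ≤ 5)

theorem pat_up {m n a b : ℕ} {L K : List ℕ} (h : patB m n a b L K = true) (p q : ℕ) :
    pnum (grid (m + 5 * p) (n + 5 * q)) + 6 ≤ (m + 5 * p + 2) * (n + 5 * q + 3) / 5 := by
  unfold patB at h
  simp only [Bool.and_eq_true, decide_eq_true_eq] at h
  obtain ⟨⟨⟨⟨⟨⟨⟨⟨⟨ha, hb⟩, g1⟩, g2⟩, s1⟩, s2⟩, c1⟩, c2⟩, c3⟩, c4⟩ := h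
  have t1 := seams_of_seamB s1
  have t2 := seams_of_seamB s2
  obtain ⟨D, hD, hc⟩ := good_patrol (good_ins (p := p) (q := q) ha hb (good_of_goodB g1) t1 t2)
    (good_ins (p := p) (q := q) ha hb (good_of_goodB g2) t2 t1)
  have hc' := hc.trans (count_ins p q L ha hb)
  have h1 := pnum_le _ D hD
  rw [hc'] at h1
  have h2 : p * cnt L (a + 1) 5 0 n ≤ p * (n + 3) := Nat.mul_le_mul_left _ c2
  have h3 : q * (cnt L 0 m (b + 1) 5 + p * cnt L (a + 1) 5 (b + 1) 5) ≤ q * (m + 2 + p * 5) :=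
    Nat.mul_le_mul_left _ (Nat.add_le_add c3 (Nat.mul_le_mul_left _ c4))
  have h4 : (m + 5 * p + 2) * (n + 5 * q + 3) =
      (m + 2) * (n + 3) + 5 * (p * (n + 3) + q * (m + 2 + p * 5)) := by ring
  rw [h4, Nat.add_mul_div_left _ _ (show 0 < 5 by decide)]
  omega

end PatDom
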